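import Pool.Agent.K9h54.LC.Var2

set_option autoImplicit false

/-!
# Residues mod 4 of prime pairs in short windows: the bias of the columns
-/

namespace Pool.Agent.K9h54.LC

open Finset

/-- the residue of `6 c - 1` modulo `4` as a sign -/
noncomputable def ch (c : ℕ) : ℝ := if c % 2 = 1 then 1 else -1

theorem ch_abs (c : ℕ) : |ch c| ≤ 1 := by
  unfold ch
  split_ifs <;> simp

theorem alt_sum (d c0 : ℕ) (hd : d % 2 = 1) (h0 : 0 < c0) (h1 : c0 ≤ d) (Y : ℕ) :
    ∑ c ∈ (Icc 1 Y).filter (fun c => c ≡ c0 [MOD d]), ch c =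
      if ((Y + d - c0) / d) % 2 = 1 then ch c0 else 0 := by
  have hd0 : 0 < d := by omega
  induction Y with
  | zero =>
    have : (0 + d - c0) / d = 0 := Nat.div_eq_of_lt (by omega)
    rw [this]
    simp
  | succ Y ih =>
    obtain ⟨m, hm⟩ : ∃ m, m = Y + d - c0 := ⟨_, rfl⟩
    have hm1 : Y + 1 + d - c0 = m + 1 := by omega
    rw [← hm] at ih
    rw [hm1, Nat.succ_div]
    have h2 : Icc 1 (Y + 1) = insert (Y + 1) (Icc 1 Y) := by
      ext n
      rw [mem_insert, mem_Icc, mem_Icc]
      omega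
    rw [h2, filter_insert]
    by_cases hc : Y + 1 ≡ c0 [MOD d]
    · have hdv : d ∣ m + 1 := by
        have k1 : m + 1 + c0 ≡ 0 + c0 [MOD d] := by
          have k2 : m + 1 + c0 = Y + 1 + d := by omega
          rw [k2, zero_add]
          exact (Nat.add_mod_right _ _).trans hc
        exact Nat.modEq_zero_iff_dvd.1 (Nat.ModEq.add_right_cancel' c0 k1)
      rw [if_pos hc, sum_insert (by
        rw [mem_filter, mem_Icc]
        omega), ih, if_pos hdv]
      obtain ⟨j, hj⟩ := hdv
      have hj0 : 0 < j := by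
        rcases Nat.eq_zero_or_pos j with h | h
        · rw [h] at hj
          omega
        · exact h
      have hmj : m / d + 1 = j := by
        have k1 := Nat.succ_div (a := m) (b := d)
        have k2 : (m + 1) / d = j := by rw [hj]; exact Nat.mul_div_cancel_left j hd0
        rw [k2, if_pos ⟨j, hj⟩] at k1
        exact k1.symm
      -- parity
      have hpar : (Y + 1 + j) % 2 = (c0 + 1) % 2 := by
        have k1 : Y + 1 + d = c0 + d * j := by omega
        obtain ⟨e, he⟩ : ∃ e, d = 2 * e + 1 := ⟨d / 2, by omega⟩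
        have k2 : d * j = 2 * (e * j) + j := by rw [he]; ring
        omega
      unfold ch
      split_ifs <;> first | omega | norm_num
    · have hdv : ¬ d ∣ m + 1 := by
        intro h
        apply hc
        have k1 : m + 1 + c0 ≡ 0 + c0 [MOD d] := (Nat.modEq_zero_iff_dvd.2 h).add_right c0
        have k2 : m + 1 + c0 = Y + 1 + d := by omega
        rw [k2, zero_add] at k1
        exact ((Nat.add_mod_right _ _).symm : (Y + 1) % d = (Y + 1 + d) % d).trans k1
      rw [if_neg hc, if_neg hdv, add_zero]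
      exact ih

/-- the first column divisible by `d` -/
theorem first_col (d : ℕ) (hd : d % 2 = 1) (hd3 : d % 3 ≠ 0) : ∃ c0, 0 < c0 ∧ c0 ≤ d ∧
    (∀ c, 1 ≤ c → (d ∣ 6 * c - 1 ↔ c ≡ c0 [MOD d])) ∧ ch c0 = (if d % 4 = 1 then 1 else -1) ∧
      (∀ Y, 5 * d < 6 * Y → 6 * Y ≤ 7 * d → (Y + d - c0) / d = 1) := by
  have hcop : Nat.Coprime 6 d := by
    have h6 : (6 : ℕ) = 2 * 3 := by norm_num
    rw [h6, Nat.coprime_mul_iff_left]
    constructor
    · rw [Nat.prime_two.coprime_iff_not_dvd]
      omega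
    · rw [Nat.prime_three.coprime_iff_not_dvd]
      omega
  have key : ∀ c0 : ℕ, 1 ≤ c0 → d ∣ 6 * c0 - 1 → ∀ c, 1 ≤ c → (d ∣ 6 * c - 1 ↔ c ≡ c0 [MOD d]) := by
    intro c0 hc0 hdv c hc
    have k0 : 6 * c0 - 1 + 1 ≡ 0 + 1 [MOD d] := (Nat.modEq_zero_iff_dvd.2 hdv).add_right 1
    rw [Nat.sub_add_cancel (by omega), zero_add] at k0
    constructor
    · intro h
      have k2 : 6 * c - 1 + 1 ≡ 0 + 1 [MOD d] := (Nat.modEq_zero_iff_dvd.2 h).add_right 1
      rw [Nat.sub_add_cancel (by omega), zero_add] at k2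
      exact Nat.ModEq.cancel_left_of_coprime (by rw [Nat.gcd_comm]; exact hcop) (k2.trans k0.symm)
    · intro h
      have k2 : 6 * c - 1 + 1 ≡ 0 + 1 [MOD d] := by
        rw [Nat.sub_add_cancel (by omega), zero_add]
        exact (h.mul_left 6).trans k0
      exact Nat.modEq_zero_iff_dvd.1 (Nat.ModEq.add_right_cancel' 1 k2)
  have hd0 : 0 < d := by omega
  by_cases h5 : d % 6 = 5
  · obtain ⟨k, hk⟩ : ∃ k, d = 6 * k + 5 := ⟨d / 6, by omega⟩
    refine ⟨k + 1, by omega, by omega, key (k + 1) (by omega) ⟨1, by omega⟩, ?_, ?_⟩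
    · unfold ch
      split_ifs <;> first | omega | rfl
    · intro Y h1 h2
      rw [Nat.div_eq_iff hd0]
      constructor <;> omega
  · have h1 : d % 6 = 1 := by omega
    obtain ⟨k, hk⟩ : ∃ k, d = 6 * k + 1 := ⟨d / 6, by omega⟩
    refine ⟨5 * k + 1, by omega, by omega, key (5 * k + 1) (by omega) ⟨5, by omega⟩, ?_, ?_⟩
    · unfold ch
      split_ifs <;> first | omega | rfl
    · intro Y h1 h2
      rw [Nat.div_eq_iff hd0]
      constructor <;> omega

theorem prod_mod4 (A : Finset ℕ) : (∀ p ∈ A, p % 4 = 3) →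
    (if (∏ p ∈ A, p) % 4 = 1 then (1 : ℝ) else -1) = (-1) ^ A.card ∧ (∏ p ∈ A, p) % 2 = 1 := by
  classical
  induction A using Finset.induction_on with
  | empty =>
    intro _
    simp
  | insert p A hp ih =>
    intro h
    obtain ⟨h1, h2⟩ := ih fun p' hp' => h p' (mem_insert_of_mem hp')
    have h3 := h p (mem_insert_self _ _)
    rw [prod_insert hp, card_insert_of_notMem hp, pow_succ, ← h1]
    obtain ⟨m, hm⟩ : ∃ m, m = ∏ p ∈ A, p := ⟨_, rfl⟩
    rw [← hm] at h2 ⊢
    have h4 : (p * m) % 4 = (3 * (m % 4)) % 4 := by rw [Nat.mul_mod, h3]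
    have h5 : (p * m) % 2 = 1 := by
      rw [Nat.mul_mod]
      have : p % 2 = 1 := by omega
      rw [this, h2]
    refine ⟨?_, h5⟩
    have h6 : m % 4 = 1 ∨ m % 4 = 3 := by omega
    rcases h6 with h6 | h6
    · rw [h6] at h4
      have h7 : ¬ p * m % 4 = 1 := by
        rw [h4]
        norm_num
      rw [if_pos h6, if_neg h7]
      norm_num
    · rw [h6] at h4
      have h7 : p * m % 4 = 1 := by rw [h4]
      have h8 : ¬ m % 4 = 1 := by omega
      rw [if_pos h7, if_neg h8]
      norm_num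

/-- the bias of the columns -/
theorem bias (P : Finset ℕ) (hP : ∀ p ∈ P, p.Prime ∧ 5 ≤ p ∧ p % 4 = 3) (Y : ℕ) :
    ((P.powerset.filter (fun A => 5 * ∏ p ∈ A, p < 6 * Y ∧ 6 * Y ≤ 7 * ∏ p ∈ A, p)).card : ℝ) ≤
      ∑ c ∈ CC P Y, ch c := by
  classical
  have h1 : ∑ c ∈ CC P Y, ch c = ∑ A ∈ P.powerset, (-1 : ℝ) ^ A.card *
      ∑ c ∈ (Icc 1 Y).filter (fun c => ∏ p ∈ A, p ∣ 6 * c - 1), ch c := by
    calc ∑ c ∈ CC P Y, ch c = ∑ c ∈ Icc 1 Y, ch c * ∏ p ∈ P, (1 + -(if p ∣ 6 * c - 1 then (1 : ℝ) else 0)) := by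
          unfold CC
          rw [sum_filter]
          apply sum_congr rfl
          intro c _
          split_ifs with h
          · have : ∏ p ∈ P, (1 + -(if p ∣ 6 * c - 1 then (1 : ℝ) else 0)) = 1 := by
              apply prod_eq_one
              intro p hp
              rw [if_neg (h p hp)]
              norm_num
            rw [this, mul_one]
          · push Not at h
            obtain ⟨p, hp, hd⟩ := h
            have : ∏ p ∈ P, (1 + -(if p ∣ 6 * c - 1 then (1 : ℝ) else 0)) = 0 := by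
              apply prod_eq_zero hp
              rw [if_pos hd]
              norm_num
            rw [this, mul_zero]
      _ = ∑ c ∈ Icc 1 Y, ∑ A ∈ P.powerset, (-1 : ℝ) ^ A.card * (if ∏ p ∈ A, p ∣ 6 * c - 1 then ch c else 0) := by
          apply sum_congr rfl
          intro c _
          rw [prod_one_add, mul_sum]
          apply sum_congr rfl
          intro A hA
          rw [mem_powerset] at hA
          have k1 : ∏ p ∈ A, -(if p ∣ 6 * c - 1 then (1 : ℝ) else 0) =
              (-1) ^ A.card * ∏ p ∈ A, (if p ∣ 6 * c - 1 then (1 : ℝ) else 0) := by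
            rw [← prod_const, ← prod_mul_distrib]
            apply prod_congr rfl
            intro p _
            ring
          rw [k1]
          split_ifs with h
          · have : ∏ p ∈ A, (if p ∣ 6 * c - 1 then (1 : ℝ) else 0) = 1 := by
              apply prod_eq_one
              intro p hp
              rw [if_pos ((dvd_prod_of_mem _ hp).trans h)]
            rw [this]
            ring
          · have : ∏ p ∈ A, (if p ∣ 6 * c - 1 then (1 : ℝ) else 0) = 0 := by
              by_contra hne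
              apply h
              apply Finset.prod_primes_dvd _ (fun p hp => (hP p (hA hp)).1.prime)
              intro p hp
              by_contra hd
              apply hne
              apply prod_eq_zero hp
              rw [if_neg hd]
            rw [this]
            ring
      _ = _ := by
          rw [sum_comm]
          apply sum_congr rfl
          intro A _
          rw [← mul_sum, sum_filter]
  have h2 : ∀ A ∈ P.powerset, (if 5 * ∏ p ∈ A, p < 6 * Y ∧ 6 * Y ≤ 7 * ∏ p ∈ A, p then (1 : ℝ) else 0) ≤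
      (-1 : ℝ) ^ A.card * ∑ c ∈ (Icc 1 Y).filter (fun c => ∏ p ∈ A, p ∣ 6 * c - 1), ch c := by
    intro A hA
    rw [mem_powerset] at hA
    obtain ⟨h3, h4⟩ := prod_mod4 A fun p hp => (hP p (hA hp)).2.2
    have h5 : (∏ p ∈ A, p) % 3 ≠ 0 := by
      intro h
      obtain ⟨p, hp, hd⟩ := (Prime.dvd_finset_prod_iff Nat.prime_three.prime _).1 (Nat.dvd_of_mod_eq_zero h)
      have := (Nat.prime_dvd_prime_iff_eq Nat.prime_three (hP p (hA hp)).1).1 hd
      have := (hP p (hA hp)).2.1
      omega
    obtain ⟨c0, k1, k2, k3, k4, k5⟩ := first_col _ h4 h5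
    have k6 : (Icc 1 Y).filter (fun c => ∏ p ∈ A, p ∣ 6 * c - 1) =
        (Icc 1 Y).filter (fun c => c ≡ c0 [MOD ∏ p ∈ A, p]) := by
      apply filter_congr
      intro c hc
      exact k3 c (mem_Icc.1 hc).1
    rw [k6, alt_sum _ c0 h4 k1 k2, k4, h3]
    have k7 : (-1 : ℝ) ^ A.card * (-1) ^ A.card = 1 := by
      rw [← mul_pow]
      norm_num
    by_cases hcond : 5 * ∏ p ∈ A, p < 6 * Y ∧ 6 * Y ≤ 7 * ∏ p ∈ A, p
    · rw [if_pos hcond, k5 Y hcond.1 hcond.2, if_pos (by norm_num), k7]
    · rw [if_neg hcond]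
      split_ifs
      · rw [k7]
        norm_num
      · rw [mul_zero]
  rw [h1, card_filter]
  push_cast
  exact sum_le_sum h2

end Pool.Agent.K9h54.LC
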