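import Pool.Agent.K9h54.LC.Fam
import Pool.Agent.K9h54.LC.Bias

set_option autoImplicit false

/-!
# Residues mod 4 of prime pairs in short windows: the columns keep a positive bias for most distances
-/

namespace Pool.Agent.K9h54.LC

open Finset Filter Topology

open Classical in
theorem cols (k : ℕ) (hk : 100 ≤ k) (ε : ℝ) (hε : 0 < ε) : ∃ κ : ℝ, 0 < κ ∧ ∃ w : ℕ, 7 ≤ w ∧ 1 / ε ≤ w - 2 ∧
    ∃ L₀ : ℕ, w ≤ L₀ ∧ ∀ L : ℕ, L₀ ≤ L →
    ∀ Y : ℕ, L ^ (2 * k + 1) ≤ Y ^ 2 → Y ^ 2 ≤ (L + 1) ^ (2 * k + 1) →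
      (((range (∏ p ∈ PP w L, p)).filter (fun a => ¬ κ * (Y * (∏ p ∈ PP w L, (1 - 1 / (p : ℝ))) ^ 2) ≤
        ∑ c ∈ KL (CC (PP w L) Y) (PP w L) a, ch c)).card : ℝ) ≤ ((∏ p ∈ PP w L, p : ℕ) : ℝ) * ε := by
  obtain ⟨c, hc, hcount⟩ := count_lower k (by omega)
  obtain ⟨L₁, hL₁, hrho⟩ := rho_sum
  -- the choice of `w`
  obtain ⟨w, hw7, hwε, hw⟩ : ∃ w : ℕ, 7 ≤ w ∧ 1 / ε ≤ (w : ℝ) - 2 ∧ 4 * (28 / ((w : ℝ) - 2)) / (c / Real.log w) ^ 2 ≤ ε := by
    have h1 := (Real.isLittleO_pow_log_id_atTop (n := 2)).bound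
      (show (0 : ℝ) < ε * c ^ 2 / 224 by positivity)
    have h2 : ∀ᶠ x : ℝ in atTop, 7 ≤ x ∧ 1 / ε ≤ x - 2 ∧ 4 * (28 / (x - 2)) / (c / Real.log x) ^ 2 ≤ ε := by
      filter_upwards [h1, eventually_ge_atTop (7 : ℝ), eventually_ge_atTop (1 / ε + 2)] with x h3 h4 h5
      refine ⟨h4, by linarith, ?_⟩
      simp only [id] at h3
      have hl : 0 < Real.log x := Real.log_pos (by linarith)
      rw [Real.norm_of_nonneg (by positivity), Real.norm_of_nonneg (by linarith)] at h3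
      have h6 : 0 < x - 2 := by linarith
      rw [div_le_iff₀ (by positivity), div_pow, mul_div_assoc', mul_div_assoc',
        div_le_div_iff₀ h6 (by positivity)]
      nlinarith [sq_nonneg (Real.log x), hε, sq_nonneg c]
    obtain ⟨w, hw⟩ := (tendsto_natCast_atTop_atTop.eventually h2).exists
    exact ⟨w, by exact_mod_cast hw.1, hw.2.1, hw.2.2⟩
  obtain ⟨L₂, hL₂, hcnt⟩ := hcount w hw7
  have hwr : (7 : ℝ) ≤ w := by exact_mod_cast hw7
  have hlw : 0 < Real.log w := Real.log_pos (by linarith)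
  refine ⟨c / Real.log w / 2, by positivity, w, hw7, hwε, max L₁ L₂, hL₂.trans (le_max_right _ _),
    fun L hL Y hY1 hY2 => ?_⟩
  have g1 := hcnt L ((le_max_right _ _).trans hL) Y hY1 hY2
  have hwL : w ≤ L := (hL₂.trans (le_max_right _ _)).trans hL
  have hPP : ∀ p ∈ PP w L, p.Prime ∧ w ≤ p ∧ p ≤ L := fun p hp => by
    rw [mem_PP] at hp
    exact ⟨hp.2.2.1, hp.1, hp.2.1⟩
  have hY100 : L ^ 100 ≤ Y := by
    have h1 : (L ^ 100) ^ 2 ≤ Y ^ 2 := by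
      refine le_trans ?_ hY1
      rw [← pow_mul]
      exact Nat.pow_le_pow_right (by omega) (by omega)
    exact (Nat.pow_le_pow_iff_left (by norm_num)).1 h1
  have g2 := hrho L ((le_max_left _ _).trans hL) w hw7 hwL (PP w L) hPP Y hY100
  have g3 := bias (PP w L) (fun p hp => by
    rw [mem_PP] at hp
    exact ⟨hp.2.2.1, by omega, hp.2.2.2⟩) Y
  have hY0 : (0 : ℝ) < Y := by
    have : 0 < L ^ 100 := Nat.pow_pos (by omega)
    exact_mod_cast lt_of_lt_of_le this hY100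
  have g4 := few_bad (PP w L) (fun p hp => ⟨(hPP p hp).1, by have := (hPP p hp).2.1; omega⟩) (CC (PP w L) Y) ch
    (fun c _ => ch_abs c) (c / Real.log w) Y (28 / ((w : ℝ) - 2)) (by positivity) hY0 (g1.trans g3) g2
  refine g4.trans ?_
  exact mul_le_mul_of_nonneg_left hw (Nat.cast_nonneg _)

end Pool.Agent.K9h54.LC
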