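import Pool.Agent.K9h54.LC.Tot

set_option autoImplicit false

/-!
# Residues mod 4 of prime pairs in short windows: one distance
-/

namespace Pool.Agent.K9h54.LC

open Finset Filter Topology
open Pool.Agent.H373R2.T7 (singZ)
open Pool.Agent.W93.GB (sh)
open Pool.Agent.K9h54.MP (PI PI_pos rows_card)

open scoped ArithmeticFunction.vonMangoldt

theorem ar1 {T1 T0 N1 N0 Xq Y S κ B PIh sz err M3 ℓX ℓN sN F : ℝ}
    (hκ : 0 < κ) (hκ1 : κ ≤ 1) (hY : 0 ≤ Y) (hXq : 0 ≤ Xq) (hS : 1 ≤ S) (hB : 0 < B) (hPI : 0 < PIh)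
    (hs1 : S / 2 ≤ sz) (hs2 : sz ≤ 2 * S) (hb : 1 / 2 ≤ B / PIh) (hM : 1 / (B * PIh) ≤ M3) (hM1 : 1 ≤ M3)
    (herr : err ≤ κ / 16 * Xq) (hℓX : 0 < ℓX) (hℓN : 0 < ℓN) (h4 : ℓN - 4 ≤ ℓX) (h5 : ℓX ≤ ℓN)
    (h6 : ℓN ^ 2 ≤ 2 * ℓX ^ 2) (h7 : 112 * M3 ≤ κ / 16 * ℓN) (hsN : 4 * sN * ℓN ^ 2 ≤ κ / 16 * Xq)
    (hF : κ * (Y * B ^ 2) ≤ F) (hT : F * (3 * Xq / B * (sz / PIh)) - Y * err ≤ T1 - T0)
    (hT0 : T0 ≤ Y * (3 * Xq / B * (sz / PIh) + err)) (hN1 : T1 ≤ ℓN ^ 2 * N1 + 4 * Y * sN * ℓN ^ 2)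
    (hN0 : ℓX ^ 2 * N0 ≤ T0) : κ / 2 * (Xq * Y * S) / ℓN ^ 2 ≤ N1 - N0 := by
  have hsz : 0 < sz := by linarith
  have hM3 : 0 < M3 := by linarith
  have hZ : 0 ≤ Xq * Y * S := by positivity
  have hXYZ : Xq * Y ≤ Xq * Y * S := le_mul_of_one_le_right (by positivity) hS
  have a1 : 3 * κ / 4 * (Xq * Y * S) ≤ F * (3 * Xq / B * (sz / PIh)) := by
    calc 3 * κ / 4 * (Xq * Y * S) = 3 * κ * Xq * Y * (S / 2) * (1 / 2) := by ring
      _ ≤ 3 * κ * Xq * Y * sz * (B / PIh) := by gcongr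
      _ = κ * (Y * B ^ 2) * (3 * Xq / B * (sz / PIh)) := by
          field_simp
      _ ≤ _ := mul_le_mul_of_nonneg_right hF (by positivity)
  have a2 : Y * err ≤ κ / 16 * (Xq * Y * S) := by
    calc Y * err ≤ Y * (κ / 16 * Xq) := mul_le_mul_of_nonneg_left herr hY
      _ = κ / 16 * (Xq * Y) := by ring
      _ ≤ _ := mul_le_mul_of_nonneg_left hXYZ (by positivity)
  have a3 : 11 * κ / 16 * (Xq * Y * S) ≤ T1 - T0 := by linarith
  have a4 : T0 ≤ 7 * M3 * (Xq * Y * S) := by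
    have k1 : 3 * Xq / B * (sz / PIh) ≤ 6 * Xq * S * M3 := by
      calc 3 * Xq / B * (sz / PIh) = 3 * Xq * sz * (1 / (B * PIh)) := by field_simp
        _ ≤ 3 * Xq * (2 * S) * M3 := by gcongr
        _ = _ := by ring
    have k2 := mul_le_mul_of_nonneg_left k1 hY
    have k3 : κ / 16 * (Xq * Y * S) ≤ M3 * (Xq * Y * S) := mul_le_mul_of_nonneg_right (by linarith) hZ
    nlinarith
  have a5 : T1 / ℓN ^ 2 - 4 * Y * sN ≤ N1 := by
    have : T1 / ℓN ^ 2 ≤ N1 + 4 * Y * sN := by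
      rw [div_le_iff₀ (by positivity)]
      linarith
    linarith
  have a6 : N0 ≤ T0 / ℓX ^ 2 := by
    rw [le_div_iff₀ (by positivity)]
    linarith
  have a7 : T0 / ℓX ^ 2 - T0 / ℓN ^ 2 ≤ κ / 16 * (Xq * Y * S) / ℓN ^ 2 := by
    have k1 : 1 / ℓX ^ 2 - 1 / ℓN ^ 2 ≤ 16 / ℓN ^ 3 := by
      have e : 1 / ℓX ^ 2 - 1 / ℓN ^ 2 = (ℓN ^ 2 - ℓX ^ 2) / (ℓX ^ 2 * ℓN ^ 2) := by field_simp
      rw [e, div_le_div_iff₀ (by positivity) (by positivity)]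
      have k2 : ℓN ^ 2 - ℓX ^ 2 ≤ 8 * ℓN := by nlinarith
      calc (ℓN ^ 2 - ℓX ^ 2) * ℓN ^ 3 ≤ 8 * ℓN * ℓN ^ 3 := by gcongr
        _ = 8 * ℓN ^ 2 * ℓN ^ 2 := by ring
        _ ≤ 8 * (2 * ℓX ^ 2) * ℓN ^ 2 := by gcongr
        _ = _ := by ring
    have k3 : 0 ≤ 1 / ℓX ^ 2 - 1 / ℓN ^ 2 := by
      rw [sub_nonneg]
      apply one_div_le_one_div_of_le (by positivity)
      gcongr
    calc T0 / ℓX ^ 2 - T0 / ℓN ^ 2 = T0 * (1 / ℓX ^ 2 - 1 / ℓN ^ 2) := by ring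
      _ ≤ (7 * M3 * (Xq * Y * S)) * (1 / ℓX ^ 2 - 1 / ℓN ^ 2) := mul_le_mul_of_nonneg_right a4 k3
      _ ≤ (7 * M3 * (Xq * Y * S)) * (16 / ℓN ^ 3) := by gcongr
      _ = (112 * M3) * (Xq * Y * S) / ℓN ^ 3 := by ring
      _ ≤ (κ / 16 * ℓN) * (Xq * Y * S) / ℓN ^ 3 := by gcongr
      _ = _ := by field_simp
  have a8 : 4 * Y * sN ≤ κ / 16 * (Xq * Y * S) / ℓN ^ 2 := by
    rw [le_div_iff₀ (by positivity)]
    calc 4 * Y * sN * ℓN ^ 2 = Y * (4 * sN * ℓN ^ 2) := by ring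
      _ ≤ Y * (κ / 16 * Xq) := mul_le_mul_of_nonneg_left hsN hY
      _ = κ / 16 * (Xq * Y) := by ring
      _ ≤ _ := mul_le_mul_of_nonneg_left hXYZ (by positivity)
  have a9 : 11 * κ / 16 * (Xq * Y * S) / ℓN ^ 2 ≤ T1 / ℓN ^ 2 - T0 / ℓN ^ 2 := by
    rw [← sub_div]
    gcongr
  have e1 : κ / 2 * (Xq * Y * S) / ℓN ^ 2 = 8 * (κ / 16 * (Xq * Y * S) / ℓN ^ 2) := by ring
  have e2 : 11 * κ / 16 * (Xq * Y * S) / ℓN ^ 2 = 11 * (κ / 16 * (Xq * Y * S) / ℓN ^ 2) := by ring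
  have a10 : 0 ≤ κ / 16 * (Xq * Y * S) / ℓN ^ 2 := by positivity
  rw [e1]
  rw [e2] at a9
  linarith

/-- pigeonhole -/
theorem pig {U : Finset ℕ} {f : ℕ → ℝ} {Y t r G : ℝ} (hY : 0 < Y) (hf : ∀ u ∈ U, f u ≤ Y) (ht : 0 ≤ t)
    (hU : (U.card : ℝ) ≤ r) (hG : G + r * t ≤ ∑ u ∈ U, f u) : G / Y ≤ ((U.filter (fun u => t ≤ f u)).card : ℝ) := by
  rw [div_le_iff₀ hY]
  have h1 := sum_filter_add_sum_filter_not U (fun u => t ≤ f u) f
  have h2 : ∑ u ∈ U.filter (fun u => t ≤ f u), f u ≤ ((U.filter (fun u => t ≤ f u)).card : ℝ) * Y := by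
    rw [← nsmul_eq_mul, ← sum_const]
    exact sum_le_sum fun u hu => hf u (mem_filter.1 hu).1
  have h3 : ∑ u ∈ U.filter (fun u => ¬ t ≤ f u), f u ≤ r * t := by
    calc ∑ u ∈ U.filter (fun u => ¬ t ≤ f u), f u ≤ ∑ u ∈ U.filter (fun u => ¬ t ≤ f u), t := by
          apply sum_le_sum
          intro u hu
          exact (not_le.1 (mem_filter.1 hu).2).le
      _ = ((U.filter (fun u => ¬ t ≤ f u)).card : ℝ) * t := by rw [sum_const, nsmul_eq_mul]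
      _ ≤ (U.card : ℝ) * t := by
          apply mul_le_mul_of_nonneg_right _ ht
          exact_mod_cast card_filter_le _ _
      _ ≤ _ := mul_le_mul_of_nonneg_right hU ht
  linarith

/-- one distance -/
theorem core2 {P : Finset ℕ} {X Y N a z u₀ : ℕ} {y S κ err M3 : ℝ} (hP : ∀ p ∈ P, p.Prime ∧ 5 ≤ p) (hPX : ∀ p ∈ P, p ≤ X)
    (hX : 2 ≤ X) (ha : a ≤ X) (hN : 18 * X + 6 * Y + 2 ≤ N) (hu₀ : (∏ p ∈ P, p) ∣ u₀)
    (hκ : 0 < κ) (hκ1 : κ ≤ 1) (hY1 : 1 ≤ Y) (hy : y ≤ 2 * Y) (hy0 : 0 ≤ y)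
    (hch : κ * (Y * (∏ p ∈ P, (1 - 1 / (p : ℝ))) ^ 2) ≤ ∑ c ∈ KL (CC P Y) P a, ch c)
    (hS : 1 ≤ S) (hs1 : S / 2 ≤ singZ (sh (6 * a + 2)) z) (hs2 : singZ (sh (6 * a + 2)) z ≤ 2 * S)
    (hb : 1 / 2 ≤ (∏ p ∈ P, (1 - 1 / (p : ℝ))) / PI P (6 * a + 2))
    (hM : 1 / ((∏ p ∈ P, (1 - 1 / (p : ℝ))) * PI P (6 * a + 2)) ≤ M3) (hM1 : 1 ≤ M3)
    (hcol : ∀ c ∈ KL (CC P Y) P a,
      |∑ u ∈ (Ioc X (2 * X)).filter (fun u => u ≡ u₀ [MOD 2 * ∏ p ∈ P, p]),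
            Λ (6 * (u + c) - 1) * Λ (6 * (u + c) - 1 + (6 * a + 2)) -
            (3 * X : ℝ) / (((∏ p ∈ P, p : ℕ) : ℝ) * ∏ p ∈ P, (1 - 1 / (p : ℝ))) *
              (singZ (sh (6 * a + 2)) z / PI P (6 * a + 2))| ≤ err)
    (herr : err ≤ κ / 16 * ((X : ℝ) / (∏ p ∈ P, p : ℕ)))
    (h4 : Real.log N - 4 ≤ Real.log X) (h6 : Real.log N ^ 2 ≤ 2 * Real.log X ^ 2)
    (h7 : 112 * M3 ≤ κ / 16 * Real.log N)
    (hsN : 4 * √(N : ℝ) * Real.log N ^ 2 ≤ κ / 16 * ((X : ℝ) / (∏ p ∈ P, p : ℕ)))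
    (hrow : 2 ≤ (X : ℝ) / (∏ p ∈ P, p : ℕ)) :
    κ / 4 * ((X : ℝ) / (∏ p ∈ P, p : ℕ)) / Real.log N ^ 2 ≤
      (((Ioc X (2 * X)).filter (fun u => u ≡ u₀ [MOD 2 * ∏ p ∈ P, p] ∧
        κ / 96 * (6 * S * y / Real.log X ^ 2) ≤ (prc Y a u 1 : ℝ) - prc Y a u 0)).card : ℝ) := by
  classical
  obtain ⟨q, hq⟩ : ∃ q, q = ∏ p ∈ P, p := ⟨_, rfl⟩
  obtain ⟨B, hBd⟩ : ∃ B : ℝ, B = ∏ p ∈ P, (1 - 1 / (p : ℝ)) := ⟨_, rfl⟩
  rw [← hq] at hu₀ hcol herr hsN hrow ⊢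
  rw [← hBd] at hch hb hM hcol
  have hq0 : 0 < q := by
    rw [hq]
    exact prod_pos fun p hp => (hP p hp).1.pos
  have hqr : (0 : ℝ) < q := by exact_mod_cast hq0
  have hB0 : 0 < B := by
    rw [hBd]
    apply prod_pos
    intro p hp
    have h5 : (5 : ℝ) ≤ p := by exact_mod_cast (hP p hp).2
    rw [sub_pos, div_lt_one (by linarith)]
    linarith
  have hPI := PI_pos P hP (6 * a + 2)
  have hXr : (2 : ℝ) ≤ X := by exact_mod_cast hX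
  have hℓX : 0 < Real.log X := Real.log_pos (by linarith)
  have hXN : (X : ℝ) ≤ N := by
    have : X ≤ N := by omega
    exact_mod_cast this
  have hℓXN : Real.log X ≤ Real.log N := Real.log_le_log (by linarith) hXN
  have hℓN : 0 < Real.log N := by linarith
  have hYr : (1 : ℝ) ≤ Y := by exact_mod_cast hY1
  set UU := (Ioc X (2 * X)).filter (fun u => u ≡ u₀ [MOD 2 * q]) with hUU
  have hUmem : ∀ u ∈ UU, X < u ∧ u ≤ 2 * X ∧ ∀ p ∈ P, p ∣ 6 * u := by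
    intro u hu
    rw [hUU, mem_filter, mem_Ioc] at hu
    refine ⟨hu.1.1, hu.1.2, fun p hp => ?_⟩
    have k1 : p ∣ q := by rw [hq]; exact dvd_prod_of_mem _ hp
    have k2 : u ≡ u₀ [MOD p] := hu.2.of_dvd (k1.trans (Dvd.intro_left 2 rfl))
    have k3 : p ∣ u := (k2.dvd_iff dvd_rfl).2 (k1.trans hu₀)
    exact k3.mul_left 6
  obtain ⟨-, tp1⟩ := tot2 P (fun p hp => (hP p hp).1) X Y N a 1 hX hPX ha hN UU hUmem
  obtain ⟨tp0, -⟩ := tot2 P (fun p hp => (hP p hp).1) X Y N a 0 hX hPX ha hN UU hUmem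
  obtain ⟨Mn, hMn⟩ : ∃ Mn : ℝ, Mn = (3 * X : ℝ) / (q * B) * (singZ (sh (6 * a + 2)) z / PI P (6 * a + 2)) := ⟨_, rfl⟩
  rw [← hMn] at hcol
  obtain ⟨K, hK⟩ : ∃ K, K = KL (CC P Y) P a := ⟨_, rfl⟩
  rw [← hK] at hcol hch tp1 tp0
  obtain ⟨col, hcold⟩ : ∃ col : ℕ → ℝ, col = fun c => ∑ u ∈ UU, Λ (6 * (u + c) - 1) * Λ (6 * (u + c) - 1 + (6 * a + 2)) := ⟨_, rfl⟩
  have hcol' : ∀ c ∈ K, |col c - Mn| ≤ err := by
    rw [hcold]
    exact hcol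
  have hKY : (K.card : ℝ) ≤ Y := by
    have k1 : K ⊆ Icc 1 Y := by
      rw [hK]
      exact (filter_subset _ _).trans (filter_subset _ _)
    have k2 := card_le_card k1
    rw [Nat.card_Icc, Nat.add_sub_cancel] at k2
    exact_mod_cast k2
  have hsz : 0 < singZ (sh (6 * a + 2)) z := by linarith
  have hMn0 : 0 ≤ Mn := by rw [hMn]; positivity
  have herr0 : 0 ≤ err ∨ K = ∅ := by
    rcases K.eq_empty_or_nonempty with h | ⟨c, hc⟩
    · exact Or.inr h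
    · exact Or.inl ((abs_nonneg _).trans (hcol' c hc))
  have hKne : K ≠ ∅ := by
    intro h
    rw [h, sum_empty] at hch
    have : 0 < κ * (Y * B ^ 2) := by positivity
    linarith
  have herr0 : 0 ≤ err := herr0.resolve_right hKne
  obtain ⟨T1, hT1⟩ : ∃ T1, T1 = ∑ c ∈ K.filter (fun c => c % 2 = 1), col c := ⟨_, rfl⟩
  obtain ⟨T0, hT0⟩ : ∃ T0, T0 = ∑ c ∈ K.filter (fun c => c % 2 = 0), col c := ⟨_, rfl⟩
  have eT : ∀ e : ℕ, ∑ u ∈ UU, ∑ c ∈ K.filter (fun c => c % 2 = e),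
      Λ (6 * (u + c) - 1) * Λ (6 * (u + c) - 1 + (6 * a + 2)) = ∑ c ∈ K.filter (fun c => c % 2 = e), col c := by
    intro e
    rw [sum_comm, hcold]
  rw [eT, ← hT1] at tp1
  rw [eT, ← hT0] at tp0
  have hdiff : T1 - T0 = ∑ c ∈ K, ch c * col c := by
    rw [hT1, hT0, sum_filter, sum_filter, ← sum_sub_distrib]
    apply sum_congr rfl
    intro c _
    unfold ch
    have : c % 2 = 0 ∨ c % 2 = 1 := by omega
    rcases this with h | h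
    · rw [if_neg (by omega), if_pos h, if_neg (by omega)]
      ring
    · rw [if_pos h, if_neg (by omega), if_pos h]
      ring
  have hTlow : (∑ c ∈ K, ch c) * Mn - Y * err ≤ T1 - T0 := by
    rw [hdiff]
    have k1 : ∑ c ∈ K, ch c * col c = (∑ c ∈ K, ch c) * Mn + ∑ c ∈ K, ch c * (col c - Mn) := by
      rw [sum_mul, ← sum_add_distrib]
      apply sum_congr rfl
      intro c _
      ring
    have k2 : |∑ c ∈ K, ch c * (col c - Mn)| ≤ Y * err := by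
      refine (abs_sum_le_sum_abs _ _).trans ?_
      calc ∑ c ∈ K, |ch c * (col c - Mn)| ≤ ∑ c ∈ K, err := by
            apply sum_le_sum
            intro c hc
            rw [abs_mul]
            calc |ch c| * |col c - Mn| ≤ 1 * err := mul_le_mul (ch_abs c) (hcol' c hc) (abs_nonneg _) zero_le_one
              _ = err := one_mul _
        _ = K.card * err := by rw [sum_const, nsmul_eq_mul]
        _ ≤ Y * err := mul_le_mul_of_nonneg_right hKY herr0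
    rw [k1]
    have := (abs_le.1 k2).1
    linarith
  have hT0up : T0 ≤ Y * (Mn + err) := by
    rw [hT0]
    calc ∑ c ∈ K.filter (fun c => c % 2 = 0), col c ≤ ∑ c ∈ K.filter (fun c => c % 2 = 0), (Mn + err) := by
          apply sum_le_sum
          intro c hc
          have := (abs_le.1 (hcol' c (mem_filter.1 hc).1)).2
          linarith
      _ = ((K.filter (fun c => c % 2 = 0)).card : ℝ) * (Mn + err) := by rw [sum_const, nsmul_eq_mul]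
      _ ≤ K.card * (Mn + err) := by
          apply mul_le_mul_of_nonneg_right _ (by linarith)
          exact_mod_cast card_filter_le _ _
      _ ≤ _ := mul_le_mul_of_nonneg_right hKY (by linarith)
  have hMn2 : Mn = 3 * ((X : ℝ) / q) / B * (singZ (sh (6 * a + 2)) z / PI P (6 * a + 2)) := by
    rw [hMn]
    field_simp
  rw [hMn2] at hTlow hT0up
  have key := ar1 (N1 := ∑ u ∈ UU, (prc Y a u 1 : ℝ)) (N0 := ∑ u ∈ UU, (prc Y a u 0 : ℝ)) hκ hκ1 (by linarith : (0 : ℝ) ≤ Y)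
    (by positivity : 0 ≤ (X : ℝ) / q) hS hB0 hPI hs1 hs2 hb hM hM1 herr hℓX hℓN h4 hℓXN h6 h7 hsN hch hTlow hT0up tp1 tp0
  rw [← sum_sub_distrib] at key
  -- the rows
  obtain ⟨-, c2⟩ := rows_card X (2 * q) u₀ (by omega)
  have hrows : (UU.card : ℝ) ≤ (X : ℝ) / q := by
    refine c2.trans ?_
    have : (X : ℝ) / ((2 * q : ℕ) : ℝ) = (X : ℝ) / q / 2 := by
      push_cast
      field_simp
    rw [this]
    linarith
  have hp := pig (U := UU) (f := fun u => (prc Y a u 1 : ℝ) - prc Y a u 0) (Y := Y) (t := κ / 96 * (6 * S * y / Real.log X ^ 2))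
    (r := (X : ℝ) / q) (G := κ / 4 * ((X : ℝ) / q * Y * S) / Real.log N ^ 2) (by linarith) (by
      intro u _
      have k1 : (prc Y a u 1 : ℝ) ≤ Y := by exact_mod_cast prc_le Y a u 1
      have k2 : (0 : ℝ) ≤ prc Y a u 0 := Nat.cast_nonneg _
      linarith) (by positivity) hrows (by
      refine le_trans ?_ key
      have k1 : (X : ℝ) / q * (κ / 96 * (6 * S * y / Real.log X ^ 2)) ≤ κ / 4 * ((X : ℝ) / q * Y * S) / Real.log N ^ 2 := by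
        rw [le_div_iff₀ (by positivity)]
        calc (X : ℝ) / q * (κ / 96 * (6 * S * y / Real.log X ^ 2)) * Real.log N ^ 2 ≤
              (X : ℝ) / q * (κ / 96 * (6 * S * (2 * Y) / Real.log X ^ 2)) * (2 * Real.log X ^ 2) := by gcongr
          _ = κ / 4 * ((X : ℝ) / q * Y * S) := by
              field_simp
              ring
      have k2 : κ / 2 * ((X : ℝ) / q * Y * S) / Real.log N ^ 2 = κ / 4 * ((X : ℝ) / q * Y * S) / Real.log N ^ 2 +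
          κ / 4 * ((X : ℝ) / q * Y * S) / Real.log N ^ 2 := by ring
      rw [k2]
      linarith)
  have e1 : κ / 4 * ((X : ℝ) / q) / Real.log N ^ 2 ≤ κ / 4 * ((X : ℝ) / q * Y * S) / Real.log N ^ 2 / Y := by
    have : κ / 4 * ((X : ℝ) / q * Y * S) / Real.log N ^ 2 / Y = κ / 4 * ((X : ℝ) / q) / Real.log N ^ 2 * S := by
      field_simp
    rw [this]
    exact le_mul_of_one_le_right (by positivity) hS
  refine e1.trans (hp.trans (le_of_eq ?_))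
  rw [hUU, filter_filter]

end Pool.Agent.K9h54.LC
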