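import Pool.Agent.K9h54.LC.Mt

set_option autoImplicit false

/-!
# Residues mod 4 of prime pairs in short windows: many products of primes of a given size
-/

namespace Pool.Agent.K9h54.LC

open Finset Filter Topology

/-- adding a prime is injective -/
theorem fam_inj (𝓕 : Finset (Finset ℕ)) (R : Finset ℕ → Finset ℕ)
    (h : ∀ F ∈ 𝓕, ∀ p ∈ R F, ∀ F' ∈ 𝓕, p ∉ F') :
    Set.InjOn (fun x : (Σ _ : Finset ℕ, ℕ) => insert x.2 x.1) (𝓕.sigma R) := by
  rintro ⟨F, p⟩ hx ⟨F', p'⟩ hx' he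
  simp only [coe_sigma, Set.mem_sigma_iff, mem_coe] at hx hx'
  simp only at he
  have h1 : p = p' := by
    have k : p ∈ insert p' F' := by rw [← he]; exact mem_insert_self _ _
    rcases mem_insert.1 k with k | k
    · exact k
    · exact absurd k (h F hx.1 p hx.2 F' hx'.1)
  subst h1
  have h2 : F = F' := by
    have k1 := erase_insert (h F hx.1 p hx.2 F hx.1)
    have k2 := erase_insert (h F hx.1 p hx.2 F' hx'.1)
    rw [← k1, he, k2]
  subst h2
  rfl

theorem fam_iter (k : ℕ) (hk : 1 ≤ k) : ∃ ℓ₀ : ℝ, ∀ w L : ℕ, 7 ≤ w → ℓ₀ ≤ Real.log L → 128 * Real.log w ≤ Real.log L →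
    ∀ i : ℕ, i ≤ k → ∃ 𝓕 : Finset (Finset ℕ), (∀ F ∈ 𝓕, F ⊆ PP w L ∧
      (∀ p ∈ F, 128 * Real.log (p : ℝ) ≤ Real.log L ∨ ((1 - 1 / (8 * k)) * Real.log L ≤ Real.log (p : ℝ) ∧
        Real.log (p : ℝ) < (1 - 1 / (8 * k) + i * (1 / (8 * k ^ 2))) * Real.log L)) ∧
      i * ((1 - 1 / (8 * k)) * Real.log L) ≤ ∑ p ∈ F, Real.log (p : ℝ) ∧
      ∑ p ∈ F, Real.log (p : ℝ) ≤ Real.log L / 8 + i * Real.log L) ∧
      1 / 2 * (∏ p ∈ (PP w L).filter (fun p : ℕ => 128 * Real.log (p : ℝ) ≤ Real.log L), (1 + 1 / (p : ℝ))) *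
        (1 / (8 * k ^ 2) / 28) ^ i ≤ ∑ F ∈ 𝓕, ∏ p ∈ F, (1 / (p : ℝ)) := by
  classical
  obtain ⟨ℓ₁, hℓ₁, hm⟩ := half_mass
  obtain ⟨a₀, ha₀, hr⟩ := range_sum
  have hkr : (1 : ℝ) ≤ k := by exact_mod_cast hk
  have hγ : 0 < 1 / (8 * (k : ℝ) ^ 2) := by positivity
  refine ⟨max (128 * ℓ₁) (max (2 * a₀) (8 * (k : ℝ) ^ 2)), fun w L hw hL hwL => ?_⟩
  obtain ⟨ℓ, hℓ⟩ : ∃ ℓ, ℓ = Real.log L := ⟨_, rfl⟩
  rw [← hℓ] at hL hwL ⊢
  have hL1 : 128 * ℓ₁ ≤ ℓ := (le_max_left _ _).trans hL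
  have hL2 : 2 * a₀ ≤ ℓ := ((le_max_left _ _).trans (le_max_right _ _)).trans hL
  have hL3 : 8 * (k : ℝ) ^ 2 ≤ ℓ := ((le_max_right _ _).trans (le_max_right _ _)).trans hL
  have hℓ0 : 0 < ℓ := by linarith
  have hL0 : (0 : ℝ) < L := by
    by_contra hcon
    have : (L : ℝ) = 0 := le_antisymm (not_lt.1 hcon) (Nat.cast_nonneg _)
    rw [this, Real.log_zero] at hℓ
    linarith
  have hk8 : 1 / (8 * (k : ℝ)) ≤ 1 / 8 := one_div_le_one_div_of_le (by norm_num) (by linarith)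
  have hk80 : 0 < 1 / (8 * (k : ℝ)) := by positivity
  intro i
  induction i with
  | zero =>
    intro _
    have h1 := hm (ℓ / 128) (ℓ / 8) (by linarith) (by linarith)
      ((PP w L).filter (fun p : ℕ => 128 * Real.log (p : ℝ) ≤ ℓ)) (fun p hp => by
        rw [mem_filter, mem_PP] at hp
        exact ⟨hp.1.2.2.1, by linarith [hp.2]⟩) (fun p => 1 / (p : ℝ)) (fun p hp => by
        rw [mem_filter, mem_PP] at hp
        have : (0 : ℝ) < p := by exact_mod_cast hp.1.2.2.1.pos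
        exact ⟨by positivity, by gcongr; norm_num⟩)
    refine ⟨(((PP w L).filter (fun p : ℕ => 128 * Real.log (p : ℝ) ≤ ℓ)).powerset).filter
      (fun A : Finset ℕ => ∑ p ∈ A, Real.log (p : ℝ) ≤ ℓ / 8), ?_, ?_⟩
    · intro F hF
      rw [mem_filter, mem_powerset] at hF
      refine ⟨hF.1.trans (filter_subset _ _), fun p hp => Or.inl (mem_filter.1 (hF.1 hp)).2, ?_, ?_⟩
      · rw [Nat.cast_zero, zero_mul]
        exact sum_nonneg fun p _ => Real.log_natCast_nonneg p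
      · rw [Nat.cast_zero, zero_mul, add_zero]
        exact hF.2
    · rw [pow_zero, mul_one]
      exact h1
  | succ i ih =>
    intro hi
    obtain ⟨𝓕, h1, h2⟩ := ih (by omega)
    obtain ⟨R, hR⟩ : ∃ R, R = (PP w L).filter (fun p : ℕ => (1 - 1 / (8 * (k : ℝ)) + i * (1 / (8 * (k : ℝ) ^ 2))) * ℓ ≤ Real.log (p : ℝ) ∧
      Real.log (p : ℝ) < (1 - 1 / (8 * (k : ℝ)) + ((i + 1 : ℕ) : ℝ) * (1 / (8 * (k : ℝ) ^ 2))) * ℓ) := ⟨_, rfl⟩
    have hik : ((i + 1 : ℕ) : ℝ) ≤ k := by exact_mod_cast hi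
    have hi0 : (0 : ℝ) ≤ i := Nat.cast_nonneg _
    have htop : 1 - 1 / (8 * (k : ℝ)) + ((i + 1 : ℕ) : ℝ) * (1 / (8 * (k : ℝ) ^ 2)) ≤ 1 := by
      have e : (k : ℝ) * (1 / (8 * (k : ℝ) ^ 2)) = 1 / (8 * (k : ℝ)) := by field_simp
      have := mul_le_mul_of_nonneg_right hik hγ.le
      linarith
    have hbot : 7 / 8 ≤ 1 - 1 / (8 * (k : ℝ)) + i * (1 / (8 * (k : ℝ) ^ 2)) := by
      have : 0 ≤ (i : ℝ) * (1 / (8 * (k : ℝ) ^ 2)) := by positivity
      linarith
    have hbotl : 7 / 8 * ℓ ≤ (1 - 1 / (8 * (k : ℝ)) + i * (1 / (8 * (k : ℝ) ^ 2))) * ℓ :=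
      mul_le_mul_of_nonneg_right hbot hℓ0.le
    have hRsum : 1 / (8 * (k : ℝ) ^ 2) / 28 ≤ ∑ p ∈ R, 1 / (p : ℝ) := by
      have h3 := hr ((1 - 1 / (8 * (k : ℝ)) + i * (1 / (8 * (k : ℝ) ^ 2))) * ℓ)
        ((1 - 1 / (8 * (k : ℝ)) + ((i + 1 : ℕ) : ℝ) * (1 / (8 * (k : ℝ) ^ 2))) * ℓ) (by linarith) (by
          apply mul_le_mul_of_nonneg_right _ hℓ0.le
          push_cast
          linarith) R (by
          intro p hp hp4 k1 k2
          have hp0 : (0 : ℝ) < p := by exact_mod_cast hp.pos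
          rw [hR, mem_filter, mem_PP]
          refine ⟨⟨?_, ?_, hp, hp4⟩, k1, k2⟩
          · have hw0 : (0 : ℝ) < w := by exact_mod_cast (by omega : 0 < w)
            have : Real.log w ≤ Real.log p := by
              have : 0 ≤ Real.log w := Real.log_natCast_nonneg w
              linarith
            exact_mod_cast (Real.log_le_log_iff hw0 hp0).1 this
          · have : Real.log p ≤ Real.log L := by
              rw [← hℓ]
              nlinarith
            exact_mod_cast (Real.log_le_log_iff hp0 hL0).1 this)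
      refine le_trans ?_ h3
      obtain ⟨b, hb⟩ : ∃ b, b = (1 - 1 / (8 * (k : ℝ)) + ((i + 1 : ℕ) : ℝ) * (1 / (8 * (k : ℝ) ^ 2))) * ℓ := ⟨_, rfl⟩
      have e1 : (1 - 1 / (8 * (k : ℝ)) + ((i + 1 : ℕ) : ℝ) * (1 / (8 * (k : ℝ) ^ 2))) * ℓ -
          (1 - 1 / (8 * (k : ℝ)) + i * (1 / (8 * (k : ℝ) ^ 2))) * ℓ = 1 / (8 * (k : ℝ) ^ 2) * ℓ := by
        push_cast
        ring
      rw [e1, ← hb]
      have hbl : b ≤ ℓ := by
        rw [hb]
        nlinarith
      have hb0 : 0 < b := by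
        rw [hb]
        apply mul_pos _ hℓ0
        push_cast
        linarith
      have hγℓ : 1 ≤ 1 / (8 * (k : ℝ) ^ 2) * ℓ := by
        rw [one_div, inv_mul_eq_div, le_div_iff₀ (by positivity), one_mul]
        exact hL3
      rw [div_le_div_iff₀ (by norm_num) (by positivity)]
      nlinarith
    have hdisj : ∀ F ∈ 𝓕, ∀ p ∈ R, ∀ F' ∈ 𝓕, p ∉ F' := by
      intro F _ p hp F' hF' hpF
      rw [hR, mem_filter] at hp
      rcases (h1 F' hF').2.1 p hpF with h | h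
      · linarith [hp.2.1]
      · linarith [hp.2.1, h.2]
    have hinj := fam_inj 𝓕 (fun _ => R) hdisj
    refine ⟨(𝓕.sigma (fun _ => R)).image (fun x => insert x.2 x.1), ?_, ?_⟩
    · intro G hG
      rw [mem_image] at hG
      obtain ⟨⟨F, p⟩, hx, rfl⟩ := hG
      rw [mem_sigma] at hx
      simp only at hx ⊢
      obtain ⟨hF, hp⟩ := hx
      have hpF := hdisj F hF p hp F hF
      obtain ⟨k1, k2, k3, k4⟩ := h1 F hF
      rw [hR, mem_filter] at hp
      have hi1 : (i : ℝ) * (1 / (8 * (k : ℝ) ^ 2)) ≤ ((i + 1 : ℕ) : ℝ) * (1 / (8 * (k : ℝ) ^ 2)) := by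
        push_cast
        linarith
      refine ⟨insert_subset hp.1 k1, ?_, ?_, ?_⟩
      · intro p' hp'
        rw [mem_insert] at hp'
        rcases hp' with rfl | hp'
        · right
          refine ⟨le_trans ?_ hp.2.1, hp.2.2⟩
          apply mul_le_mul_of_nonneg_right _ hℓ0.le
          have : 0 ≤ (i : ℝ) * (1 / (8 * (k : ℝ) ^ 2)) := by positivity
          linarith
        · rcases k2 p' hp' with h | h
          · left
            exact h
          · right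
            refine ⟨h.1, h.2.trans_le ?_⟩
            apply mul_le_mul_of_nonneg_right _ hℓ0.le
            linarith
      · rw [sum_insert hpF]
        push_cast
        have k5 : (1 - 1 / (8 * (k : ℝ))) * ℓ ≤ Real.log (p : ℝ) := by
          refine le_trans ?_ hp.2.1
          apply mul_le_mul_of_nonneg_right _ hℓ0.le
          have : 0 ≤ (i : ℝ) * (1 / (8 * (k : ℝ) ^ 2)) := by positivity
          linarith
        linarith
      · rw [sum_insert hpF]
        push_cast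
        have k5 : Real.log (p : ℝ) ≤ ℓ := by
          refine hp.2.2.le.trans ?_
          nlinarith
        linarith
    · rw [sum_image hinj, sum_sigma]
      have h3 : ∑ F ∈ 𝓕, ∑ p ∈ R, ∏ p' ∈ insert p F, (1 / (p' : ℝ)) = (∑ F ∈ 𝓕, ∏ p ∈ F, (1 / (p : ℝ))) * ∑ p ∈ R, 1 / (p : ℝ) := by
        rw [sum_mul_sum]
        apply sum_congr rfl
        intro F hF
        apply sum_congr rfl
        intro p hp
        rw [prod_insert (hdisj F hF p hp F hF), mul_comm]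
      rw [h3, pow_succ, ← mul_assoc]
      have h4 : 0 ≤ ∑ F ∈ 𝓕, ∏ p ∈ F, (1 / (p : ℝ)) := sum_nonneg fun F _ => prod_nonneg fun p _ => by positivity
      exact mul_le_mul h2 hRsum (by positivity) h4

/-- many products of primes `≡ 3 (mod 4)` near `Y` -/
theorem count_lower (k : ℕ) (hk : 1 ≤ k) : ∃ c : ℝ, 0 < c ∧ ∀ w : ℕ, 7 ≤ w → ∃ L₀ : ℕ, w ≤ L₀ ∧ ∀ L : ℕ, L₀ ≤ L →
    ∀ Y : ℕ, L ^ (2 * k + 1) ≤ Y ^ 2 → Y ^ 2 ≤ (L + 1) ^ (2 * k + 1) →
      c / Real.log w * (Y * ∏ p ∈ PP w L, (1 - 1 / (p : ℝ))) ≤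
        (((PP w L).powerset.filter (fun A => 5 * ∏ p ∈ A, p < 6 * Y ∧ 6 * Y ≤ 7 * ∏ p ∈ A, p)).card : ℝ) := by
  classical
  obtain ⟨c₁, hc₁, hmass⟩ := mass
  obtain ⟨ℓ₀, hfam⟩ := fam_iter k hk
  obtain ⟨T₀, hT₀, hbl⟩ := block
  have hlog : Tendsto (fun n : ℕ => Real.log (n : ℝ)) atTop atTop := Real.tendsto_log_atTop.comp tendsto_natCast_atTop_atTop
  have hkr : (1 : ℝ) ≤ k := by exact_mod_cast hk
  refine ⟨1 / 2 * (1 / (8 * (k : ℝ) ^ 2) / 28) ^ k * c₁ * (3 / 70), by positivity, fun w hw => ?_⟩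
  obtain ⟨L₁, hL₁, hm⟩ := hmass w hw
  obtain ⟨n1, hn1⟩ := eventually_atTop.1 (hlog.eventually_ge_atTop (max (max ℓ₀ (128 * Real.log w))
    (max (4 * Real.log T₀) (max (64 * (k + 1)) 1000))))
  refine ⟨max L₁ n1, hL₁.trans (le_max_left _ _), fun L hL Y hY1 hY2 => ?_⟩
  have g1 := hm L ((le_max_left _ _).trans hL)
  have g2 := hn1 L ((le_max_right _ _).trans hL)
  obtain ⟨ℓ, hℓ⟩ : ∃ ℓ, ℓ = Real.log L := ⟨_, rfl⟩
  rw [← hℓ] at g2
  have l1 : ℓ₀ ≤ ℓ := ((le_max_left _ _).trans (le_max_left _ _)).trans g2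
  have l2 : 128 * Real.log w ≤ ℓ := ((le_max_right _ _).trans (le_max_left _ _)).trans g2
  have l3 : 4 * Real.log T₀ ≤ ℓ := ((le_max_left _ _).trans (le_max_right _ _)).trans g2
  have l4 : 64 * ((k : ℝ) + 1) ≤ ℓ := (((le_max_left _ _).trans (le_max_right _ _)).trans (le_max_right _ _)).trans g2
  have l5 : 1000 ≤ ℓ := (((le_max_right _ _).trans (le_max_right _ _)).trans (le_max_right _ _)).trans g2
  obtain ⟨𝓕, f1, f2⟩ := hfam w L hw (by rw [← hℓ]; exact l1) (by rw [← hℓ]; exact l2) k le_rfl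
  rw [← hℓ] at f1 f2 g1
  have hL0 : (0 : ℝ) < L := by
    have : 0 < L := by omega
    exact_mod_cast this
  have hL1 : (1 : ℝ) ≤ L := by
    have : 1 ≤ L := by omega
    exact_mod_cast this
  have hY0 : 0 < Y := by
    rcases Nat.eq_zero_or_pos Y with h | h
    · exfalso
      rw [h] at hY1
      have : 0 < L ^ (2 * k + 1) := Nat.pow_pos (by omega)
      simp at hY1
      omega
    · exact h
  have hYr : (0 : ℝ) < Y := by exact_mod_cast hY0
  -- the size of `Y`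
  have y1 : (k + 1 / 2) * ℓ ≤ Real.log Y := by
    have h1 : ((L : ℝ)) ^ (2 * k + 1) ≤ (Y : ℝ) ^ 2 := by exact_mod_cast hY1
    have h2 := Real.log_le_log (by positivity) h1
    rw [Real.log_pow, Real.log_pow, ← hℓ] at h2
    push_cast at h2
    linarith
  have y2 : Real.log Y ≤ (k + 1 / 2) * ℓ + (k + 1) := by
    have h1 : (Y : ℝ) ^ 2 ≤ (2 * (L : ℝ)) ^ (2 * k + 1) := by
      have k1 : (Y : ℝ) ^ 2 ≤ ((L : ℝ) + 1) ^ (2 * k + 1) := by exact_mod_cast hY2
      refine k1.trans ?_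
      gcongr
      linarith
    have h2 := Real.log_le_log (by positivity) h1
    rw [Real.log_pow, Real.log_pow, Real.log_mul (by norm_num) hL0.ne', ← hℓ] at h2
    push_cast at h2
    have h3 : Real.log 2 ≤ 1 := by
      have := Real.log_two_lt_d9
      linarith
    nlinarith
  have e67 : -1 ≤ Real.log (6 / 7 : ℝ) ∧ Real.log (6 / 7 : ℝ) ≤ 0 := by
    constructor
    · rw [show (6 / 7 : ℝ) = (7 / 6)⁻¹ by norm_num, Real.log_inv]
      have := Real.log_le_sub_one_of_pos (show (0 : ℝ) < 7 / 6 by norm_num)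
      linarith
    · exact Real.log_nonpos (by norm_num) (by norm_num)
  have e75 : Real.log (7 / 5 : ℝ) ≤ 1 := by
    have := Real.log_le_sub_one_of_pos (show (0 : ℝ) < 7 / 5 by norm_num)
    linarith
  -- the last prime
  obtain ⟨TT, hTT⟩ : ∃ TT : Finset ℕ → ℝ, TT = fun F : Finset ℕ => 6 / 7 * (Y : ℝ) * ∏ p ∈ F, (1 / (p : ℝ)) := ⟨_, rfl⟩
  have hsz : ∀ F ∈ 𝓕, 0 < ∏ p ∈ F, (1 / (p : ℝ)) ∧ 0 < TT F ∧ ℓ / 4 ≤ Real.log (TT F) ∧ Real.log (TT F) + 1 ≤ 7 / 8 * ℓ := by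
    intro F hF
    obtain ⟨a1, a2, a3, a4⟩ := f1 F hF
    have hp : 0 < ∏ p ∈ F, (1 / (p : ℝ)) := prod_pos fun p hp => by
      have := (mem_PP.1 (a1 hp)).2.2.1.pos
      have : (0 : ℝ) < p := by exact_mod_cast this
      positivity
    have hlogF : Real.log (TT F) = Real.log (6 / 7) + Real.log Y - ∑ p ∈ F, Real.log (p : ℝ) := by
      rw [hTT]
      simp only
      rw [Real.log_mul (by positivity) hp.ne', Real.log_mul (by norm_num) hYr.ne', Real.log_prod (fun p hp => by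
        have := (mem_PP.1 (a1 hp)).2.2.1.pos
        have : (0 : ℝ) < p := by exact_mod_cast this
        positivity)]
      simp only [one_div, Real.log_inv, sum_neg_distrib]
      ring
    have e1 : (k : ℝ) * ((1 - 1 / (8 * (k : ℝ))) * ℓ) = k * ℓ - 1 / 8 * ℓ := by
      field_simp
    rw [e1] at a3
    refine ⟨hp, by rw [hTT]; positivity, ?_, ?_⟩
    · rw [hlogF]
      linarith [e67.1]
    · rw [hlogF]
      linarith [e67.2]
  have hdisj : ∀ F ∈ 𝓕, ∀ p ∈ Bl (TT F), ∀ F' ∈ 𝓕, p ∉ F' := by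
    intro F hF p hp F' hF' hpF
    obtain ⟨s1, s2, s3, s4⟩ := hsz F hF
    rw [mem_Bl] at hp
    have hp0 : (0 : ℝ) < p := by exact_mod_cast hp.1.pos
    have h1 : Real.log (TT F) ≤ Real.log p := Real.log_le_log s2 hp.2.2.1
    have h2 : Real.log p ≤ Real.log (TT F) + 1 := by
      have := Real.log_le_log hp0 hp.2.2.2.le
      rw [show 7 * TT F / 5 = 7 / 5 * TT F by ring, Real.log_mul (by norm_num) s2.ne'] at this
      linarith
    rcases (f1 F' hF').2.1 p hpF with h | h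
    · linarith
    · have hk8 : 1 / (8 * (k : ℝ)) ≤ 1 / 8 := one_div_le_one_div_of_le (by norm_num) (by linarith)
      have h3 : 7 / 8 * ℓ ≤ Real.log p := by
        refine le_trans ?_ h.1
        apply mul_le_mul_of_nonneg_right _ (by linarith)
        linarith
      have h4 : Real.log p < Real.log (TT F) + 1 := by
        have := Real.log_lt_log hp0 hp.2.2.2
        rw [show 7 * TT F / 5 = 7 / 5 * TT F by ring, Real.log_mul (by norm_num) s2.ne'] at this
        linarith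
      linarith
  have hinj := fam_inj 𝓕 (fun F => Bl (TT F)) hdisj
  have hsub : (𝓕.sigma (fun F => Bl (TT F))).image (fun x => insert x.2 x.1) ⊆
      (PP w L).powerset.filter (fun A => 5 * ∏ p ∈ A, p < 6 * Y ∧ 6 * Y ≤ 7 * ∏ p ∈ A, p) := by
    intro G hG
    rw [mem_image] at hG
    obtain ⟨⟨F, p⟩, hx, rfl⟩ := hG
    rw [mem_sigma] at hx
    simp only at hx ⊢
    obtain ⟨hF, hp⟩ := hx
    have hpF := hdisj F hF p hp F hF
    obtain ⟨s1, s2, s3, s4⟩ := hsz F hF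
    obtain ⟨a1, -, -, -⟩ := f1 F hF
    rw [mem_Bl] at hp
    obtain ⟨b1, b2, b3, b4⟩ := hp
    have hp0 : (0 : ℝ) < p := by exact_mod_cast b1.pos
    rw [mem_filter, mem_powerset]
    refine ⟨insert_subset ?_ a1, ?_⟩
    · rw [mem_PP]
      have h1 : Real.log (TT F) ≤ Real.log p := Real.log_le_log s2 b3
      have h2 : Real.log p ≤ Real.log (TT F) + 1 := by
        have := Real.log_le_log hp0 b4.le
        rw [show 7 * TT F / 5 = 7 / 5 * TT F by ring, Real.log_mul (by norm_num) s2.ne'] at this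
        linarith
      refine ⟨?_, ?_, b1, b2⟩
      · have hw0 : (0 : ℝ) < w := by exact_mod_cast (by omega : 0 < w)
        have : Real.log w ≤ Real.log p := by
          have : 0 ≤ Real.log w := Real.log_natCast_nonneg w
          linarith
        exact_mod_cast (Real.log_le_log_iff hw0 hp0).1 this
      · have : Real.log p ≤ Real.log L := by
          rw [← hℓ]
          linarith
        exact_mod_cast (Real.log_le_log_iff hp0 hL0).1 this
    · rw [prod_insert hpF]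
      have hm : ((∏ p ∈ F, p : ℕ) : ℝ) * ∏ p ∈ F, (1 / (p : ℝ)) = 1 := by
        push_cast
        rw [← prod_mul_distrib]
        apply prod_eq_one
        intro p' hp'
        have : (0 : ℝ) < p' := by exact_mod_cast (mem_PP.1 (a1 hp')).2.2.1.pos
        field_simp
      have hm0 : (0 : ℝ) < ((∏ p ∈ F, p : ℕ) : ℝ) := by
        exact_mod_cast prod_pos fun p' hp' => (mem_PP.1 (a1 hp')).2.2.1.pos
      have hTm : TT F * ((∏ p ∈ F, p : ℕ) : ℝ) = 6 / 7 * Y := by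
        rw [hTT]
        simp only
        calc 6 / 7 * (Y : ℝ) * (∏ p ∈ F, (1 / (p : ℝ))) * ((∏ p ∈ F, p : ℕ) : ℝ) =
              6 / 7 * (Y : ℝ) * (((∏ p ∈ F, p : ℕ) : ℝ) * ∏ p ∈ F, (1 / (p : ℝ))) := by ring
          _ = _ := by rw [hm, mul_one]
      constructor
      · have h1 := mul_lt_mul_of_pos_right b4 hm0
        have h2 : 5 * ((p : ℝ) * ((∏ p ∈ F, p : ℕ) : ℝ)) < 6 * Y := by
          have e : 7 * TT F / 5 * ((∏ p ∈ F, p : ℕ) : ℝ) = 7 / 5 * (TT F * ((∏ p ∈ F, p : ℕ) : ℝ)) := by ring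
          rw [e, hTm] at h1
          linarith
        exact_mod_cast h2
      · have h1 := mul_le_mul_of_nonneg_right b3 hm0.le
        have h2 : (6 * Y : ℝ) ≤ 7 * ((p : ℝ) * ((∏ p ∈ F, p : ℕ) : ℝ)) := by
          rw [hTm] at h1
          linarith
        exact_mod_cast h2
  have hcard : (((𝓕.sigma (fun F => Bl (TT F))).image (fun x => insert x.2 x.1)).card : ℝ) ≤
      (((PP w L).powerset.filter (fun A => 5 * ∏ p ∈ A, p < 6 * Y ∧ 6 * Y ≤ 7 * ∏ p ∈ A, p)).card : ℝ) := by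
    exact_mod_cast card_le_card hsub
  refine le_trans ?_ hcard
  rw [card_image_of_injOn hinj, card_sigma]
  push_cast
  have h1 : ∀ F ∈ 𝓕, 3 / 70 * Y / ℓ * ∏ p ∈ F, (1 / (p : ℝ)) ≤ ((Bl (TT F)).card : ℝ) := by
    intro F hF
    obtain ⟨s1, s2, s3, s4⟩ := hsz F hF
    have hT : T₀ ≤ TT F := by
      have hT0 : 0 < T₀ := by linarith
      rw [← Real.log_le_log_iff hT0 s2]
      linarith
    refine le_trans ?_ (hbl (TT F) hT)
    have hlT : 0 < Real.log (TT F) := by linarith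
    have hlT2 : Real.log (TT F) ≤ ℓ := by linarith
    calc 3 / 70 * Y / ℓ * ∏ p ∈ F, (1 / (p : ℝ)) = TT F / (20 * ℓ) := by
          rw [hTT]
          simp only
          field_simp
          ring
      _ ≤ TT F / (20 * Real.log (TT F)) := by gcongr
  refine le_trans ?_ (sum_le_sum h1)
  rw [← mul_sum]
  have hlw : 0 < Real.log w := Real.log_pos (by exact_mod_cast (by omega : 1 < w))
  have hℓ0 : 0 < ℓ := by linarith
  have h2 : 3 / 70 * Y / ℓ * (1 / 2 * (c₁ * (ℓ / Real.log w) * ∏ p ∈ PP w L, (1 - 1 / (p : ℝ))) *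
      (1 / (8 * (k : ℝ) ^ 2) / 28) ^ k) ≤ 3 / 70 * Y / ℓ * ∑ F ∈ 𝓕, ∏ p ∈ F, (1 / (p : ℝ)) := by
    apply mul_le_mul_of_nonneg_left _ (by positivity)
    refine le_trans ?_ f2
    apply mul_le_mul_of_nonneg_right _ (by positivity)
    apply mul_le_mul_of_nonneg_left _ (by norm_num)
    exact g1
  refine le_trans (le_of_eq ?_) h2
  field_simp

end Pool.Agent.K9h54.LC
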