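import Mathlib

set_option autoImplicit false

/-!
# Residues mod 4 of prime pairs in short windows: consecutive elements
-/

namespace Pool.Agent.K9h54.LC

open Finset

/-- a class with two elements more than the other one has two consecutive elements -/
theorem consec (S : Finset ℕ) (A B : Finset ℕ) (hA : A ⊆ S) (hS : ∀ s ∈ S, s ∈ A ∨ s ∈ B) (hAB : B.card + 2 ≤ A.card) :
    ∃ a ∈ A, ∃ a' ∈ A, a < a' ∧ ∀ r ∈ S, a < r → ¬ r < a' := by
  classical
  by_contra hcon
  push Not at hcon
  have hne : A.Nonempty := by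
    rw [← card_pos]
    omega
  obtain ⟨M, hM⟩ : ∃ M, M = A.max' hne := ⟨_, rfl⟩
  have hMA : M ∈ A := by rw [hM]; exact max'_mem _ _
  have hnext : ∀ a ∈ A.erase M, ∃ b ∈ B, a < b ∧ ∀ r ∈ S, a < r → b ≤ r := by
    intro a ha
    rw [mem_erase] at ha
    have haM : a < M := lt_of_le_of_ne (by rw [hM]; exact le_max' _ _ ha.2) ha.1
    have hne' : (S.filter (fun s => a < s)).Nonempty := ⟨M, mem_filter.2 ⟨hA hMA, haM⟩⟩
    obtain ⟨b, hb⟩ : ∃ b, b = (S.filter (fun s => a < s)).min' hne' := ⟨_, rfl⟩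
    have hbm : b ∈ S.filter (fun s => a < s) := by rw [hb]; exact min'_mem _ _
    rw [mem_filter] at hbm
    have hmin : ∀ r ∈ S, a < r → b ≤ r := by
      intro r hr har
      rw [hb]
      exact min'_le _ _ (mem_filter.2 ⟨hr, har⟩)
    rcases hS b hbm.1 with h | h
    · exfalso
      obtain ⟨r, hr, h1, h2⟩ := hcon a ha.2 b h hbm.2
      have := hmin r hr h1
      omega
    · exact ⟨b, h, hbm.2, hmin⟩
  choose! f hf using hnext
  have hinj : Set.InjOn f (A.erase M) := by
    intro a ha a' ha' h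
    obtain ⟨h1, h2, h3⟩ := hf a ha
    obtain ⟨h1', h2', h3'⟩ := hf a' ha'
    rcases lt_trichotomy a a' with h4 | h4 | h4
    · have := h3 a' (hA (mem_of_mem_erase ha')) h4
      omega
    · exact h4
    · have := h3' a (hA (mem_of_mem_erase ha)) h4
      omega
  have hmap : ∀ a ∈ A.erase M, f a ∈ B := fun a ha => (hf a ha).1
  have hcard := card_le_card_of_injOn f hmap hinj
  rw [card_erase_of_mem hMA] at hcard
  omega

end Pool.Agent.K9h54.LC
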