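import Pool.Agent.K9h54.LC.Main
import Pool.Agent.K9h54.LC.Pat

/-!
# Residues modulo 4 of consecutive prime pairs `(p, p + d)` at almost all distances `d ≡ 2 (mod 6)`

The problem is about the distance `d = 2` (`a = 0` below). Here `d = 6 a + 2`, for almost all `a`.

Definition used (in `Pool.Agent.H560R3.GB`): `C₂`: the twin prime constant `∏_{p > 2} (1 - 1 / (p - 1) ^ 2)` (the infimum
of the partial products).

Method: Maier's matrix with the rows `u ≡ 0` or `u ≡ q (mod 2 q)`, where `q` is the product of the primes `≡ 3 (mod 4)`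
in `[w, L]`. The columns `c` with `6 c - 1` prime to `q` have a bias modulo 4: the sum of `χ₄ (6 c - 1)` over them is a
sum of nonnegative terms over the divisors of `q`, and it is bounded below by the number of the divisors of `q` near the
length of the window. A second moment over `a` modulo `q` (with an upper bound sieve in progressions) shows that the
bias survives for most distances. The columns of the matrix are treated by the circle method on average over `a`
(`Pool.Agent.K9h54.MP`), at the good scales of the starting files.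
-/

set_option autoImplicit false

namespace Pool.Agent.K9h54.LC.Joint

open Finset Pool.Agent.H560R3.GB

/-- `p` is the first member of a prime pair at distance `d`: `p` and `p + d` are prime. (`d = 2`: twin primes.) -/
def First (d p : ℕ) : Prop := p.Prime ∧ (p + d).Prime

open Classical in
/-- The number of the first members `p ≡ i (mod 4)` of prime pairs at distance `d` in the window `(x, x + h]`. -/
noncomputable def members (d i x h : ℕ) : ℕ := ((Ioc x (x + h)).filter fun p => First d p ∧ p % 4 = i).card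

open Classical in
/-- The counting function `π₂(x; 4; a|b)` of the problem for the distance `d` (`d = 2` is the one of the problem): the
number of the first members `p ≤ x` with `p ≡ a (mod 4)` whose successor among the first members is `≡ b (mod 4)`. -/
noncomputable def pattern (d x a b : ℕ) : ℕ :=
  ((Icc 1 x).filter fun p => First d p ∧ p % 4 = a ∧
    ∃ p', p < p' ∧ First d p' ∧ p' % 4 = b ∧ ∀ r, p < r → r < p' → ¬ First d r).card

/-- The number predicted by Hardy and Littlewood for the first members in a window of length `6 log ^ lam X` near `X`, for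
the distance `6 a + 2`: the singular series `2 C₂ ∏_{p ∣ 6 a + 2, p > 2} (p - 1) / (p - 2)` times `6 log ^ lam X`,
divided by `log ^ 2 X`. -/
noncomputable def expected (lam : ℝ) (X a : ℕ) : ℝ :=
  6 * Real.log X ^ lam *
    (2 * C₂ * ∏ p ∈ (6 * a + 2).primeFactors.filter (fun p => 2 < p), ((p : ℝ) - 1) / ((p : ℝ) - 2)) / Real.log X ^ 2

open Classical in
/-- The number of the `u ∈ (X, 2X]` for which, among the first members in the window `(6u, 6u + 6 ⌊log ^ lam X⌋]` at the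
distance `6 a + 2`, the class `i (mod 4)` leads the class `j (mod 4)` by at least `δ` times the expected number of all. -/
noncomputable def biased (lam δ : ℝ) (X a i j : ℕ) : ℕ :=
  ((Ioc X (2 * X)).filter fun u => (members (6 * a + 2) j (6 * u) (6 * ⌊Real.log X ^ lam⌋₊) : ℝ) + δ * expected lam X a ≤
    members (6 * a + 2) i (6 * u) (6 * ⌊Real.log X ^ lam⌋₊)).card

open Pool.Agent.K9h54.MP (XX yl APl scales size0 size1 size2 exp_beats)
open Pool.Agent.K9h54.LC (prc main_ev consec)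

lemma mod6 {a u p : ℕ} (hu : 1 ≤ u) (hp : 6 * u < p) (h : First (6 * a + 2) p) : p % 6 = 5 := by
  obtain ⟨h1, h2⟩ := h
  have k2 : ¬ 2 ∣ p := fun hd => by
    have := (Nat.prime_dvd_prime_iff_eq Nat.prime_two h1).1 hd
    omega
  have k3 : ¬ 3 ∣ p := fun hd => by
    have := (Nat.prime_dvd_prime_iff_eq Nat.prime_three h1).1 hd
    omega
  have k4 : ¬ 3 ∣ p + (6 * a + 2) := fun hd => by
    have := (Nat.prime_dvd_prime_iff_eq Nat.prime_three h2).1 hd
    omega
  have k5 : p % 6 = 1 ∨ p % 6 = 5 := by omega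
  rcases k5 with k5 | k5
  · exact absurd ⟨2 * (p / 6) + 2 * a + 1, by omega⟩ k4
  · exact k5

lemma members_eq (a u Y i e : ℕ) (hu : 1 ≤ u) (hi : ∀ c, 1 ≤ c → ((6 * (u + c) - 1) % 4 = i ↔ c % 2 = e)) :
    members (6 * a + 2) i (6 * u) (6 * Y) = prc Y a u e := by
  classical
  unfold members prc
  refine card_bij' (fun p _ => (p + 1) / 6 - u) (fun c _ => 6 * (u + c) - 1) ?_ ?_ ?_ ?_
  · intro p hp
    rw [mem_filter, mem_Ioc] at hp
    obtain ⟨⟨h1, h2⟩, h3, h4⟩ := hp
    have h5 := mod6 hu h1 h3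
    obtain ⟨m, hm⟩ : ∃ m, p = 6 * m + 5 := ⟨p / 6, by omega⟩
    have h6 : (p + 1) / 6 - u = m + 1 - u := by omega
    have h7 : 6 * (u + (m + 1 - u)) - 1 = p := by omega
    rw [mem_filter, mem_Icc, h6, h7]
    refine ⟨⟨by omega, by omega⟩, ?_, h3.1, h3.2⟩
    rw [← hi (m + 1 - u) (by omega), h7]
    exact h4
  · intro c hc
    rw [mem_filter, mem_Icc] at hc
    obtain ⟨⟨h1, h2⟩, h3, h4, h5⟩ := hc
    rw [mem_filter, mem_Ioc]
    exact ⟨⟨by omega, by omega⟩, ⟨h4, h5⟩, (hi c h1).2 h3⟩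
  · intro p hp
    rw [mem_filter, mem_Ioc] at hp
    obtain ⟨⟨h1, h2⟩, h3, h4⟩ := hp
    have h5 := mod6 hu h1 h3
    obtain ⟨m, hm⟩ : ∃ m, p = 6 * m + 5 := ⟨p / 6, by omega⟩
    omega
  · intro c hc
    rw [mem_filter, mem_Icc] at hc
    omega

/-- two consecutive first members in the same class -/
lemma pair_ex (a u Y i j : ℕ) (hu : 1 ≤ u) (hij : (i = 1 ∧ j = 3) ∨ (i = 3 ∧ j = 1))
    (h : members (6 * a + 2) j (6 * u) (6 * Y) + 2 ≤ members (6 * a + 2) i (6 * u) (6 * Y)) :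
    ∃ p, 6 * u < p ∧ p ≤ 6 * u + 6 * Y ∧ First (6 * a + 2) p ∧ p % 4 = i ∧
      ∃ p', p < p' ∧ First (6 * a + 2) p' ∧ p' % 4 = i ∧ ∀ r, p < r → r < p' → ¬ First (6 * a + 2) r := by
  classical
  unfold members at h
  obtain ⟨p, hp, p', hp', h1, h2⟩ := consec ((Ioc (6 * u) (6 * u + 6 * Y)).filter fun p => First (6 * a + 2) p)
    ((Ioc (6 * u) (6 * u + 6 * Y)).filter fun p => First (6 * a + 2) p ∧ p % 4 = i)
    ((Ioc (6 * u) (6 * u + 6 * Y)).filter fun p => First (6 * a + 2) p ∧ p % 4 = j) (by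
      intro p hp
      rw [mem_filter] at hp ⊢
      exact ⟨hp.1, hp.2.1⟩) (by
      intro s hs
      rw [mem_filter] at hs
      have h3 := mod6 hu (mem_Ioc.1 hs.1).1 hs.2
      rw [mem_filter, mem_filter]
      have h4 : s % 4 = 1 ∨ s % 4 = 3 := by omega
      rcases hij with ⟨rfl, rfl⟩ | ⟨rfl, rfl⟩
      · rcases h4 with h4 | h4
        · exact Or.inl ⟨hs.1, hs.2, h4⟩
        · exact Or.inr ⟨hs.1, hs.2, h4⟩
      · rcases h4 with h4 | h4
        · exact Or.inr ⟨hs.1, hs.2, h4⟩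
        · exact Or.inl ⟨hs.1, hs.2, h4⟩) h
  rw [mem_filter, mem_Ioc] at hp hp'
  refine ⟨p, hp.1.1, hp.1.2, hp.2.1, hp.2.2, p', h1, hp'.2.1, hp'.2.2, ?_⟩
  intro r hr1 hr2 hr
  exact h2 r (mem_filter.2 ⟨mem_Ioc.2 ⟨by omega, by omega⟩, hr⟩) hr1 hr2

/-- from the windows to the patterns -/
lemma pattern_count (X a Y i j : ℕ) (hX : 1 ≤ X) (hY : 6 * Y ≤ 3 * X) (hij : (i = 1 ∧ j = 3) ∨ (i = 3 ∧ j = 1))
    (G : Finset ℕ) (hG : ∀ u ∈ G, X < u ∧ u ≤ 2 * X ∧
      members (6 * a + 2) j (6 * u) (6 * Y) + 2 ≤ members (6 * a + 2) i (6 * u) (6 * Y)) :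
    G.card ≤ (Y + 1) * pattern (6 * a + 2) (15 * X) i i := by
  classical
  have h1 : ∀ u ∈ G, ∃ p, 6 * u < p ∧ p ≤ 6 * u + 6 * Y ∧ First (6 * a + 2) p ∧ p % 4 = i ∧
      ∃ p', p < p' ∧ First (6 * a + 2) p' ∧ p' % 4 = i ∧ ∀ r, p < r → r < p' → ¬ First (6 * a + 2) r :=
    fun u hu => pair_ex a u Y i j (by have := (hG u hu).1; omega) hij (hG u hu).2.2
  choose! f hf using h1
  unfold pattern
  refine card_le_mul_card_image_of_maps_to (f := f) ?_ (Y + 1) ?_
  · intro u hu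
    obtain ⟨k1, k2, k3, k4, k5⟩ := hf u hu
    have k6 := hG u hu
    rw [mem_filter, mem_Icc]
    exact ⟨⟨by omega, by omega⟩, k3, k4, k5⟩
  · intro p _
    have h2 : (G.filter fun u => f u = p) ⊆ Icc ((p - 1) / 6 - Y) ((p - 1) / 6) := by
      intro u hu
      rw [mem_filter] at hu
      obtain ⟨k1, k2, k3, k4, k5⟩ := hf u hu.1
      rw [hu.2] at k1 k2
      rw [mem_Icc]
      constructor <;> omega
    refine (card_le_card h2).trans ?_
    rw [Nat.card_Icc]
    omega

open Classical in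
/-- For every `lam > 2` and every `ε > 0` there is `δ > 0` such that for arbitrarily large `X` the following holds for all
but at most `ε X` of the distances `d = 6 a + 2`, `a ≤ X`. At least `X ^ (1 - ε)` windows of length `6 ⌊log ^ lam X⌋` have a
lead of the class `1 (mod 4)` over the class `3 (mod 4)` of at least `δ` times the expected number among the first members
of the prime pairs at distance `d`, and at least `X ^ (1 - ε)` windows have such a lead of the class `3`. Each of the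
patterns `(1|1)` and `(3|3)` occurs at least `X ^ (1 - ε)` times among the consecutive first members up to `15 X`. -/
theorem joint (lam : ℝ) (hlam : 2 < lam) (ε : ℝ) (hε : 0 < ε) : ∃ δ : ℝ, 0 < δ ∧ ∀ X₀ : ℕ, ∃ X : ℕ, X₀ ≤ X ∧
    (((Icc 1 X).filter fun a => ¬ ((X : ℝ) ^ (1 - ε) ≤ biased lam δ X a 1 3 ∧ (X : ℝ) ^ (1 - ε) ≤ biased lam δ X a 3 1 ∧
      (X : ℝ) ^ (1 - ε) ≤ pattern (6 * a + 2) (15 * X) 1 1 ∧
      (X : ℝ) ^ (1 - ε) ≤ pattern (6 * a + 2) (15 * X) 3 3)).card : ℝ) ≤ ε * X := by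
  have hlam0 : 0 < lam := by linarith
  obtain ⟨δ, hδ, hmain⟩ := main_ev lam (ε / 2) hlam0 (by positivity)
  refine ⟨δ, hδ, fun X₀ => ?_⟩
  have hXX : ∀ᶠ l : ℝ in Filter.atTop, X₀ ≤ XX l := by
    filter_upwards [size0, Filter.eventually_ge_atTop (max (X₀ : ℝ) 100)] with l s hl
    obtain ⟨a1, a2, a3, a4, a5, a6⟩ := s
    have hl1 : (X₀ : ℝ) ≤ l := (le_max_left _ _).trans hl
    have hl2 : (100 : ℝ) ≤ l := (le_max_right _ _).trans hl
    have k1 : (l / 2) ^ 2 ≤ (l / 2) ^ 40 := pow_le_pow_right₀ (by linarith) (by norm_num)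
    have hX0 : (0 : ℝ) < XX l := by exact_mod_cast (by omega : 0 < XX l)
    have k2 : Real.log (XX l) ≤ XX l := (Real.log_le_sub_one_of_pos hX0).trans (by linarith)
    have k3 : (X₀ : ℝ) ≤ XX l := by nlinarith
    exact_mod_cast k3
  have hlogt : Filter.Tendsto (fun l : ℝ => Real.log (XX l)) Filter.atTop Filter.atTop := by
    refine Filter.tendsto_atTop_mono' _ ?_ (Filter.tendsto_id.atTop_div_const (show (0 : ℝ) < 2 by norm_num))
    filter_upwards [size0, Filter.eventually_ge_atTop (2 : ℝ)] with l s hl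
    refine le_trans ?_ s.2.2.2.2.1
    exact le_self_pow₀ (by simp only [id]; linarith) (by norm_num)
  have hHH : ∀ᶠ l : ℝ in Filter.atTop, 2 / δ ≤ Real.log (XX l) ^ (lam - 2) :=
    ((tendsto_rpow_atTop (by linarith : 0 < lam - 2)).comp hlogt).eventually_ge_atTop _
  obtain ⟨L₀, hL₀⟩ := Filter.eventually_atTop.1 (hmain.and (hXX.and (size0.and ((size1 lam 1 hlam0 one_pos).and
    ((size2 lam hlam0).and (hHH.and ((exp_beats 2 (ε / 2) 40 (40 * ⌈lam⌉₊) (by positivity) (by norm_num)).and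
      (Filter.eventually_ge_atTop (100 : ℝ)))))))))
  obtain ⟨l, hl, hAP⟩ := scales L₀
  obtain ⟨e1, e2, ⟨a1, a2, a3, a4, a5, a6⟩, ⟨b1, b2, b3, b4, b5⟩, c1, hH, hY, hl100⟩ := hL₀ l hl
  refine ⟨XX l, e2, ?_⟩
  have e1 := e1 hAP
  obtain ⟨X, hX⟩ : ∃ X, X = XX l := ⟨_, rfl⟩
  obtain ⟨Y, hYd⟩ : ∃ Y, Y = ⌊Real.log X ^ lam⌋₊ := ⟨_, rfl⟩
  have hyl : yl lam l = Real.log X ^ lam := by rw [hX]; rfl
  rw [hyl] at b1 b2 b3 b4 b5 c1
  rw [← hX] at e1 a1 a2 a3 a4 a5 a6 c1 hH ⊢
  simp only [hyl] at e1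
  rw [← hYd] at c1
  simp only [← hYd] at e1
  have hX0 : (0 : ℝ) < X := by exact_mod_cast (by omega : 0 < X)
  have hX1 : (1 : ℝ) ≤ X := by exact_mod_cast (by omega : 1 ≤ X)
  have hlog : 2 ≤ Real.log X := by
    have k1 : (l / 2) ^ 1 ≤ (l / 2) ^ 40 := pow_le_pow_right₀ (by linarith) (by norm_num)
    linarith
  have hN : (Pool.Agent.K9h54.MP.NN l : ℝ) ≤ 21 * X := a2
  have hNn : Pool.Agent.K9h54.MP.NN l ≤ 21 * X := by exact_mod_cast hN
  have h6Y : 6 * Y ≤ 3 * X := by omega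
  -- the length of the windows
  have hYX : ((Y : ℝ) + 1) ≤ (X : ℝ) ^ (ε / 2) := by
    have k1 : (Y : ℝ) ≤ Real.log X ^ lam := by rw [hYd]; exact Nat.floor_le (by linarith)
    have k2 : (Y : ℝ) + 1 ≤ 2 * l ^ (40 * ⌈lam⌉₊) := by linarith
    have k3 : Real.exp (ε / 2 * (l / 2) ^ (40 : ℝ)) ≤ (X : ℝ) ^ (ε / 2) := by
      rw [Real.rpow_def_of_pos hX0]
      apply Real.exp_le_exp.2
      have k4 : (l / 2) ^ (40 : ℝ) = (l / 2) ^ (40 : ℕ) := by
        rw [← Real.rpow_natCast]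
        norm_num
      rw [k4, mul_comm]
      exact mul_le_mul_of_nonneg_right a5 (by positivity)
    exact k2.trans (hY.trans k3)
  have hexp : ∀ a, expected lam X a = 6 * sing (6 * a + 2) * Real.log X ^ lam / Real.log X ^ 2 := by
    intro a
    unfold expected sing
    ring
  have hexp2 : ∀ a, 2 ≤ δ * expected lam X a := by
    intro a
    have k1 := Pool.Agent.W93.GB.one_le_sing (6 * a + 2)
    have k2 : Real.log X ^ lam / Real.log X ^ 2 = Real.log X ^ (lam - 2) := by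
      rw [Real.rpow_sub (by linarith)]
      norm_num
    have k3 : expected lam X a = 6 * sing (6 * a + 2) * Real.log X ^ (lam - 2) := by
      rw [hexp, ← k2]
      ring
    rw [k3]
    rw [div_le_iff₀ hδ] at hH
    have k4 : 0 < Real.log X ^ (lam - 2) := Real.rpow_pos_of_pos (by linarith) _
    have k5 : Real.log X ^ (lam - 2) ≤ 6 * sing (6 * a + 2) * Real.log X ^ (lam - 2) :=
      le_mul_of_one_le_left k4.le (by linarith)
    nlinarith
  have hpow : (X : ℝ) ^ (1 - ε) ≤ (X : ℝ) ^ (1 - ε / 2) := Real.rpow_le_rpow_of_exponent_le hX1 (by linarith)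
  have hsub : (Icc 1 X).filter (fun a => ¬ ((X : ℝ) ^ (1 - ε) ≤ biased lam δ X a 1 3 ∧
      (X : ℝ) ^ (1 - ε) ≤ biased lam δ X a 3 1 ∧ (X : ℝ) ^ (1 - ε) ≤ pattern (6 * a + 2) (15 * X) 1 1 ∧
      (X : ℝ) ^ (1 - ε) ≤ pattern (6 * a + 2) (15 * X) 3 3)) ⊆
      (Icc 1 X).filter (fun a => ¬ ∀ σ ∈ range 2, (X : ℝ) ^ (1 - ε / 2) ≤
      (((Ioc X (2 * X)).filter (fun u => u % 2 = σ ∧ δ * (6 * sing (6 * a + 2) * Real.log X ^ lam / Real.log X ^ 2) ≤
        (prc Y a u 1 : ℝ) - prc Y a u 0)).card : ℝ)) := by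
    intro a ha
    rw [mem_filter] at ha ⊢
    refine ⟨ha.1, fun hall => ha.2 ?_⟩
    -- both classes
    have key : ∀ i j σ : ℕ, ((i = 1 ∧ j = 3 ∧ σ = 0) ∨ (i = 3 ∧ j = 1 ∧ σ = 1)) →
        (X : ℝ) ^ (1 - ε) ≤ biased lam δ X a i j ∧ (X : ℝ) ^ (1 - ε) ≤ pattern (6 * a + 2) (15 * X) i i := by
      intro i j σ hσ
      obtain ⟨G, hG⟩ : ∃ G, G = (Ioc X (2 * X)).filter (fun u => (members (6 * a + 2) j (6 * u) (6 * Y) : ℝ) +
        δ * expected lam X a ≤ members (6 * a + 2) i (6 * u) (6 * Y)) := ⟨_, rfl⟩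
      have h1 := hall σ (by rw [mem_range]; omega)
      have h2 : (Ioc X (2 * X)).filter (fun u => u % 2 = σ ∧ δ * (6 * sing (6 * a + 2) * Real.log X ^ lam / Real.log X ^ 2) ≤
          (prc Y a u 1 : ℝ) - prc Y a u 0) ⊆ G := by
        intro u hu
        rw [mem_filter] at hu
        obtain ⟨hu1, hu2, hu3⟩ := hu
        have hu1' := mem_Ioc.1 hu1
        rw [hG, mem_filter]
        refine ⟨hu1, ?_⟩
        have m1 : members (6 * a + 2) i (6 * u) (6 * Y) = prc Y a u 1 := by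
          apply members_eq a u Y i 1 (by omega)
          intro c hc
          rcases hσ with ⟨rfl, rfl, rfl⟩ | ⟨rfl, rfl, rfl⟩ <;> omega
        have m2 : members (6 * a + 2) j (6 * u) (6 * Y) = prc Y a u 0 := by
          apply members_eq a u Y j 0 (by omega)
          intro c hc
          rcases hσ with ⟨rfl, rfl, rfl⟩ | ⟨rfl, rfl, rfl⟩ <;> omega
        rw [m1, m2, hexp]
        linarith
      have h3 : (X : ℝ) ^ (1 - ε / 2) ≤ G.card := h1.trans (by exact_mod_cast card_le_card h2)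
      constructor
      · refine (hpow.trans h3).trans (le_of_eq ?_)
        unfold biased
        rw [hG, hYd]
      · have h4 := pattern_count X a Y i j (by omega) h6Y (by
          rcases hσ with ⟨h5, h6, -⟩ | ⟨h5, h6, -⟩
          · exact Or.inl ⟨h5, h6⟩
          · exact Or.inr ⟨h5, h6⟩) G (by
          intro u hu
          rw [hG, mem_filter, mem_Ioc] at hu
          refine ⟨hu.1.1, hu.1.2, ?_⟩
          have := hexp2 a
          have h5 : (members (6 * a + 2) j (6 * u) (6 * Y) : ℝ) + 2 ≤ members (6 * a + 2) i (6 * u) (6 * Y) := by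
            linarith [hu.2]
          exact_mod_cast h5)
        have h5 : (G.card : ℝ) ≤ ((Y : ℝ) + 1) * (pattern (6 * a + 2) (15 * X) i i : ℝ) := by exact_mod_cast h4
        have h6 : (X : ℝ) ^ (1 - ε / 2) = (X : ℝ) ^ (ε / 2) * (X : ℝ) ^ (1 - ε) := by
          rw [← Real.rpow_add hX0]
          congr 1
          ring
        have h7 : (X : ℝ) ^ (ε / 2) * (X : ℝ) ^ (1 - ε) ≤ (X : ℝ) ^ (ε / 2) * (pattern (6 * a + 2) (15 * X) i i : ℝ) := by
          rw [← h6]
          refine (h3.trans h5).trans ?_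
          exact mul_le_mul_of_nonneg_right hYX (Nat.cast_nonneg _)
        exact le_of_mul_le_mul_left h7 (Real.rpow_pos_of_pos hX0 _)
    obtain ⟨k1, k2⟩ := key 1 3 0 (Or.inl ⟨rfl, rfl, rfl⟩)
    obtain ⟨k3, k4⟩ := key 3 1 1 (Or.inr ⟨rfl, rfl, rfl⟩)
    exact ⟨k1, k3, k2, k4⟩
  have hcard : (((Icc 1 X).filter (fun a => ¬ ((X : ℝ) ^ (1 - ε) ≤ biased lam δ X a 1 3 ∧
      (X : ℝ) ^ (1 - ε) ≤ biased lam δ X a 3 1 ∧ (X : ℝ) ^ (1 - ε) ≤ pattern (6 * a + 2) (15 * X) 1 1 ∧
      (X : ℝ) ^ (1 - ε) ≤ pattern (6 * a + 2) (15 * X) 3 3))).card : ℝ) ≤ ε / 2 * X := by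
    refine le_trans ?_ e1
    exact_mod_cast card_le_card hsub
  refine hcard.trans ?_
  nlinarith

end Pool.Agent.K9h54.LC.Joint
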