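import Pool.Agent.K9h54.LC.Core
import Pool.Agent.K9h54.LC.Cols

set_option autoImplicit false

/-!
# Residues mod 4 of prime pairs in short windows: almost all distances
-/

namespace Pool.Agent.K9h54.LC

open Finset Filter Topology
open Pool.Agent.H373R2.T7 (singZ)
open Pool.Agent.W93.GB (sh singZ_near one_le_sing)
open Pool.Agent.H560R3.GB (sing)
open Pool.Agent.K9h54.MP

/-- the local factors from below -/
theorem PI_low (P : Finset ℕ) (hP : ∀ p ∈ P, p.Prime ∧ 5 ≤ p) (h : ℕ) :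
    1 - ∑ p ∈ P.filter (fun p => p ∣ h), 1 / (p : ℝ) ≤ (∏ p ∈ P, (1 - 1 / (p : ℝ))) / PI P h := by
  have e0 : (∏ p ∈ P, (1 - 1 / (p : ℝ))) / PI P h = ∏ p ∈ P, ((1 - 1 / (p : ℝ)) / (1 - gh h p)) := by
    unfold PI
    rw [prod_div_distrib]
  have hloc : ∀ p ∈ P, 1 - (if p ∣ h then 1 / (p : ℝ) else 0) ≤ (1 - 1 / (p : ℝ)) / (1 - gh h p) := by
    intro p hp
    have h5 : (5 : ℝ) ≤ p := by exact_mod_cast (hP p hp).2
    unfold gh
    split_ifs with hd
    · rw [sub_zero, div_one]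
    · have k1 : (p : ℝ) - 1 ≠ 0 := by linarith
      have k2 : 0 < 1 - 1 / ((p : ℝ) - 1) := by
        rw [sub_pos, div_lt_one (by linarith)]
        linarith
      rw [sub_zero, le_div_iff₀ k2, one_mul]
      have : 1 / (p : ℝ) ≤ 1 / ((p : ℝ) - 1) := one_div_le_one_div_of_le (by linarith) (by linarith)
      linarith
  rw [e0]
  have h1 := (Pool.Agent.N610.MS.CNTaux.one_sub_sum_le P (fun p => if p ∣ h then 1 / (p : ℝ) else 0) (by
    intro p hp
    have h5 : (5 : ℝ) ≤ p := by exact_mod_cast (hP p hp).2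
    split_ifs
    · exact ⟨by positivity, by rw [div_le_one (by linarith)]; linarith⟩
    · exact ⟨le_rfl, zero_le_one⟩)).1
  rw [← sum_filter] at h1
  refine h1.trans ?_
  apply Finset.prod_le_prod
  · intro p hp
    have h5 : (5 : ℝ) ≤ p := by exact_mod_cast (hP p hp).2
    split_ifs
    · rw [sub_nonneg, div_le_one (by linarith)]; linarith
    · norm_num
  · exact hloc

/-- the local factors from above -/
theorem PI_up (P : Finset ℕ) (L : ℕ) (hL : 1 ≤ L) (hP : ∀ p ∈ P, p.Prime ∧ 5 ≤ p ∧ p ≤ L) (h : ℕ) :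
    1 / ((∏ p ∈ P, (1 - 1 / (p : ℝ))) * PI P h) ≤ (L : ℝ) ^ 3 := by
  have hB := prod_lower P L hL fun p hp => ⟨(hP p hp).1.two_le, (hP p hp).2.2⟩
  have hL0 : (0 : ℝ) < L := by exact_mod_cast hL
  have hB0 : 0 < ∏ p ∈ P, (1 - 1 / (p : ℝ)) := lt_of_lt_of_le (by positivity) hB
  have hPI : (∏ p ∈ P, (1 - 1 / (p : ℝ))) ^ 2 ≤ PI P h := by
    unfold PI
    rw [← prod_pow]
    apply Finset.prod_le_prod
    · intro p _
      positivity
    · intro p hp
      have h5 : (5 : ℝ) ≤ p := by exact_mod_cast (hP p hp).2.1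
      have k0 : (1 - 1 / (p : ℝ)) ^ 2 = (p - 1) ^ 2 / p ^ 2 := by field_simp
      unfold gh
      split_ifs
      · rw [k0, sub_zero, div_le_one (by positivity)]
        nlinarith
      · have k1 : (p : ℝ) - 1 ≠ 0 := by linarith
        have e : 1 - 1 / ((p : ℝ) - 1) = (p - 2) / (p - 1) := by
          field_simp
          ring
        rw [k0, e, div_le_div_iff₀ (by positivity) (by linarith)]
        nlinarith
  set B := ∏ p ∈ P, (1 - 1 / (p : ℝ)) with hBd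
  have h3 : (1 / (L : ℝ)) ^ 3 ≤ B * PI P h := by
    calc (1 / (L : ℝ)) ^ 3 ≤ B ^ 3 := by gcongr
      _ = B * B ^ 2 := by ring
      _ ≤ _ := mul_le_mul_of_nonneg_left hPI hB0.le
  calc 1 / (B * PI P h) ≤ 1 / (1 / (L : ℝ)) ^ 3 := one_div_le_one_div_of_le (by positivity) h3
    _ = _ := by field_simp

open Classical in
/-- few distances have many small prime divisors -/
theorem exc_div (P : Finset ℕ) (w L X : ℕ) (hw : 7 ≤ w) (hP : ∀ p ∈ P, p.Prime ∧ w ≤ p ∧ p ≤ L) (hX : ∀ p ∈ P, p ≤ X) :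
    (((Icc 1 X).filter (fun a => 1 / 2 < ∑ p ∈ P.filter (fun p => p ∣ 6 * a + 2), 1 / (p : ℝ))).card : ℝ) ≤
      4 * (X : ℝ) / ((w : ℝ) - 2) := by
  have hw7 : (7 : ℝ) ≤ w := by exact_mod_cast hw
  have h1 : ∑ a ∈ Icc 1 X, ∑ p ∈ P.filter (fun p => p ∣ 6 * a + 2), 1 / (p : ℝ) ≤ 2 * (X : ℝ) / ((w : ℝ) - 2) := by
    calc ∑ a ∈ Icc 1 X, ∑ p ∈ P.filter (fun p => p ∣ 6 * a + 2), 1 / (p : ℝ)
        = ∑ p ∈ P, ((((Icc 1 X).filter (fun a => p ∣ 6 * a + 6 * 0 + 2)).card : ℕ) : ℝ) * (1 / (p : ℝ)) := by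
          simp only [sum_filter]
          rw [sum_comm]
          apply sum_congr rfl
          intro p _
          rw [← sum_filter, sum_const, nsmul_eq_mul]
      _ ≤ ∑ p ∈ P, 2 * (X : ℝ) * (1 / (((p : ℝ) - 1) * ((p : ℝ) - 2))) := by
          apply sum_le_sum
          intro p hp
          obtain ⟨k1, k2, k3⟩ := hP p hp
          have h7 : (7 : ℝ) ≤ p := by exact_mod_cast hw.trans k2
          have k4 := class_card k1 (by omega) (Icc 1 X) subset_rfl 0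
          have k5 : (1 : ℝ) ≤ X / p := by
            rw [le_div_iff₀ (by linarith), one_mul]
            exact_mod_cast hX p hp
          calc ((((Icc 1 X).filter (fun a => p ∣ 6 * a + 6 * 0 + 2)).card : ℕ) : ℝ) * (1 / (p : ℝ))
              ≤ (2 * (X / p)) * (1 / (p : ℝ)) := by
                apply mul_le_mul_of_nonneg_right _ (by positivity)
                linarith
            _ = 2 * (X : ℝ) * (1 / (p : ℝ) ^ 2) := by
                field_simp
            _ ≤ _ := by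
                apply mul_le_mul_of_nonneg_left _ (by positivity)
                apply one_div_le_one_div_of_le
                · nlinarith
                · nlinarith
      _ = 2 * (X : ℝ) * ∑ p ∈ P, 1 / (((p : ℝ) - 1) * ((p : ℝ) - 2)) := by rw [mul_sum]
      _ ≤ 2 * (X : ℝ) * (1 / ((w : ℝ) - 2)) := by
          apply mul_le_mul_of_nonneg_left _ (by positivity)
          refine le_trans ?_ (tele w L (by omega))
          apply sum_le_sum_of_subset_of_nonneg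
          · intro p hp
            obtain ⟨k1, k2, k3⟩ := hP p hp
            exact mem_Icc.2 ⟨k2, k3⟩
          · intro n hn _
            rw [mem_Icc] at hn
            have : (7 : ℝ) ≤ n := by exact_mod_cast hw.trans hn.1
            apply div_nonneg zero_le_one
            apply mul_nonneg <;> linarith
      _ = _ := by ring
  have h2 : (((Icc 1 X).filter (fun a => 1 / 2 < ∑ p ∈ P.filter (fun p => p ∣ 6 * a + 2), 1 / (p : ℝ))).card : ℝ) * (1 / 2) ≤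
      ∑ a ∈ Icc 1 X, ∑ p ∈ P.filter (fun p => p ∣ 6 * a + 2), 1 / (p : ℝ) := by
    rw [← nsmul_eq_mul, ← sum_const]
    refine (sum_le_sum fun a ha => (mem_filter.1 ha).2.le).trans ?_
    apply sum_le_sum_of_subset_of_nonneg (filter_subset _ _)
    intro _ _ _
    exact sum_nonneg fun _ _ => by positivity
  have e : 4 * (X : ℝ) / ((w : ℝ) - 2) = 2 * (2 * (X : ℝ) / ((w : ℝ) - 2)) := by ring
  rw [e]
  linarith

/-- integer roots -/
theorem root_ex (m N : ℕ) (hm : 1 ≤ m) : ∃ L : ℕ, L ^ m ≤ N ∧ N < (L + 1) ^ m := by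
  have hex : ∃ n : ℕ, N < (n + 1) ^ m := ⟨N, by
    calc N < N + 1 := Nat.lt_succ_self N
      _ = (N + 1) ^ 1 := (pow_one _).symm
      _ ≤ (N + 1) ^ m := Nat.pow_le_pow_right (by omega) hm⟩
  refine ⟨Nat.find hex, ?_, Nat.find_spec hex⟩
  rcases Nat.eq_zero_or_pos (Nat.find hex) with h | h
  · rw [h, zero_pow (by omega)]
    exact Nat.zero_le _
  · have h1 := Nat.find_min hex (show Nat.find hex - 1 < Nat.find hex by omega)
    rw [not_lt, Nat.sub_add_cancel h] at h1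
    exact h1

/-- the modulus is small -/
theorem mod_small (w L : ℕ) (l : ℝ) (hl : 1000000 ≤ l) (hL : (L : ℝ) ^ 2 ≤ l) :
    ((6 * (2 * ∏ p ∈ PP w L, p) : ℕ) : ℝ) ≤ Real.exp (l / 300) := by
  have h1 : ∏ p ∈ PP w L, p ≤ 4 ^ L := by
    refine le_trans ?_ (primorial_le_four_pow L)
    unfold primorial
    apply Finset.prod_le_prod_of_subset_of_one_le'
    · intro p hp
      rw [mem_PP] at hp
      rw [mem_filter, mem_range]
      exact ⟨by omega, hp.2.2.1⟩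
    · intro p hp _
      exact (mem_filter.1 hp).2.one_le
  have h2 : ((∏ p ∈ PP w L, p : ℕ) : ℝ) ≤ 4 ^ L := by exact_mod_cast h1
  have h4 : (4 : ℝ) ≤ Real.exp 2 := by
    have e : Real.exp 2 = Real.exp 1 ^ 2 := by rw [← Real.exp_nat_mul]; norm_num
    rw [e]
    have := Real.exp_one_gt_d9
    nlinarith
  have h5 : (4 : ℝ) ^ L ≤ Real.exp (2 * L) := by
    calc (4 : ℝ) ^ L ≤ Real.exp 2 ^ L := by gcongr
      _ = Real.exp (2 * L) := by rw [← Real.exp_nat_mul]; ring_nf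
  have h6 : (L : ℝ) ≤ l / 1000 := by
    by_contra hcon
    rw [not_le] at hcon
    have : (1000 : ℝ) ≤ L := by linarith
    nlinarith
  have h7 : (12 : ℝ) ≤ Real.exp (l / 1000) := by
    have := Real.add_one_le_exp (l / 1000)
    linarith
  push_cast at h2 ⊢
  calc 6 * (2 * ∏ p ∈ PP w L, (p : ℝ)) = 12 * ∏ p ∈ PP w L, (p : ℝ) := by ring
    _ ≤ Real.exp (l / 1000) * Real.exp (2 * L) := by
        apply mul_le_mul h7 (h2.trans h5) _ (Real.exp_pos _).le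
        exact prod_nonneg fun _ _ => Nat.cast_nonneg _
    _ = Real.exp (l / 1000 + 2 * L) := by rw [Real.exp_add]
    _ ≤ _ := by
        apply Real.exp_le_exp.2
        linarith

open Classical in
theorem main_ev (lam ε : ℝ) (hlam : 0 < lam) (hε : 0 < ε) : ∃ δ : ℝ, 0 < δ ∧ ∀ᶠ l : ℝ in atTop, APl l →
    (((Icc 1 (XX l)).filter (fun a => ¬ ∀ σ ∈ range 2, (XX l : ℝ) ^ (1 - ε) ≤
      (((Ioc (XX l) (2 * XX l)).filter (fun u => u % 2 = σ ∧ δ * (6 * sing (6 * a + 2) * yl lam l / Real.log (XX l) ^ 2) ≤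
        (prc ⌊yl lam l⌋₊ a u 1 : ℝ) - prc ⌊yl lam l⌋₊ a u 0)).card : ℝ))).card : ℝ) ≤ ε * XX l := by
  obtain ⟨ε', hε'⟩ : ∃ ε', ε' = ε / 20 := ⟨_, rfl⟩
  have hε'0 : 0 < ε' := by rw [hε']; positivity
  obtain ⟨m, hm⟩ : ∃ m : ℕ, m = 40 * ⌈lam⌉₊ := ⟨_, rfl⟩
  have hm1 : 1 ≤ m := by
    have : 1 ≤ ⌈lam⌉₊ := Nat.one_le_ceil_iff.2 hlam
    omega
  obtain ⟨k, hk⟩ : ∃ k : ℕ, k = 2 * m + 100 := ⟨_, rfl⟩
  obtain ⟨κ₀, hκ₀, w, hw7, hwε, L₀, hL₀, hcols⟩ := cols k (by omega) ε' hε'0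
  obtain ⟨κ, hκ⟩ : ∃ κ, κ = min κ₀ 1 := ⟨_, rfl⟩
  have hκ0 : 0 < κ := by rw [hκ]; exact lt_min hκ₀ one_pos
  have hκ1 : κ ≤ 1 := by rw [hκ]; exact min_le_right _ _
  have hκκ : κ ≤ κ₀ := by rw [hκ]; exact min_le_left _ _
  refine ⟨κ / 96, by positivity, ?_⟩
  obtain ⟨B, hB⟩ := exc3 lam 1 hlam
  obtain ⟨B', hB'⟩ : ∃ B', B' = max B 3 := ⟨_, rfl⟩
  have hB'3 : 3 ≤ B' := by rw [hB']; exact le_max_right _ _
  have hBB' : B ≤ B' := by rw [hB']; exact le_max_left _ _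
  obtain ⟨n₀, hn₀⟩ := singZ_near (1 / 2) (by norm_num)
  have hlimy : Tendsto (fun l : ℝ => (l / 2) ^ (40 * lam)) atTop atTop :=
    (tendsto_rpow_atTop (by positivity)).comp (tendsto_id.atTop_div_const (by norm_num))
  have hlogX : ∀ᶠ l : ℝ in atTop, 1 / ε' ≤ Real.log (XX l) := by
    filter_upwards [size0, eventually_ge_atTop (2 * (1 / ε')), eventually_ge_atTop (2 : ℝ)] with l h1 h2 h3
    obtain ⟨-, -, -, -, a5, -⟩ := h1
    refine le_trans ?_ a5
    calc 1 / ε' ≤ l / 2 := by linarith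
      _ ≤ (l / 2) ^ 40 := le_self_pow₀ (by linarith) (by norm_num)
  filter_upwards [size0, size1 lam 1 hlam one_pos, size2 lam hlam, size3 (κ / 4) (κ / 96) ε (by positivity) (by positivity) hε,
    size4 1 (κ / 48) B' (1 + ⌈lam⌉₊ + 3) one_pos (by positivity) hB'3 (by omega),
    hB (B' + 1), exc4 n₀ 1, col2 (B' + 1) (1 + ⌈lam⌉₊ + 3), eventually_ge_atTop (1000000 : ℝ), NN_bd,
    hlimy.eventually_ge_atTop (((L₀ + 1) ^ (2 * k + 1) + 1 : ℕ) : ℝ), hlogX,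
    eventually_ge_atTop (112 * 16 * 4 / κ)] with
    l s0 s1 s2 s3 s4 e3 e4 hcol hl6 hNN hyL hlogX1 hlκ hAP
  obtain ⟨a1, a2, a3, a4, a5, a6⟩ := s0
  obtain ⟨b1, b2, b3, b4, b5⟩ := s1
  obtain ⟨c1, c2, c3, c4, c5, c6, c7, c8⟩ := s4
  obtain ⟨Y, hY⟩ : ∃ Y, Y = ⌊yl lam l⌋₊ := ⟨_, rfl⟩
  have hY1 : 1 ≤ Y := by rw [hY]; exact Nat.le_floor (by exact_mod_cast b5)
  have hyY : yl lam l < Y + 1 := by rw [hY]; exact Nat.lt_floor_add_one _
  have hYy : (Y : ℝ) ≤ yl lam l := by rw [hY]; exact Nat.floor_le (by linarith)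
  have hYr : (1 : ℝ) ≤ Y := by exact_mod_cast hY1
  have hy2 : yl lam l ≤ 2 * Y := by linarith
  obtain ⟨L, hL1, hL2⟩ := root_ex (2 * k + 1) (Y ^ 2) (by omega)
  -- `L` is large
  have hLL₀ : L₀ ≤ L := by
    by_contra hcon
    rw [not_le] at hcon
    have k1 : (L + 1) ^ (2 * k + 1) ≤ (L₀ + 1) ^ (2 * k + 1) := Nat.pow_le_pow_left (by omega) _
    have k2 : (((L₀ + 1) ^ (2 * k + 1) + 1 : ℕ) : ℝ) ≤ yl lam l := hyL.trans b1
    have k3 : (L₀ + 1) ^ (2 * k + 1) ≤ Y := by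
      have : (((L₀ + 1) ^ (2 * k + 1) + 1 : ℕ) : ℝ) < ((Y + 1 : ℕ) : ℝ) := by
        push_cast at k2 ⊢
        linarith
      have := Nat.cast_lt.1 this
      omega
    have k4 : Y ≤ Y ^ 2 := Nat.le_self_pow (by norm_num) Y
    omega
  have hL7 : 7 ≤ L := hw7.trans (hL₀.trans hLL₀)
  have hwL : w ≤ L := hL₀.trans hLL₀
  -- `L` is small
  have hLsq : (L : ℝ) ^ 2 ≤ l := by
    have k1 : (L : ℝ) ^ (2 * k + 1) ≤ (Y : ℝ) ^ 2 := by exact_mod_cast hL1
    have k2 : (Y : ℝ) ≤ l ^ m := by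
      rw [hm]
      exact hYy.trans b3
    have k3 : (L : ℝ) ^ (4 * m) ≤ (L : ℝ) ^ (2 * k + 1) := by
      apply pow_le_pow_right₀
      · exact_mod_cast (by omega : 1 ≤ L)
      · omega
    have k4 : ((L : ℝ) ^ 2) ^ (2 * m) ≤ l ^ (2 * m) := by
      calc ((L : ℝ) ^ 2) ^ (2 * m) = (L : ℝ) ^ (4 * m) := by rw [← pow_mul]; ring_nf
        _ ≤ (Y : ℝ) ^ 2 := k3.trans k1
        _ ≤ (l ^ m) ^ 2 := by gcongr
        _ = l ^ (2 * m) := by rw [← pow_mul]; ring_nf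
    exact (pow_le_pow_iff_left₀ (by positivity) (by linarith) (by omega)).1 k4
  have hLr : (L : ℝ) ≤ l := by
    have : (7 : ℝ) ≤ L := by exact_mod_cast hL7
    nlinarith
  obtain ⟨P, hPd⟩ : ∃ P, P = PP w L := ⟨_, rfl⟩
  have hP : ∀ p ∈ P, p.Prime ∧ w ≤ p ∧ p ≤ L := by
    intro p hp
    rw [hPd, mem_PP] at hp
    exact ⟨hp.2.2.1, hp.1, hp.2.1⟩
  have hP5 : ∀ p ∈ P, p.Prime ∧ 5 ≤ p := fun p hp => ⟨(hP p hp).1, by have := (hP p hp).2.1; omega⟩
  obtain ⟨q, hq⟩ : ∃ q, q = ∏ p ∈ P, p := ⟨_, rfl⟩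
  have hq1 : 1 ≤ q := by
    rw [hq]
    exact prod_pos fun p hp => (hP p hp).1.pos
  have hqE : ((6 * (2 * q) : ℕ) : ℝ) ≤ Real.exp (l / 300) := by
    rw [hq, hPd]
    exact mod_small w L l hl6 hLsq
  have hqE1 : (q : ℝ) ≤ Real.exp (l / 300) := by
    refine le_trans ?_ hqE
    push_cast
    have : (0 : ℝ) ≤ q := Nat.cast_nonneg _
    linarith
  obtain ⟨f1, f2, f3, f4, f5, f6⟩ := s3 q hq1 hqE1
  -- the sieving level
  obtain ⟨z, hz⟩ : ∃ z, z = ⌈Real.log (NN l) ^ B'⌉₊ := ⟨_, rfl⟩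
  rw [← hz] at c5
  have hzB : Real.log (NN l) ^ B' ≤ z := by rw [hz]; exact Nat.le_ceil _
  have hLl : 4 * l ≤ Real.log (NN l) := by
    have k1 : (16 : ℝ) ≤ l ^ 39 := by
      calc (16 : ℝ) ≤ 1000000 ^ 39 := by norm_num
        _ ≤ l ^ 39 := by gcongr
    have k2 : l ^ 40 = l ^ 39 * l := by ring
    have := hNN.2.2.1
    nlinarith
  have hLN1 : 1 ≤ Real.log (NN l) := by linarith
  have hzB2 : Real.log (NN l) ^ B ≤ z := (pow_le_pow_right₀ hLN1 hBB').trans hzB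
  have hz3 : 3 ≤ z := by
    have : (3 : ℝ) ≤ z := c8.trans hzB
    exact_mod_cast this
  have hPz : ∀ p ∈ P, p ≤ z := by
    intro p hp
    have k1 : (p : ℝ) ≤ L := by exact_mod_cast (hP p hp).2.2
    have k2 : Real.log (NN l) ≤ Real.log (NN l) ^ B' := le_self_pow₀ hLN1 (by omega)
    have : (p : ℝ) ≤ z := by linarith
    exact_mod_cast this
  have hq6 : ∀ p, p.Prime → p ∣ 6 * (2 * q) → p ≤ z := by
    intro p hp hd
    rcases (Nat.Prime.dvd_mul hp).1 hd with h1 | h1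
    · have h6 : p ∣ 2 * 3 := h1
      rcases (Nat.Prime.dvd_mul hp).1 h6 with h7 | h7
      · have := Nat.le_of_dvd (by norm_num) h7
        omega
      · have := Nat.le_of_dvd (by norm_num) h7
        omega
    · rcases (Nat.Prime.dvd_mul hp).1 h1 with h2 | h2
      · have := Nat.le_of_dvd (by norm_num) h2
        omega
      · rw [hq] at h2
        obtain ⟨p', hp', hd'⟩ := (Prime.dvd_finset_prod_iff hp.prime _).1 h2
        rw [(Nat.prime_dvd_prime_iff_eq hp (hP p' hp').1).1 hd']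
        exact hPz p' hp'
  have hPXX : ∀ p ∈ P, p ≤ XX l := by
    intro p hp
    have k1 : p ≤ q := Nat.le_of_dvd (by omega) (by rw [hq]; exact dvd_prod_of_mem _ hp)
    exact k1.trans f6
  have hX0 : (0 : ℝ) < XX l := by exact_mod_cast (by omega : 0 < XX l)
  have hqr : (0 : ℝ) < q := by exact_mod_cast hq1
  -- the exceptional distances
  have x1 := hcols L hLL₀ Y hL1 hL2.le
  rw [← hPd, ← hq] at x1
  have x1' := periodic_card (X := XX l) hq1 (fun a => ¬ κ₀ * (Y * (∏ p ∈ P, (1 - 1 / (p : ℝ))) ^ 2) ≤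
    ∑ c ∈ KL (CC P Y) P a, ch c) (by
      intro a
      rw [KL_mod (CC P Y) P a q (fun p hp => by rw [hq]; exact dvd_prod_of_mem _ hp)])
  have x1'' : (((Icc 1 (XX l)).filter (fun a => ¬ κ₀ * (Y * (∏ p ∈ P, (1 - 1 / (p : ℝ))) ^ 2) ≤
    ∑ c ∈ KL (CC P Y) P a, ch c)).card : ℝ) ≤ 2 * ε' * XX l := by
    refine x1'.trans ?_
    have k1 : (1 : ℝ) ≤ XX l / q := by
      rw [le_div_iff₀ hqr, one_mul]
      exact_mod_cast f6
    calc ((XX l : ℝ) / q + 1) * (((range q).filter (fun a => ¬ κ₀ * (Y * (∏ p ∈ P, (1 - 1 / (p : ℝ))) ^ 2) ≤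
          ∑ c ∈ KL (CC P Y) P a, ch c)).card : ℝ) ≤ (2 * ((XX l : ℝ) / q)) * (q * ε') := by
          apply mul_le_mul (by linarith) x1 (Nat.cast_nonneg _) (by positivity)
      _ = _ := by field_simp
  have x2 := exc_div P w L (XX l) hw7 hP hPXX
  have x2' : 4 * (XX l : ℝ) / ((w : ℝ) - 2) ≤ 4 * ε' * XX l := by
    have k1 : 0 < (w : ℝ) - 2 := lt_of_lt_of_le (by positivity) hwε
    rw [div_le_iff₀ k1]
    have k2 : 1 ≤ ((w : ℝ) - 2) * ε' := by rwa [div_le_iff₀ hε'0] at hwε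
    nlinarith
  have x3 := e3 hAP z hzB2 c5 (2 * q) (by omega) hqE hq6 0
  have x4 := e3 hAP z hzB2 c5 (2 * q) (by omega) hqE hq6 q
  have x5 : (XX l : ℝ) / (4 * Real.log (XX l) ^ 1) ≤ ε' * XX l / 4 := by
    rw [pow_one, div_le_div_iff₀ (by linarith) (by norm_num)]
    have : 1 ≤ ε' * Real.log (XX l) := by
      rw [div_le_iff₀ hε'0] at hlogX1
      linarith
    nlinarith
  have hcol' := hcol hAP z hz3 c5 P hP5 hPz (by rw [← hq]; exact hqE) (XX l) Y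
  rw [← hq] at hcol'
  have hsub : (Icc 1 (XX l)).filter (fun a => ¬ ∀ σ ∈ range 2, (XX l : ℝ) ^ (1 - ε) ≤
      (((Ioc (XX l) (2 * XX l)).filter (fun u => u % 2 = σ ∧ κ / 96 * (6 * sing (6 * a + 2) * yl lam l / Real.log (XX l) ^ 2) ≤
        (prc ⌊yl lam l⌋₊ a u 1 : ℝ) - prc ⌊yl lam l⌋₊ a u 0)).card : ℝ)) ⊆
      ((Icc 1 (XX l)).filter (fun a => ¬ κ₀ * (Y * (∏ p ∈ P, (1 - 1 / (p : ℝ))) ^ 2) ≤
          ∑ c ∈ KL (CC P Y) P a, ch c) ∪
        (Icc 1 (XX l)).filter (fun a => 1 / 2 < ∑ p ∈ P.filter (fun p => p ∣ 6 * a + 2), 1 / (p : ℝ))) ∪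
      (((Icc 1 (XX l)).filter (fun a => Bad l z (1 + ⌈lam⌉₊ + 3) (XX l) ⌊yl lam l⌋₊ 0 (2 * q) a) ∪
        (Icc 1 (XX l)).filter (fun a => Bad l z (1 + ⌈lam⌉₊ + 3) (XX l) ⌊yl lam l⌋₊ q (2 * q) a)) ∪
        (Icc 1 (XX l)).filter (fun a => 6 * a + 2 < n₀)) := by
    intro a ha
    rw [mem_filter] at ha
    obtain ⟨haI, hab⟩ := ha
    by_contra hcon
    apply hab
    rw [mem_union, mem_union, mem_union, mem_union, mem_filter, mem_filter, mem_filter, mem_filter, mem_filter] at hcon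
    push Not at hcon
    obtain ⟨⟨h1, h2⟩, ⟨h3, h3'⟩, h4⟩ := hcon
    have h1 := h1 haI
    have h2 := h2 haI
    have h3 := h3 haI
    have h3' := h3' haI
    have h4 := h4 haI
    rw [← hY] at h3 h3' ⊢
    have haI' := mem_Icc.1 haI
    -- the singular series
    have hsz := hn₀ (6 * a + 2) h4 (by omega) z (by
      refine le_trans ?_ (c6.trans hzB)
      have k1 : Real.log ((6 * a + 2 : ℕ) : ℝ) ≤ Real.log (NN l) := by
        apply Real.log_le_log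
        · exact_mod_cast (by omega : 0 < 6 * a + 2)
        · exact_mod_cast (by omega : 6 * a + 2 ≤ NN l)
      have k0 : 0 ≤ Real.log ((6 * a + 2 : ℕ) : ℝ) := Real.log_natCast_nonneg _
      gcongr)
    have hS1 := one_le_sing (6 * a + 2)
    have hsz1 := (abs_le.1 hsz).1
    have hsz2 := (abs_le.1 hsz).2
    have hb : 1 / 2 ≤ (∏ p ∈ P, (1 - 1 / (p : ℝ))) / PI P (6 * a + 2) := by
      have := PI_low P hP5 (6 * a + 2)
      linarith
    have hM := PI_up P L (by omega) (fun p hp => ⟨(hP5 p hp).1, (hP5 p hp).2, (hP p hp).2.2⟩) (6 * a + 2)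
    have hM1 : (1 : ℝ) ≤ (L : ℝ) ^ 3 := one_le_pow₀ (by exact_mod_cast (by omega : 1 ≤ L))
    have hgen : ∀ u₀ : ℕ, (u₀ = 0 ∨ u₀ = q) → ¬ Bad l z (1 + ⌈lam⌉₊ + 3) (XX l) Y u₀ (2 * q) a →
        (XX l : ℝ) ^ (1 - ε) ≤ (((Ioc (XX l) (2 * XX l)).filter (fun u => u ≡ u₀ [MOD 2 * q] ∧
        κ / 96 * (6 * sing (6 * a + 2) * yl lam l / Real.log (XX l) ^ 2) ≤ (prc Y a u 1 : ℝ) - prc Y a u 0)).card : ℝ) := by
      intro u₀ hu₀ hbad
      have hqu : q ∣ u₀ := by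
        rcases hu₀ with h | h
        · rw [h]
          exact dvd_zero _
        · rw [h]
      have hc := hcol' u₀ (by rw [hY]; exact s2) hqu a haI hbad
      have hcore := core2 (P := P) (X := XX l) (Y := Y) (N := NN l) (a := a) (z := z) (u₀ := u₀) (y := yl lam l)
        (S := sing (6 * a + 2)) (κ := κ)
        (err := 3 * (NN l : ℝ) / (((6 * (2 * q) : ℕ) : ℝ) * Real.log (NN l) ^ (1 + ⌈lam⌉₊ + 3))) (M3 := (L : ℝ) ^ 3)
        hP5 hPXX a1 haI'.2 (by rw [hY]; exact s2) (by rw [← hq]; exact hqu) hκ0 hκ1 hY1 hy2 (by linarith) (by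
          refine le_trans ?_ h1
          apply mul_le_mul_of_nonneg_right hκκ
          positivity) hS1 (by linarith) (by linarith) hb hM hM1 (by rw [← hq]; exact hc) ?_ a3 ?_ ?_ ?_ ?_
      · rw [← hq] at hcore
        refine le_trans (f5.trans ?_) hcore
        -- comparison
        have k1 : 0 < Real.log (XX l) := by linarith
        have k2 : 0 < Real.log (NN l) := by linarith
        have k3 : Real.log (NN l) ^ 2 ≤ 2 * Real.log (XX l) ^ 2 := by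
          have : κ / 96 ≤ 1 / 2 := by linarith
          have : (1 - κ / 96) * Real.log (NN l) ^ 2 ≥ 1 / 2 * Real.log (NN l) ^ 2 :=
            mul_le_mul_of_nonneg_right (by linarith) (by positivity)
          linarith
        rw [div_le_div_iff₀ (by positivity) (by positivity)]
        have k4 : 0 ≤ (XX l : ℝ) / q * κ := by positivity
        nlinarith
      · rw [← hq]
        have k2 : 3 * (NN l : ℝ) / (((6 * (2 * q) : ℕ) : ℝ) * Real.log (NN l) ^ (1 + ⌈lam⌉₊ + 3)) ≤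
            3 * (21 * XX l) / (((6 * (2 * q) : ℕ) : ℝ) * Real.log (NN l) ^ (1 + ⌈lam⌉₊ + 3)) := by
          gcongr
        refine k2.trans ?_
        calc 3 * (21 * (XX l : ℝ)) / (((6 * (2 * q) : ℕ) : ℝ) * Real.log (NN l) ^ (1 + ⌈lam⌉₊ + 3))
            = (63 / Real.log (NN l) ^ (1 + ⌈lam⌉₊ + 3)) * ((XX l : ℝ) / q / 12) := by
              push_cast
              field_simp
              norm_num
          _ ≤ (36 * (κ / 48)) * ((XX l : ℝ) / q / 12) := by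
              apply mul_le_mul_of_nonneg_right c7 (by positivity)
          _ = κ / 16 * ((XX l : ℝ) / q) := by ring
      · have : (1 - κ / 96) * Real.log (NN l) ^ 2 ≥ 1 / 2 * Real.log (NN l) ^ 2 :=
          mul_le_mul_of_nonneg_right (by linarith) (by positivity)
        linarith
      · have k1 : (L : ℝ) ^ 3 ≤ l ^ 2 := by
          calc (L : ℝ) ^ 3 = (L : ℝ) ^ 2 * L := by ring
            _ ≤ l * l := by gcongr
            _ = l ^ 2 := by ring
        have k2 : l ^ 3 ≤ 4 * Real.log (NN l) := by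
          have k3 : l ^ 3 ≤ l ^ 40 := pow_le_pow_right₀ (by linarith) (by norm_num)
          have := hNN.2.2.1
          linarith
        have k4 : 112 * 16 * 4 ≤ κ * l := by
          rw [div_le_iff₀ hκ0] at hlκ
          linarith
        have k5 : 112 * 16 * 4 * l ^ 2 ≤ κ * l ^ 3 := by
          calc 112 * 16 * 4 * l ^ 2 ≤ κ * l * l ^ 2 := by gcongr
            _ = κ * l ^ 3 := by ring
        have k6 : κ * l ^ 3 ≤ κ * (4 * Real.log (NN l)) := mul_le_mul_of_nonneg_left k2 hκ0.le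
        linarith
      · rw [← hq]
        calc 4 * √(NN l : ℝ) * Real.log (NN l) ^ 2 ≤ κ / 96 * (6 * ((XX l : ℝ) / q)) := f1
          _ = κ / 16 * ((XX l : ℝ) / q) := by ring
      · rw [← hq]
        refine le_trans ?_ f4
        rw [le_div_iff₀ (by positivity)]
        linarith
    intro σ hσ
    rw [mem_range] at hσ
    have hq2 : q % 2 = 1 := by
      rw [hq, hPd]
      exact (prod_mod4 (PP w L) fun p hp => (mem_PP.1 hp).2.2.2).2
    have hσ' : σ = 0 ∨ σ = 1 := by omega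
    rcases hσ' with rfl | rfl
    · refine (hgen 0 (Or.inl rfl) h3).trans ?_
      have : (Ioc (XX l) (2 * XX l)).filter (fun u => u ≡ 0 [MOD 2 * q] ∧
        κ / 96 * (6 * sing (6 * a + 2) * yl lam l / Real.log (XX l) ^ 2) ≤ (prc Y a u 1 : ℝ) - prc Y a u 0) ⊆
        (Ioc (XX l) (2 * XX l)).filter (fun u => u % 2 = 0 ∧
        κ / 96 * (6 * sing (6 * a + 2) * yl lam l / Real.log (XX l) ^ 2) ≤ (prc Y a u 1 : ℝ) - prc Y a u 0) := by
        intro u hu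
        rw [mem_filter] at hu ⊢
        refine ⟨hu.1, ?_, hu.2.2⟩
        have := hu.2.1.of_dvd (Dvd.intro q rfl)
        exact this
      exact_mod_cast card_le_card this
    · refine (hgen q (Or.inr rfl) h3').trans ?_
      have : (Ioc (XX l) (2 * XX l)).filter (fun u => u ≡ q [MOD 2 * q] ∧
        κ / 96 * (6 * sing (6 * a + 2) * yl lam l / Real.log (XX l) ^ 2) ≤ (prc Y a u 1 : ℝ) - prc Y a u 0) ⊆
        (Ioc (XX l) (2 * XX l)).filter (fun u => u % 2 = 1 ∧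
        κ / 96 * (6 * sing (6 * a + 2) * yl lam l / Real.log (XX l) ^ 2) ≤ (prc Y a u 1 : ℝ) - prc Y a u 0) := by
        intro u hu
        rw [mem_filter] at hu ⊢
        refine ⟨hu.1, ?_, hu.2.2⟩
        have : u ≡ q [MOD 2] := hu.2.1.of_dvd (Dvd.intro q rfl)
        unfold Nat.ModEq at this
        omega
      exact_mod_cast card_le_card this
  have hcard := card_le_card hsub
  have hU1 := card_union_le ((Icc 1 (XX l)).filter (fun a => ¬ κ₀ * (Y * (∏ p ∈ P, (1 - 1 / (p : ℝ))) ^ 2) ≤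
          ∑ c ∈ KL (CC P Y) P a, ch c) ∪
        (Icc 1 (XX l)).filter (fun a => 1 / 2 < ∑ p ∈ P.filter (fun p => p ∣ 6 * a + 2), 1 / (p : ℝ)))
      (((Icc 1 (XX l)).filter (fun a => Bad l z (1 + ⌈lam⌉₊ + 3) (XX l) ⌊yl lam l⌋₊ 0 (2 * q) a) ∪
        (Icc 1 (XX l)).filter (fun a => Bad l z (1 + ⌈lam⌉₊ + 3) (XX l) ⌊yl lam l⌋₊ q (2 * q) a)) ∪
        (Icc 1 (XX l)).filter (fun a => 6 * a + 2 < n₀))
  have hU2 := card_union_le ((Icc 1 (XX l)).filter (fun a => ¬ κ₀ * (Y * (∏ p ∈ P, (1 - 1 / (p : ℝ))) ^ 2) ≤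
          ∑ c ∈ KL (CC P Y) P a, ch c))
        ((Icc 1 (XX l)).filter (fun a => 1 / 2 < ∑ p ∈ P.filter (fun p => p ∣ 6 * a + 2), 1 / (p : ℝ)))
  have hU3 := card_union_le ((Icc 1 (XX l)).filter (fun a => Bad l z (1 + ⌈lam⌉₊ + 3) (XX l) ⌊yl lam l⌋₊ 0 (2 * q) a) ∪
        (Icc 1 (XX l)).filter (fun a => Bad l z (1 + ⌈lam⌉₊ + 3) (XX l) ⌊yl lam l⌋₊ q (2 * q) a))
        ((Icc 1 (XX l)).filter (fun a => 6 * a + 2 < n₀))
  have hU4 := card_union_le ((Icc 1 (XX l)).filter (fun a => Bad l z (1 + ⌈lam⌉₊ + 3) (XX l) ⌊yl lam l⌋₊ 0 (2 * q) a))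
        ((Icc 1 (XX l)).filter (fun a => Bad l z (1 + ⌈lam⌉₊ + 3) (XX l) ⌊yl lam l⌋₊ q (2 * q) a))
  have hall : (((Icc 1 (XX l)).filter (fun a => ¬ ∀ σ ∈ range 2, (XX l : ℝ) ^ (1 - ε) ≤
      (((Ioc (XX l) (2 * XX l)).filter (fun u => u % 2 = σ ∧ κ / 96 * (6 * sing (6 * a + 2) * yl lam l / Real.log (XX l) ^ 2) ≤
        (prc ⌊yl lam l⌋₊ a u 1 : ℝ) - prc ⌊yl lam l⌋₊ a u 0)).card : ℝ))).card : ℝ) ≤
      ((((Icc 1 (XX l)).filter (fun a => ¬ κ₀ * (Y * (∏ p ∈ P, (1 - 1 / (p : ℝ))) ^ 2) ≤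
          ∑ c ∈ KL (CC P Y) P a, ch c)).card : ℕ) : ℝ) +
      ((((Icc 1 (XX l)).filter (fun a => 1 / 2 < ∑ p ∈ P.filter (fun p => p ∣ 6 * a + 2), 1 / (p : ℝ))).card : ℕ) : ℝ) +
      (((((Icc 1 (XX l)).filter (fun a => Bad l z (1 + ⌈lam⌉₊ + 3) (XX l) ⌊yl lam l⌋₊ 0 (2 * q) a)).card : ℕ) : ℝ) +
      ((((Icc 1 (XX l)).filter (fun a => Bad l z (1 + ⌈lam⌉₊ + 3) (XX l) ⌊yl lam l⌋₊ q (2 * q) a)).card : ℕ) : ℝ) +
      ((((Icc 1 (XX l)).filter (fun a => 6 * a + 2 < n₀)).card : ℕ) : ℝ)) := by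
    exact_mod_cast (hcard.trans hU1).trans (add_le_add hU2 (hU3.trans (add_le_add hU4 le_rfl)))
  have hεX : ε * XX l = 20 * (ε' * XX l) := by rw [hε']; ring
  have hpos : 0 ≤ ε' * XX l := by positivity
  rw [hεX]
  have e4' := e4
  linarith

end Pool.Agent.K9h54.LC
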