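import Pool.Agent.K9h54.LC.Var

set_option autoImplicit false

/-!
# Residues mod 4 of prime pairs in short windows: the bound for the second moment
-/

namespace Pool.Agent.K9h54.LC

open Finset

/-- the columns whose number `6 c - 1` has no prime divisor in `P` -/
def CC (P : Finset ℕ) (Y : ℕ) : Finset ℕ := (Icc 1 Y).filter (fun c => ∀ p ∈ P, ¬ p ∣ 6 * c - 1)

theorem mod_prod {A : Finset ℕ} (hA : ∀ p ∈ A, p.Prime) {c c' : ℕ} (h : ∀ p ∈ A, c ≡ c' [MOD p]) :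
    c ≡ c' [MOD ∏ p ∈ A, p] := by
  rw [Nat.modEq_iff_dvd]
  push_cast
  apply Finset.prod_dvd_of_coprime
  · intro p hp p' hp' hne
    exact Nat.isCoprime_iff_coprime.2 ((Nat.coprime_primes (hA p hp) (hA p' hp')).2 hne)
  · intro p hp
    exact (Nat.modEq_iff_dvd).1 (h p hp)

theorem rh_exp (P : Finset ℕ) (c c' : ℕ) : rh P c c' - 1 =
    ∑ A ∈ P.powerset.erase ∅, (if ∀ p ∈ A, c ≡ c' [MOD p] then ∏ p ∈ A, (1 / ((p : ℝ) - 2)) else 0) := by
  classical
  have h1 : rh P c c' = ∑ A ∈ P.powerset, (if ∀ p ∈ A, c ≡ c' [MOD p] then ∏ p ∈ A, (1 / ((p : ℝ) - 2)) else 0) := by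
    unfold rh
    rw [prod_one_add]
    apply sum_congr rfl
    intro A _
    split_ifs with h
    · apply prod_congr rfl
      intro p hp
      rw [if_pos (h p hp)]
    · push Not at h
      obtain ⟨p, hp, hd⟩ := h
      apply prod_eq_zero hp
      rw [if_neg hd]
  have h2 : (∅ : Finset ℕ) ∈ P.powerset := empty_mem_powerset P
  rw [h1, ← add_sum_erase _ _ h2]
  simp

theorem tele (w L : ℕ) (hw : 3 ≤ w) : ∑ n ∈ Icc w L, 1 / (((n : ℝ) - 1) * ((n : ℝ) - 2)) ≤ 1 / ((w : ℝ) - 2) := by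
  have hwr : (3 : ℝ) ≤ w := by exact_mod_cast hw
  rcases Nat.lt_or_ge L w with h | h
  · rw [Icc_eq_empty (by omega), sum_empty]
    apply div_nonneg zero_le_one
    linarith
  · have key : ∑ n ∈ Icc w L, 1 / (((n : ℝ) - 1) * ((n : ℝ) - 2)) = 1 / ((w : ℝ) - 2) - 1 / ((L : ℝ) - 1) := by
      induction L, h using Nat.le_induction with
      | base =>
        rw [Icc_self, sum_singleton]
        have : (w : ℝ) - 1 ≠ 0 := by linarith
        have : (w : ℝ) - 2 ≠ 0 := by linarith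
        field_simp
        ring
      | succ n hn ih =>
        have h2 : Icc w (n + 1) = insert (n + 1) (Icc w n) := by
          ext m
          rw [mem_insert, mem_Icc, mem_Icc]
          omega
        rw [h2, sum_insert (by rw [mem_Icc]; omega), ih]
        have hnr : (3 : ℝ) ≤ n := by exact_mod_cast hw.trans hn
        have : (n : ℝ) - 1 ≠ 0 := by linarith
        have : (n : ℝ) ≠ 0 := by linarith
        have : (w : ℝ) - 2 ≠ 0 := by linarith
        have e1 : ((n + 1 : ℕ) : ℝ) - 1 = n := by push_cast; ring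
        have e2 : ((n + 1 : ℕ) : ℝ) - 2 = n - 1 := by push_cast; ring
        rw [e1, e2]
        field_simp
        ring
    rw [key]
    have : 0 ≤ 1 / ((L : ℝ) - 1) := by
      apply div_nonneg zero_le_one
      have : (w : ℝ) ≤ L := by exact_mod_cast h
      linarith
    linarith

theorem rho_sum : ∃ L₀ : ℕ, 2 ≤ L₀ ∧ ∀ L : ℕ, L₀ ≤ L → ∀ w₀ : ℕ, 7 ≤ w₀ → w₀ ≤ L → ∀ P : Finset ℕ,
    (∀ p ∈ P, p.Prime ∧ w₀ ≤ p ∧ p ≤ L) → ∀ Y : ℕ, L ^ 100 ≤ Y →
      ∑ c ∈ CC P Y, ∑ c' ∈ CC P Y, (rh P c c' - 1) ≤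
        28 / ((w₀ : ℝ) - 2) * ((Y : ℝ) * ∏ p ∈ P, (1 - 1 / (p : ℝ))) ^ 2 := by
  classical
  obtain ⟨L₀, hL₀, h0⟩ := sieve_ub
  refine ⟨L₀, hL₀, fun L hL w₀ hw hwL P hP Y hY => ?_⟩
  have hL2 : (2 : ℝ) ≤ L := by exact_mod_cast hL₀.trans hL
  have hL7 : (7 : ℝ) ≤ L := by exact_mod_cast hw.trans hwL
  have hw7 : (7 : ℝ) ≤ w₀ := by exact_mod_cast hw
  have hwLr : (w₀ : ℝ) ≤ L := by exact_mod_cast hwL
  have hP5 : ∀ p ∈ P, p.Prime ∧ 5 ≤ p ∧ p ≤ L := fun p hp => by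
    obtain ⟨h1, h2, h3⟩ := hP p hp
    exact ⟨h1, by omega, h3⟩
  have hp5 : ∀ p ∈ P, (5 : ℝ) ≤ p := fun p hp => by exact_mod_cast (hP5 p hp).2.1
  obtain ⟨B, hB⟩ : ∃ B : ℝ, B = ∏ p ∈ P, (1 - 1 / (p : ℝ)) := ⟨_, rfl⟩
  rw [← hB]
  have hBf : ∀ A ⊆ P, 0 < ∏ p ∈ A, (1 - 1 / (p : ℝ)) := fun A hA => prod_pos fun p hp => by
    have := hp5 p (hA hp)
    rw [sub_pos, div_lt_one (by linarith)]
    linarith
  have hB0 : 0 < B := by rw [hB]; exact hBf P subset_rfl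
  have hBL : 1 / (L : ℝ) ≤ B := by
    rw [hB]
    exact prod_lower P L (by omega) fun p hp => ⟨(hP5 p hp).1.two_le, (hP5 p hp).2.2⟩
  have hYr : (L : ℝ) ^ 100 ≤ Y := by exact_mod_cast hY
  have hY0 : (0 : ℝ) < Y := lt_of_lt_of_le (by positivity) hYr
  have hCcard : ((CC P Y).card : ℝ) ≤ 3 * Y * B := by
    have h1 := h0 L hL P hP5 1 0 Y one_pos (fun p hp hd => (hP p hp).1.one_lt.ne' (Nat.dvd_one.1 hd)) (by
      rw [mul_one]
      exact (Nat.pow_le_pow_right (by omega) (by norm_num)).trans hY)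
    rw [← hB, Nat.cast_one, div_one] at h1
    refine le_trans (le_of_eq ?_) h1
    unfold CC
    congr 2
    apply filter_congr
    intro c _
    constructor
    · intro h
      exact ⟨Nat.modEq_one, h⟩
    · exact fun h => h.2
  have hCY : ((CC P Y).card : ℝ) ≤ Y := by
    have : (CC P Y).card ≤ Y := by
      unfold CC
      refine (card_filter_le _ _).trans ?_
      rw [Nat.card_Icc]
      omega
    exact_mod_cast this
  -- the number of the pairs
  have hN : ∀ A ⊆ P, ∑ c ∈ CC P Y, (((CC P Y).filter (fun c' => ∀ p ∈ A, c ≡ c' [MOD p])).card : ℝ) ≤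
      9 * (Y * B) ^ 2 * ∏ p ∈ A, (1 / ((p : ℝ) - 1)) + 2 * Y * (L : ℝ) ^ 70 := by
    intro A hA
    have hA' : ∀ p ∈ A, p.Prime := fun p hp => (hP p (hA hp)).1
    obtain ⟨d, hd⟩ : ∃ d, d = ∏ p ∈ A, p := ⟨_, rfl⟩
    have hd0 : 0 < d := by
      rw [hd]
      exact prod_pos fun p hp => (hA' p hp).pos
    have hdr : (0 : ℝ) < d := by exact_mod_cast hd0
    have hterm : 0 ≤ 9 * (Y * B) ^ 2 * ∏ p ∈ A, (1 / ((p : ℝ) - 1)) := by
      have : 0 ≤ ∏ p ∈ A, (1 / ((p : ℝ) - 1)) := prod_nonneg fun p hp => by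
        have := hp5 p (hA hp)
        apply div_nonneg zero_le_one
        linarith
      positivity
    by_cases hdL : L ^ 70 * d ≤ Y
    · have h1 : ∀ c ∈ CC P Y, (((CC P Y).filter (fun c' => ∀ p ∈ A, c ≡ c' [MOD p])).card : ℝ) ≤
          3 * ((Y : ℝ) / d) * ∏ p ∈ P \ A, (1 - 1 / (p : ℝ)) := by
        intro c _
        have h2 := h0 L hL (P \ A) (fun p hp => hP5 p (mem_sdiff.1 hp).1) d c Y hd0 (by
          intro p hp hpd
          rw [hd] at hpd
          obtain ⟨p', hp', hd'⟩ := (Prime.dvd_finset_prod_iff (hP p (mem_sdiff.1 hp).1).1.prime _).1 hpd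
          rw [(Nat.prime_dvd_prime_iff_eq (hP p (mem_sdiff.1 hp).1).1 (hA' p' hp')).1 hd'] at hp
          exact (mem_sdiff.1 hp).2 hp') hdL
        refine le_trans ?_ h2
        have h3 : (CC P Y).filter (fun c' => ∀ p ∈ A, c ≡ c' [MOD p]) ⊆
            (Icc 1 Y).filter (fun c' => c' ≡ c [MOD d] ∧ ∀ p ∈ P \ A, ¬ p ∣ 6 * c' - 1) := by
          intro c' hc'
          unfold CC at hc'
          rw [mem_filter, mem_filter] at hc'
          rw [mem_filter]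
          refine ⟨hc'.1.1, ?_, fun p hp => hc'.1.2 p (mem_sdiff.1 hp).1⟩
          rw [hd]
          exact (mod_prod hA' hc'.2).symm
        exact_mod_cast card_le_card h3
      have h4 : ∏ p ∈ P \ A, (1 - 1 / (p : ℝ)) = B / ∏ p ∈ A, (1 - 1 / (p : ℝ)) := by
        rw [eq_div_iff (hBf A hA).ne', hB]
        exact prod_sdiff hA
      have h5 : (1 / (d : ℝ)) * (1 / ∏ p ∈ A, (1 - 1 / (p : ℝ))) = ∏ p ∈ A, (1 / ((p : ℝ) - 1)) := by
        rw [hd]
        push_cast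
        rw [one_div, one_div, ← prod_inv_distrib, ← prod_inv_distrib, ← prod_mul_distrib]
        apply prod_congr rfl
        intro p hp
        have := hp5 p (hA hp)
        have : (p : ℝ) - 1 ≠ 0 := by linarith
        have : (p : ℝ) ≠ 0 := by linarith
        field_simp
      calc ∑ c ∈ CC P Y, (((CC P Y).filter (fun c' => ∀ p ∈ A, c ≡ c' [MOD p])).card : ℝ)
          ≤ ∑ c ∈ CC P Y, 3 * ((Y : ℝ) / d) * ∏ p ∈ P \ A, (1 - 1 / (p : ℝ)) := sum_le_sum h1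
        _ = (CC P Y).card * (3 * ((Y : ℝ) / d) * (B / ∏ p ∈ A, (1 - 1 / (p : ℝ)))) := by
            rw [sum_const, nsmul_eq_mul, h4]
        _ ≤ (3 * Y * B) * (3 * ((Y : ℝ) / d) * (B / ∏ p ∈ A, (1 - 1 / (p : ℝ)))) := by
            have := hBf A hA
            gcongr
        _ = 9 * (Y * B) ^ 2 * ((1 / (d : ℝ)) * (1 / ∏ p ∈ A, (1 - 1 / (p : ℝ)))) := by ring
        _ = 9 * (Y * B) ^ 2 * ∏ p ∈ A, (1 / ((p : ℝ) - 1)) := by rw [h5]
        _ ≤ _ := by
            have : 0 ≤ 2 * (Y : ℝ) * (L : ℝ) ^ 70 := by positivity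
            linarith
    · have h1 : ∀ c ∈ CC P Y, (((CC P Y).filter (fun c' => ∀ p ∈ A, c ≡ c' [MOD p])).card : ℝ) ≤ 2 * (L : ℝ) ^ 70 := by
        intro c _
        have h3 : (CC P Y).filter (fun c' => ∀ p ∈ A, c ≡ c' [MOD p]) ⊆
            (Icc 1 Y).filter (fun c' => c' ≡ c [MOD d]) := by
          intro c' hc'
          unfold CC at hc'
          rw [mem_filter, mem_filter] at hc'
          rw [mem_filter]
          refine ⟨hc'.1.1, ?_⟩
          rw [hd]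
          exact (mod_prod hA' hc'.2).symm
        have h4 : (((CC P Y).filter (fun c' => ∀ p ∈ A, c ≡ c' [MOD p])).card : ℝ) ≤
            (((Icc 1 Y).filter (fun c' => c' ≡ c [MOD d])).card : ℝ) := by exact_mod_cast card_le_card h3
        have h5 := (abs_le.1 (Pool.Agent.H373R2.T7.count_class Y d c hd0)).2
        have h6 : (Y : ℝ) / d ≤ (L : ℝ) ^ 70 := by
          rw [div_le_iff₀ hdr]
          exact_mod_cast (not_le.1 hdL).le
        have h7 : (1 : ℝ) ≤ (L : ℝ) ^ 70 := one_le_pow₀ (by linarith)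
        linarith
      calc ∑ c ∈ CC P Y, (((CC P Y).filter (fun c' => ∀ p ∈ A, c ≡ c' [MOD p])).card : ℝ)
          ≤ ∑ c ∈ CC P Y, 2 * (L : ℝ) ^ 70 := sum_le_sum h1
        _ = (CC P Y).card * (2 * (L : ℝ) ^ 70) := by rw [sum_const, nsmul_eq_mul]
        _ ≤ Y * (2 * (L : ℝ) ^ 70) := by gcongr
        _ ≤ _ := by linarith
  -- expansion
  have hH0 : ∀ A ⊆ P, 0 ≤ ∏ p ∈ A, (1 / ((p : ℝ) - 2)) := fun A hA => prod_nonneg fun p hp => by
    have := hp5 p (hA hp)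
    apply div_nonneg zero_le_one
    linarith
  have e1 : ∑ c ∈ CC P Y, ∑ c' ∈ CC P Y, (rh P c c' - 1) =
      ∑ A ∈ P.powerset.erase ∅, (∏ p ∈ A, (1 / ((p : ℝ) - 2))) *
        ∑ c ∈ CC P Y, (((CC P Y).filter (fun c' => ∀ p ∈ A, c ≡ c' [MOD p])).card : ℝ) := by
    calc ∑ c ∈ CC P Y, ∑ c' ∈ CC P Y, (rh P c c' - 1) = ∑ c ∈ CC P Y, ∑ c' ∈ CC P Y, ∑ A ∈ P.powerset.erase ∅,
          (if ∀ p ∈ A, c ≡ c' [MOD p] then ∏ p ∈ A, (1 / ((p : ℝ) - 2)) else 0) := by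
          simp only [rh_exp]
      _ = ∑ A ∈ P.powerset.erase ∅, ∑ c ∈ CC P Y, ∑ c' ∈ CC P Y,
          (if ∀ p ∈ A, c ≡ c' [MOD p] then ∏ p ∈ A, (1 / ((p : ℝ) - 2)) else 0) := by
          rw [sum_comm]
          rw [sum_congr rfl fun c' _ => sum_comm (s := CC P Y) (t := P.powerset.erase ∅)]
          rw [sum_comm]
          apply sum_congr rfl
          intro A _
          rw [sum_comm]
      _ = _ := by
          apply sum_congr rfl
          intro A _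
          rw [mul_sum]
          apply sum_congr rfl
          intro c _
          rw [← sum_filter, sum_const, nsmul_eq_mul, mul_comm]
  have hsum1 : ∑ A ∈ P.powerset.erase ∅, (∏ p ∈ A, (1 / ((p : ℝ) - 2))) * ∏ p ∈ A, (1 / ((p : ℝ) - 1)) ≤ 3 / ((w₀ : ℝ) - 2) := by
    have k1 : ∏ p ∈ P, (1 + 1 / ((p : ℝ) - 2) * (1 / ((p : ℝ) - 1))) =
        1 + ∑ A ∈ P.powerset.erase ∅, (∏ p ∈ A, (1 / ((p : ℝ) - 2))) * ∏ p ∈ A, (1 / ((p : ℝ) - 1)) := by
      rw [prod_one_add, ← add_sum_erase _ _ (empty_mem_powerset P)]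
      simp only [prod_empty, prod_mul_distrib, mul_one]
    have k2 : ∏ p ∈ P, (1 + 1 / ((p : ℝ) - 2) * (1 / ((p : ℝ) - 1))) ≤ Real.exp (1 / ((w₀ : ℝ) - 2)) := by
      calc ∏ p ∈ P, (1 + 1 / ((p : ℝ) - 2) * (1 / ((p : ℝ) - 1))) ≤
            ∏ p ∈ P, Real.exp (1 / (((p : ℝ) - 1) * ((p : ℝ) - 2))) := by
            apply prod_le_prod
            · intro p hp
              have := hp5 p hp
              have : 0 ≤ 1 / ((p : ℝ) - 2) * (1 / ((p : ℝ) - 1)) := by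
                apply mul_nonneg <;> apply div_nonneg zero_le_one <;> linarith
              linarith
            · intro p hp
              have := Real.add_one_le_exp (1 / (((p : ℝ) - 1) * ((p : ℝ) - 2)))
              have e : 1 / ((p : ℝ) - 2) * (1 / ((p : ℝ) - 1)) = 1 / (((p : ℝ) - 1) * ((p : ℝ) - 2)) := by
                rw [div_mul_div_comm, one_mul, mul_comm]
              rw [e]
              linarith
        _ = Real.exp (∑ p ∈ P, 1 / (((p : ℝ) - 1) * ((p : ℝ) - 2))) := by rw [← Real.exp_sum]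
        _ ≤ _ := by
            apply Real.exp_le_exp.2
            refine le_trans ?_ (tele w₀ L (by omega))
            apply sum_le_sum_of_subset_of_nonneg
            · intro p hp
              obtain ⟨-, h2, h3⟩ := hP p hp
              exact mem_Icc.2 ⟨h2, h3⟩
            · intro n hn _
              rw [mem_Icc] at hn
              have : (7 : ℝ) ≤ n := by exact_mod_cast hw.trans hn.1
              apply div_nonneg zero_le_one
              apply mul_nonneg <;> linarith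
    have k3 : 1 / ((w₀ : ℝ) - 2) ≤ 1 := by
      rw [div_le_one (by linarith)]
      linarith
    have k4 := exp_lin (show 0 ≤ 1 / ((w₀ : ℝ) - 2) from div_nonneg zero_le_one (by linarith)) k3
    rw [k1] at k2
    have k5 : 3 * (1 / ((w₀ : ℝ) - 2)) = 3 / ((w₀ : ℝ) - 2) := by ring
    linarith
  have hsum2 : ∑ A ∈ P.powerset.erase ∅, ∏ p ∈ A, (1 / ((p : ℝ) - 2)) ≤ (L : ℝ) ^ 2 := by
    calc ∑ A ∈ P.powerset.erase ∅, ∏ p ∈ A, (1 / ((p : ℝ) - 2)) ≤ ∑ A ∈ P.powerset, ∏ p ∈ A, (1 / ((p : ℝ) - 2)) := by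
          apply sum_le_sum_of_subset_of_nonneg (erase_subset _ _)
          intro A hA _
          exact hH0 A (mem_powerset.1 hA)
      _ = ∏ p ∈ P, (1 + 1 / ((p : ℝ) - 2)) := (prod_one_add P).symm
      _ ≤ ∏ p ∈ P, ((1 - 1 / (p : ℝ))⁻¹) ^ 2 := by
          apply prod_le_prod
          · intro p hp
            have := hp5 p hp
            have : 0 ≤ 1 / ((p : ℝ) - 2) := div_nonneg zero_le_one (by linarith)
            linarith
          · intro p hp
            have h5 := hp5 p hp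
            have e : ((1 - 1 / (p : ℝ))⁻¹) ^ 2 = p ^ 2 / (p - 1) ^ 2 := by
              have : (p : ℝ) - 1 ≠ 0 := by linarith
              have : (p : ℝ) ≠ 0 := by linarith
              field_simp
            have e2 : 1 + 1 / ((p : ℝ) - 2) = (p - 1) / (p - 2) := by
              have : (p : ℝ) - 2 ≠ 0 := by linarith
              field_simp
              ring
            rw [e, e2, div_le_div_iff₀ (by linarith) (by
              have : 0 < (p : ℝ) - 1 := by linarith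
              positivity)]
            nlinarith
      _ = (B⁻¹) ^ 2 := by rw [prod_pow, prod_inv_distrib, hB]
      _ ≤ (L : ℝ) ^ 2 := by
          have : B⁻¹ ≤ L := by
            rw [inv_le_comm₀ hB0 (by linarith), ← one_div]
            exact hBL
          have : 0 < B⁻¹ := inv_pos.2 hB0
          gcongr
  rw [e1]
  calc ∑ A ∈ P.powerset.erase ∅, (∏ p ∈ A, (1 / ((p : ℝ) - 2))) *
        ∑ c ∈ CC P Y, (((CC P Y).filter (fun c' => ∀ p ∈ A, c ≡ c' [MOD p])).card : ℝ)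
      ≤ ∑ A ∈ P.powerset.erase ∅, (∏ p ∈ A, (1 / ((p : ℝ) - 2))) *
        (9 * (Y * B) ^ 2 * ∏ p ∈ A, (1 / ((p : ℝ) - 1)) + 2 * Y * (L : ℝ) ^ 70) := by
        apply sum_le_sum
        intro A hA
        have hA' := mem_powerset.1 (mem_of_mem_erase hA)
        exact mul_le_mul_of_nonneg_left (hN A hA') (hH0 A hA')
    _ = 9 * (Y * B) ^ 2 * ∑ A ∈ P.powerset.erase ∅, (∏ p ∈ A, (1 / ((p : ℝ) - 2))) * ∏ p ∈ A, (1 / ((p : ℝ) - 1)) +
        2 * Y * (L : ℝ) ^ 70 * ∑ A ∈ P.powerset.erase ∅, ∏ p ∈ A, (1 / ((p : ℝ) - 2)) := by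
        rw [mul_sum, mul_sum, ← sum_add_distrib]
        apply sum_congr rfl
        intro A _
        ring
    _ ≤ 9 * (Y * B) ^ 2 * (3 / ((w₀ : ℝ) - 2)) + 2 * Y * (L : ℝ) ^ 70 * (L : ℝ) ^ 2 := by
        gcongr
    _ ≤ 9 * (Y * B) ^ 2 * (3 / ((w₀ : ℝ) - 2)) + 1 / ((w₀ : ℝ) - 2) * (Y * B) ^ 2 := by
        have k1 : 2 * (Y : ℝ) * (L : ℝ) ^ 70 * (L : ℝ) ^ 2 ≤ 1 / ((w₀ : ℝ) - 2) * (Y * B) ^ 2 := by
          rw [one_div, inv_mul_eq_div, le_div_iff₀ (by linarith)]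
          calc 2 * (Y : ℝ) * (L : ℝ) ^ 70 * (L : ℝ) ^ 2 * ((w₀ : ℝ) - 2) ≤ L * Y * (L : ℝ) ^ 70 * (L : ℝ) ^ 2 * L := by
                have : (w₀ : ℝ) - 2 ≤ L := by linarith
                have : 0 ≤ (w₀ : ℝ) - 2 := by linarith
                gcongr
            _ = Y * (L : ℝ) ^ 74 := by ring
            _ ≤ Y * ((L : ℝ) ^ 100 * (1 / L) ^ 2) := by
                have e : (L : ℝ) ^ 100 * (1 / L) ^ 2 = (L : ℝ) ^ 98 := by field_simp
                rw [e]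
                apply mul_le_mul_of_nonneg_left _ hY0.le
                exact pow_le_pow_right₀ (by linarith) (by norm_num)
            _ ≤ Y * (Y * B ^ 2) := by gcongr
            _ = (Y * B) ^ 2 := by ring
        linarith
    _ = 28 / ((w₀ : ℝ) - 2) * (Y * B) ^ 2 := by ring

open Classical in
/-- most distances keep the bias -/
theorem few_bad (P : Finset ℕ) (hP : ∀ p ∈ P, p.Prime ∧ 5 ≤ p) (C : Finset ℕ) (x : ℕ → ℝ) (hx : ∀ c ∈ C, |x c| ≤ 1)
    (κ y V : ℝ) (hκ : 0 < κ) (hy : 0 < y)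
    (hX : κ * (y * ∏ p ∈ P, (1 - 1 / (p : ℝ))) ≤ ∑ c ∈ C, x c)
    (hV : ∑ c ∈ C, ∑ c' ∈ C, (rh P c c' - 1) ≤ V * (y * ∏ p ∈ P, (1 - 1 / (p : ℝ))) ^ 2) :
    (((range (∏ p ∈ P, p)).filter (fun a => ¬ κ / 2 * (y * (∏ p ∈ P, (1 - 1 / (p : ℝ))) ^ 2) ≤
      ∑ c ∈ KL C P a, x c)).card : ℝ) ≤ ((∏ p ∈ P, p : ℕ) : ℝ) * (4 * V / κ ^ 2) := by
  have h1 := var_bound P hP C x hx
  obtain ⟨q, hq⟩ : ∃ q, q = ∏ p ∈ P, p := ⟨_, rfl⟩
  obtain ⟨B, hB⟩ : ∃ B : ℝ, B = ∏ p ∈ P, (1 - 1 / (p : ℝ)) := ⟨_, rfl⟩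
  rw [← hq, ← hB] at h1 ⊢
  rw [← hB] at hX hV
  have hB0 : 0 < B := by
    rw [hB]
    apply prod_pos
    intro p hp
    have h5 : (5 : ℝ) ≤ p := by exact_mod_cast (hP p hp).2
    rw [sub_pos, div_lt_one (by linarith)]
    linarith
  set F := (range q).filter (fun a => ¬ κ / 2 * (y * B ^ 2) ≤ ∑ c ∈ KL C P a, x c) with hF
  have ht : 0 < κ / 2 * (y * B ^ 2) := by positivity
  have h2 : (F.card : ℝ) * (κ / 2 * (y * B ^ 2)) ^ 2 ≤ ∑ a ∈ range q, (∑ c ∈ KL C P a, x c - B * ∑ c ∈ C, x c) ^ 2 := by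
    calc (F.card : ℝ) * (κ / 2 * (y * B ^ 2)) ^ 2 = ∑ a ∈ F, (κ / 2 * (y * B ^ 2)) ^ 2 := by rw [sum_const, nsmul_eq_mul]
      _ ≤ ∑ a ∈ F, (∑ c ∈ KL C P a, x c - B * ∑ c ∈ C, x c) ^ 2 := by
          apply sum_le_sum
          intro a ha
          rw [hF, mem_filter, not_le] at ha
          have k1 : κ * (y * B ^ 2) ≤ B * ∑ c ∈ C, x c := by
            have := mul_le_mul_of_nonneg_left hX hB0.le
            calc κ * (y * B ^ 2) = B * (κ * (y * B)) := by ring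
              _ ≤ _ := this
          have k2 : κ / 2 * (y * B ^ 2) ≤ B * ∑ c ∈ C, x c - ∑ c ∈ KL C P a, x c := by linarith [ha.2]
          have k3 : (∑ c ∈ KL C P a, x c - B * ∑ c ∈ C, x c) ^ 2 = (B * ∑ c ∈ C, x c - ∑ c ∈ KL C P a, x c) ^ 2 := by ring
          rw [k3]
          gcongr
      _ ≤ _ := sum_le_sum_of_subset_of_nonneg (filter_subset _ _) fun _ _ _ => sq_nonneg _
  have h3 : (q : ℝ) * B ^ 2 * ∑ c ∈ C, ∑ c' ∈ C, (rh P c c' - 1) ≤ q * B ^ 2 * (V * (y * B) ^ 2) := by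
    gcongr
  have h4 : (F.card : ℝ) * (κ / 2 * (y * B ^ 2)) ^ 2 ≤ (q * (4 * V / κ ^ 2)) * (κ / 2 * (y * B ^ 2)) ^ 2 := by
    refine (h2.trans (h1.trans h3)).trans (le_of_eq ?_)
    field_simp
    ring
  exact le_of_mul_le_mul_right h4 (by positivity)

end Pool.Agent.K9h54.LC
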