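import Pool.Agent.K9h54.LC.Pn
import Pool.Agent.K9h54.LC.Var2

set_option autoImplicit false

/-!
# Residues mod 4 of prime pairs in short windows: Mertens' theorem modulo 4
-/

namespace Pool.Agent.K9h54.LC

open Finset Filter Topology

/-- the primes `≡ 3 (mod 4)` between `w` and `L` -/
def PP (w L : ℕ) : Finset ℕ := (Icc w L).filter (fun p => p.Prime ∧ p % 4 = 3)

theorem mem_PP {w L p : ℕ} : p ∈ PP w L ↔ w ≤ p ∧ p ≤ L ∧ p.Prime ∧ p % 4 = 3 := by
  unfold PP
  rw [mem_filter, mem_Icc]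
  tauto

theorem one_add_ge {x : ℝ} (h0 : 0 ≤ x) : Real.exp (x - x ^ 2) ≤ 1 + x := by
  have h1 := Real.add_one_le_exp (-(x - x ^ 2))
  have h2 : 0 < Real.exp (x - x ^ 2) := Real.exp_pos _
  have h3 : Real.exp (x - x ^ 2) * Real.exp (-(x - x ^ 2)) = 1 := by
    rw [← Real.exp_add]
    simp
  have h4 : 1 / (1 + x) ≤ -(x - x ^ 2) + 1 := by
    rw [div_le_iff₀ (by linarith)]
    have : 0 ≤ x ^ 3 := by positivity
    nlinarith
  have h5 : Real.exp (x - x ^ 2) * (1 / (1 + x)) ≤ 1 :=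
    (mul_le_mul_of_nonneg_left (h4.trans h1) h2.le).trans h3.le
  rw [mul_one_div, div_le_one (by linarith)] at h5
  exact h5

theorem mert_PP : ∃ C : ℝ, 0 ≤ C ∧ ∀ w L : ℕ, 7 ≤ w → w ≤ L →
    1 / 2 * (Real.log (Real.log L) - Real.log (Real.log w)) - C ≤ ∑ p ∈ PP w L, 1 / (p : ℝ) := by
  obtain ⟨C, hC0, hC⟩ := Pool.Agent.Y405.CQ.mertens_ap 4 (by norm_num) 3 (by norm_num) (by decide)
  refine ⟨2 * C, by positivity, fun w L hw hL => ?_⟩
  have h1 := (abs_le.1 (hC L (by omega))).1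
  have h2 := (abs_le.1 (hC (w - 1) (by omega))).2
  have e2 : ((Nat.totient 4 : ℕ) : ℝ) = 2 := by
    have : Nat.totient 4 = 2 := by decide
    rw [this]
    norm_num
  rw [e2] at h1 h2
  have h3 : (Icc 1 L).filter (fun p => p.Prime ∧ p % 4 = 3) =
      (Icc 1 (w - 1)).filter (fun p => p.Prime ∧ p % 4 = 3) ∪ PP w L := by
    ext p
    rw [mem_union, mem_filter, mem_filter, mem_PP, mem_Icc, mem_Icc]
    constructor
    · rintro ⟨a, b, c⟩
      rcases Nat.lt_or_ge p w with h | h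
      · exact Or.inl ⟨by omega, b, c⟩
      · exact Or.inr ⟨h, a.2, b, c⟩
    · rintro (⟨a, b, c⟩ | ⟨a, b, c, d⟩)
      · exact ⟨by omega, b, c⟩
      · exact ⟨by omega, c, d⟩
  have h4 : Disjoint ((Icc 1 (w - 1)).filter (fun p => p.Prime ∧ p % 4 = 3)) (PP w L) := by
    rw [Finset.disjoint_left]
    intro p h5 h6
    rw [mem_filter, mem_Icc] at h5
    rw [mem_PP] at h6
    omega
  rw [h3, sum_union h4] at h1
  have h5 : Real.log (Real.log ((w - 1 : ℕ) : ℝ)) ≤ Real.log (Real.log w) := by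
    have k1 : (3 : ℝ) ≤ ((w - 1 : ℕ) : ℝ) := by exact_mod_cast (by omega : 3 ≤ w - 1)
    have k2 : ((w - 1 : ℕ) : ℝ) ≤ w := by exact_mod_cast (by omega : w - 1 ≤ w)
    apply Real.log_le_log
    · exact Real.log_pos (by linarith)
    · exact Real.log_le_log (by linarith) k2
  linarith

/-- the mass of the smooth numbers -/
theorem mass : ∃ c : ℝ, 0 < c ∧ ∀ w : ℕ, 7 ≤ w → ∃ L₀ : ℕ, w ≤ L₀ ∧ ∀ L : ℕ, L₀ ≤ L →
    c * (Real.log L / Real.log w) * ∏ p ∈ PP w L, (1 - 1 / (p : ℝ)) ≤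
      ∏ p ∈ (PP w L).filter (fun p : ℕ => 128 * Real.log (p : ℝ) ≤ Real.log L), (1 + 1 / (p : ℝ)) := by
  obtain ⟨C, hC0, hC⟩ := mert_PP
  have hlog : Tendsto (fun n : ℕ => Real.log (n : ℝ)) atTop atTop := Real.tendsto_log_atTop.comp tendsto_natCast_atTop_atTop
  refine ⟨Real.exp (-(2 * C) - 1 / 2 * Real.log 256 - 1), Real.exp_pos _, fun w hw => ?_⟩
  obtain ⟨n1, hn1⟩ := eventually_atTop.1 (hlog.eventually_ge_atTop (max 256 (128 * Real.log (w + 1))))
  refine ⟨max w n1, le_max_left _ _, fun L hL => ?_⟩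
  have hwL : w ≤ L := (le_max_left _ _).trans hL
  have hLl := hn1 L ((le_max_right _ _).trans hL)
  have hℓ : 256 ≤ Real.log L := (le_max_left _ _).trans hLl
  have hℓ2 : 128 * Real.log (w + 1) ≤ Real.log L := (le_max_right _ _).trans hLl
  obtain ⟨ℓ, hℓd⟩ : ∃ ℓ, ℓ = Real.log L := ⟨_, rfl⟩
  rw [← hℓd] at hℓ hℓ2 ⊢
  have hw7 : (7 : ℝ) ≤ w := by exact_mod_cast hw
  have hL0 : (0 : ℝ) < L := by exact_mod_cast (by omega : 0 < L)
  obtain ⟨z, hz⟩ : ∃ z, z = ⌊Real.exp (ℓ / 128)⌋₊ := ⟨_, rfl⟩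
  have hz1 : (z : ℝ) ≤ Real.exp (ℓ / 128) := by rw [hz]; exact Nat.floor_le (Real.exp_pos _).le
  have hz2 : Real.exp (ℓ / 128) < z + 1 := by rw [hz]; exact Nat.lt_floor_add_one _
  have hwz : w ≤ z := by
    rw [hz]
    apply Nat.le_floor
    rw [← Real.log_le_iff_le_exp (by linarith)]
    have : Real.log w ≤ Real.log (w + 1) := Real.log_le_log (by linarith) (by linarith)
    linarith
  have hz7 : (7 : ℝ) ≤ z := by exact_mod_cast hw.trans hwz
  have hP1 : (PP w L).filter (fun p : ℕ => 128 * Real.log (p : ℝ) ≤ ℓ) = PP w z := by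
    ext p
    rw [mem_filter, mem_PP, mem_PP]
    constructor
    · rintro ⟨⟨a, b, c, d⟩, e⟩
      refine ⟨a, ?_, c, d⟩
      rw [hz]
      apply Nat.le_floor
      rw [← Real.log_le_iff_le_exp (by exact_mod_cast c.pos)]
      linarith
    · rintro ⟨a, b, c, d⟩
      have hp0 : (0 : ℝ) < p := by exact_mod_cast c.pos
      have hpz : (p : ℝ) ≤ z := by exact_mod_cast b
      have h1 : Real.log p ≤ ℓ / 128 := by
        rw [Real.log_le_iff_le_exp hp0]
        exact hpz.trans hz1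
      refine ⟨⟨a, ?_, c, d⟩, by linarith⟩
      have h2 : Real.log p ≤ Real.log L := by rw [← hℓd]; linarith
      have h3 := (Real.log_le_log_iff hp0 hL0).1 h2
      exact_mod_cast h3
  rw [hP1]
  have hlz : ℓ / 256 ≤ Real.log z := by
    have h1 : Real.exp (ℓ / 128) ≤ 2 * z := by linarith
    have h2 := Real.log_le_log (Real.exp_pos _) h1
    rw [Real.log_exp, Real.log_mul (by norm_num) (by linarith)] at h2
    have := Real.log_two_lt_d9
    linarith
  have hlw : 0 < Real.log w := Real.log_pos (by linarith)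
  have m1 := hC w L hw hwL
  have m2 := hC w z hw hwz
  rw [← hℓd] at m1
  have m3 : Real.log ℓ - Real.log 256 ≤ Real.log (Real.log z) := by
    rw [← Real.log_div (by linarith) (by norm_num)]
    exact Real.log_le_log (by linarith) hlz
  have hps : ∀ p ∈ PP w L, (7 : ℝ) ≤ p := by
    intro p hp
    rw [mem_PP] at hp
    exact_mod_cast hw.trans hp.1
  have hps' : ∀ p ∈ PP w z, (7 : ℝ) ≤ p := by
    intro p hp
    rw [mem_PP] at hp
    exact_mod_cast hw.trans hp.1
  have u1 : ∏ p ∈ PP w L, (1 - 1 / (p : ℝ)) ≤ Real.exp (-∑ p ∈ PP w L, 1 / (p : ℝ)) := by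
    rw [← sum_neg_distrib, Real.exp_sum]
    apply Finset.prod_le_prod
    · intro p hp
      have := hps p hp
      rw [sub_nonneg, div_le_one (by linarith)]
      linarith
    · intro p _
      have := Real.add_one_le_exp (-(1 / (p : ℝ)))
      linarith
  have u2 : Real.exp (∑ p ∈ PP w z, 1 / (p : ℝ) - 1) ≤ ∏ p ∈ PP w z, (1 + 1 / (p : ℝ)) := by
    have h1 : ∑ p ∈ PP w z, (1 / (p : ℝ)) ^ 2 ≤ 1 := by
      have h2 := tele w z (by omega)
      have h3 : 1 / ((w : ℝ) - 2) ≤ 1 := by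
        rw [div_le_one (by linarith)]
        linarith
      calc ∑ p ∈ PP w z, (1 / (p : ℝ)) ^ 2 ≤ ∑ p ∈ PP w z, 1 / (((p : ℝ) - 1) * ((p : ℝ) - 2)) := by
            apply sum_le_sum
            intro p hp
            have := hps' p hp
            rw [div_pow, one_pow]
            apply one_div_le_one_div_of_le
            · nlinarith
            · nlinarith
        _ ≤ ∑ n ∈ Icc w z, 1 / (((n : ℝ) - 1) * ((n : ℝ) - 2)) := by
            apply sum_le_sum_of_subset_of_nonneg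
            · intro p hp
              rw [mem_PP] at hp
              exact mem_Icc.2 ⟨hp.1, hp.2.1⟩
            · intro n hn _
              rw [mem_Icc] at hn
              have : (7 : ℝ) ≤ n := by exact_mod_cast hw.trans hn.1
              apply div_nonneg zero_le_one
              apply mul_nonneg <;> linarith
        _ ≤ 1 := h2.trans h3
    calc Real.exp (∑ p ∈ PP w z, 1 / (p : ℝ) - 1) ≤ Real.exp (∑ p ∈ PP w z, (1 / (p : ℝ) - (1 / (p : ℝ)) ^ 2)) := by
          apply Real.exp_le_exp.2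
          rw [sum_sub_distrib]
          linarith
      _ = ∏ p ∈ PP w z, Real.exp (1 / (p : ℝ) - (1 / (p : ℝ)) ^ 2) := Real.exp_sum _ _
      _ ≤ _ := by
          apply Finset.prod_le_prod
          · intro _ _
            exact (Real.exp_pos _).le
          · intro p _
            exact one_add_ge (by positivity)
  refine le_trans ?_ u2
  have hℓ0 : 0 < ℓ := by linarith
  have e1 : ℓ / Real.log w = Real.exp (Real.log ℓ - Real.log (Real.log w)) := by
    rw [Real.exp_sub, Real.exp_log hℓ0, Real.exp_log hlw]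
  rw [e1]
  calc Real.exp (-(2 * C) - 1 / 2 * Real.log 256 - 1) * Real.exp (Real.log ℓ - Real.log (Real.log w)) *
        ∏ p ∈ PP w L, (1 - 1 / (p : ℝ))
      ≤ Real.exp (-(2 * C) - 1 / 2 * Real.log 256 - 1) * Real.exp (Real.log ℓ - Real.log (Real.log w)) *
        Real.exp (-∑ p ∈ PP w L, 1 / (p : ℝ)) := by gcongr
    _ = Real.exp (-(2 * C) - 1 / 2 * Real.log 256 - 1 + (Real.log ℓ - Real.log (Real.log w)) +
        -∑ p ∈ PP w L, 1 / (p : ℝ)) := by rw [Real.exp_add, Real.exp_add]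
    _ ≤ _ := by
        apply Real.exp_le_exp.2
        linarith

end Pool.Agent.K9h54.LC
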