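import Pool.Agent.H442R2.EHI.PntErr
import Pool.Agent.H387R2.U3
import Pool.Agent.Y405.CQ.MER

set_option autoImplicit false

/-!
# Residues mod 4 of prime pairs in short windows: primes congruent to 3 modulo 4 in blocks
-/

namespace Pool.Agent.K9h54.LC

open Finset Filter Topology
open Pool.Agent.H442R2.EHI (lis pnt_err)

theorem lis_diff (a b : ℕ) (ha : 2 ≤ a) (hab : a ≤ b) : ((b : ℝ) - a) / Real.log b ≤ lis b - lis a := by
  unfold lis
  have h1 : Icc 2 b = Icc 2 a ∪ Ioc a b := by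
    ext n
    rw [mem_union, mem_Icc, mem_Icc, mem_Ioc]
    omega
  have h2 : Disjoint (Icc 2 a) (Ioc a b) := by
    rw [Finset.disjoint_left]
    intro n h3 h4
    rw [mem_Icc] at h3
    rw [mem_Ioc] at h4
    omega
  rw [h1, sum_union h2, add_sub_cancel_left]
  have hlb : 0 < Real.log b := Real.log_pos (by exact_mod_cast (by omega : 1 < b))
  calc ((b : ℝ) - a) / Real.log b = ∑ n ∈ Ioc a b, 1 / Real.log b := by
        rw [sum_const, Nat.card_Ioc, nsmul_eq_mul, Nat.cast_sub hab]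
        ring
    _ ≤ ∑ n ∈ Ioc a b, 1 / Real.log n := by
        apply sum_le_sum
        intro n hn
        rw [mem_Ioc] at hn
        have : 0 < Real.log n := Real.log_pos (by exact_mod_cast (by omega : 1 < n))
        apply one_div_le_one_div_of_le this
        apply Real.log_le_log
        · exact_mod_cast (by omega : 0 < n)
        · exact_mod_cast hn.2

/-- many primes `≡ 3 (mod 4)` between `a` and `b` -/
theorem nat_block : ∃ N₀ : ℕ, 100 ≤ N₀ ∧ ∀ a b : ℕ, N₀ ≤ a → (13 : ℝ) / 10 * a ≤ b → (b : ℝ) ≤ 2 * a →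
    (a : ℝ) / (10 * Real.log a) ≤ (((Ioc a b).filter (fun p => p.Prime ∧ p % 4 = 3)).card : ℝ) := by
  obtain ⟨C, hC⟩ := pnt_err 2
  obtain ⟨x0, hx0⟩ := Pool.Agent.H387R2.Uni.siegel
  have hlog : Tendsto (fun n : ℕ => Real.log (n : ℝ)) atTop atTop := Real.tendsto_log_atTop.comp tendsto_natCast_atTop_atTop
  obtain ⟨n1, hn1⟩ := eventually_atTop.1 (hlog.eventually_ge_atTop (max 100 (1000 * (|C| + 1))))
  refine ⟨max (max x0 n1) 100, le_max_right _ _, fun a b ha hab hba => ?_⟩
  have ha0 : x0 ≤ a := ((le_max_left _ _).trans (le_max_left _ _)).trans ha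
  have ha1 : n1 ≤ a := ((le_max_right _ _).trans (le_max_left _ _)).trans ha
  have ha2 : 100 ≤ a := (le_max_right _ _).trans ha
  have har : (100 : ℝ) ≤ a := by exact_mod_cast ha2
  have hle : a ≤ b := by
    have : (a : ℝ) ≤ b := by linarith
    exact_mod_cast this
  have hla := hn1 a ha1
  have hl1 : 100 ≤ Real.log a := (le_max_left _ _).trans hla
  have hl2 : 1000 * (|C| + 1) ≤ Real.log a := (le_max_right _ _).trans hla
  have hlab : Real.log a ≤ Real.log b := Real.log_le_log (by linarith) (by exact_mod_cast hle)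
  have hlb : Real.log b ≤ Real.log a + 1 := by
    have h1 := Real.log_le_log (by linarith : (0 : ℝ) < b) hba
    rw [Real.log_mul (by norm_num) (by linarith)] at h1
    have := Real.log_two_lt_d9
    linarith
  have key : ∀ x : ℕ, a ≤ x → |H343E.piAP x 4 3 - 1 / 2 * lis x| ≤ (|C| + 1) * (x / Real.log x ^ 2) := by
    intro x hx
    have hxa : (a : ℝ) ≤ x := by exact_mod_cast hx
    have hlx : Real.log a ≤ Real.log x := Real.log_le_log (by linarith) hxa
    have h1 := hx0 x (ha0.trans hx) 4 (by norm_num) (by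
      push_cast
      nlinarith) 3 (by norm_num) (by decide)
    have h2 := hC x (by omega)
    have e1 : (((Icc 1 x).filter (fun p : ℕ => p.Prime)).card : ℝ) = H343E.pi1 x := rfl
    have e2 : ((Nat.totient 4 : ℕ) : ℝ) = 2 := by
      have : Nat.totient 4 = 2 := by decide
      rw [this]
      norm_num
    rw [e1, mul_div_assoc] at h2
    rw [e2] at h1
    have hx1 : (x : ℝ) / Real.log x ^ 6 ≤ x / Real.log x ^ 2 := by
      apply div_le_div_of_nonneg_left (by linarith) (by
        have : 0 < Real.log x := by linarith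
        positivity)
      exact pow_le_pow_right₀ (by linarith) (by norm_num)
    have hx2 : 0 ≤ (x : ℝ) / Real.log x ^ 2 := by positivity
    have hCa : C * (x / Real.log x ^ 2) ≤ |C| * (x / Real.log x ^ 2) := mul_le_mul_of_nonneg_right (le_abs_self C) hx2
    have hCn : 0 ≤ |C| * (x / Real.log x ^ 2) := by positivity
    rw [abs_le] at h1 h2 ⊢
    constructor
    · nlinarith [h1.1, h1.2, h2.1, h2.2]
    · nlinarith [h1.1, h1.2, h2.1, h2.2]
  have ka := (abs_le.1 (key a le_rfl)).2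
  have kb := (abs_le.1 (key b hle)).1
  have hd := lis_diff a b (by omega) hle
  have ecard : H343E.piAP b 4 3 - H343E.piAP a 4 3 = (((Ioc a b).filter (fun p => p.Prime ∧ p % 4 = 3)).card : ℝ) := by
    unfold H343E.piAP
    have k3 : (Icc 1 b).filter (fun p => p.Prime ∧ p ≡ 3 [MOD 4]) =
        (Icc 1 a).filter (fun p => p.Prime ∧ p ≡ 3 [MOD 4]) ∪ (Ioc a b).filter (fun p => p.Prime ∧ p % 4 = 3) := by
      ext p
      rw [mem_union, mem_filter, mem_filter, mem_filter, mem_Icc, mem_Icc, mem_Ioc]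
      unfold Nat.ModEq
      constructor
      · rintro ⟨a1, b1, c1⟩
        rcases le_or_gt p a with h | h
        · exact Or.inl ⟨⟨a1.1, h⟩, b1, c1⟩
        · exact Or.inr ⟨⟨h, a1.2⟩, b1, c1⟩
      · rintro (⟨a1, b1, c1⟩ | ⟨a1, b1, c1⟩)
        · exact ⟨⟨a1.1, a1.2.trans hle⟩, b1, c1⟩
        · exact ⟨⟨b1.one_lt.le, a1.2⟩, b1, c1⟩
    have k4 : Disjoint ((Icc 1 a).filter (fun p => p.Prime ∧ p ≡ 3 [MOD 4])) ((Ioc a b).filter (fun p => p.Prime ∧ p % 4 = 3)) := by
      rw [Finset.disjoint_left]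
      intro p h1 h2
      rw [mem_filter, mem_Icc] at h1
      rw [mem_filter, mem_Ioc] at h2
      omega
    rw [k3, card_union_of_disjoint k4]
    push_cast
    ring
  rw [← ecard]
  have hla0 : 0 < Real.log a := by linarith
  have hlb0 : 0 < Real.log b := by linarith
  have q1 : (a : ℝ) / Real.log a ^ 2 ≤ 1 / 1000 * (a / Real.log a) / (|C| + 1) := by
    rw [div_le_div_iff₀ (by positivity) (by positivity)]
    have e : 1 / 1000 * ((a : ℝ) / Real.log a) * Real.log a ^ 2 = 1 / 1000 * a * Real.log a := by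
      field_simp
    rw [e]
    have : 0 ≤ (a : ℝ) := by linarith
    nlinarith
  have q2 : (b : ℝ) / Real.log b ^ 2 ≤ 2 * (a / Real.log a ^ 2) := by
    rw [← mul_div_assoc]
    gcongr
  have q3 : (|C| + 1) * ((a : ℝ) / Real.log a ^ 2) ≤ 1 / 1000 * (a / Real.log a) := by
    have := mul_le_mul_of_nonneg_left q1 (by positivity : 0 ≤ |C| + 1)
    have e : (|C| + 1) * (1 / 1000 * ((a : ℝ) / Real.log a) / (|C| + 1)) = 1 / 1000 * (a / Real.log a) := by
      field_simp
    linarith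
  have q4 : (|C| + 1) * ((b : ℝ) / Real.log b ^ 2) ≤ 2 / 1000 * (a / Real.log a) := by
    have := mul_le_mul_of_nonneg_left q2 (by positivity : 0 ≤ |C| + 1)
    nlinarith
  have q5 : 29 / 100 * ((a : ℝ) / Real.log a) ≤ ((b : ℝ) - a) / Real.log b := by
    rw [← mul_div_assoc, div_le_div_iff₀ hla0 hlb0]
    have k1 : (3 : ℝ) / 10 * a ≤ b - a := by linarith
    calc 29 / 100 * (a : ℝ) * Real.log b ≤ 29 / 100 * (a : ℝ) * (Real.log a + 1) := by gcongr
      _ ≤ 3 / 10 * a * Real.log a := by nlinarith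
      _ ≤ _ := mul_le_mul_of_nonneg_right k1 hla0.le
  have q6 : (a : ℝ) / (10 * Real.log a) = 1 / 10 * (a / Real.log a) := by
    field_simp
  rw [q6]
  have q7 : 0 ≤ (a : ℝ) / Real.log a := by positivity
  linarith

/-- the primes `≡ 3 (mod 4)` in `[T, 7 T / 5)` -/
noncomputable def Bl (T : ℝ) : Finset ℕ := (range ⌈7 * T / 5⌉₊).filter (fun p => p.Prime ∧ p % 4 = 3 ∧ T ≤ p)

theorem mem_Bl {T : ℝ} {p : ℕ} : p ∈ Bl T ↔ p.Prime ∧ p % 4 = 3 ∧ T ≤ p ∧ (p : ℝ) < 7 * T / 5 := by
  unfold Bl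
  rw [mem_filter, mem_range, Nat.lt_ceil]
  tauto

theorem block : ∃ T₀ : ℝ, 100 ≤ T₀ ∧ ∀ T : ℝ, T₀ ≤ T → T / (20 * Real.log T) ≤ ((Bl T).card : ℝ) := by
  obtain ⟨N₀, hN, h⟩ := nat_block
  refine ⟨N₀ + 100, by
    have : (0 : ℝ) ≤ N₀ := Nat.cast_nonneg _
    linarith, fun T hT => ?_⟩
  have hNr : (100 : ℝ) ≤ N₀ := by exact_mod_cast hN
  obtain ⟨a, ha⟩ : ∃ a, a = ⌈T⌉₊ - 1 := ⟨_, rfl⟩
  obtain ⟨b, hb⟩ : ∃ b, b = ⌈7 * T / 5⌉₊ - 1 := ⟨_, rfl⟩
  have hT0 : 0 < T := by linarith
  have c1 : 1 ≤ ⌈T⌉₊ := Nat.one_le_ceil_iff.2 hT0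
  have c2 : 1 ≤ ⌈7 * T / 5⌉₊ := Nat.one_le_ceil_iff.2 (by positivity)
  have a1 : (a : ℝ) + 1 = ⌈T⌉₊ := by
    rw [ha]
    push_cast [Nat.cast_sub c1]
    ring
  have b1 : (b : ℝ) + 1 = ⌈7 * T / 5⌉₊ := by
    rw [hb]
    push_cast [Nat.cast_sub c2]
    ring
  have a2 : T ≤ (a : ℝ) + 1 := by rw [a1]; exact Nat.le_ceil _
  have a3 : (a : ℝ) < T := by
    have := Nat.ceil_lt_add_one hT0.le
    rw [← a1] at this
    linarith
  have b2 : 7 * T / 5 ≤ (b : ℝ) + 1 := by rw [b1]; exact Nat.le_ceil _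
  have b3 : (b : ℝ) < 7 * T / 5 := by
    have := Nat.ceil_lt_add_one (show 0 ≤ 7 * T / 5 by positivity)
    rw [← b1] at this
    linarith
  have haN : N₀ ≤ a := by
    have : (N₀ : ℝ) ≤ a := by linarith
    exact_mod_cast this
  have h1 := h a b haN (by linarith) (by linarith)
  have h2 : (Ioc a b).filter (fun p => p.Prime ∧ p % 4 = 3) ⊆ Bl T := by
    intro p hp
    rw [mem_filter, mem_Ioc] at hp
    rw [mem_Bl]
    refine ⟨hp.2.1, hp.2.2, ?_, ?_⟩
    · have : (a : ℝ) + 1 ≤ p := by exact_mod_cast hp.1.1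
      linarith
    · have : (p : ℝ) ≤ b := by exact_mod_cast hp.1.2
      linarith
  have h3 : (((Ioc a b).filter (fun p => p.Prime ∧ p % 4 = 3)).card : ℝ) ≤ ((Bl T).card : ℝ) := by
    exact_mod_cast card_le_card h2
  refine le_trans ?_ (h1.trans h3)
  have la : 0 < Real.log a := Real.log_pos (by linarith)
  have lT : 0 < Real.log T := Real.log_pos (by linarith)
  have laT : Real.log a ≤ Real.log T := Real.log_le_log (by linarith) a3.le
  rw [div_le_div_iff₀ (by positivity) (by positivity)]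
  nlinarith

/-- the sum over the reciprocals in a block -/
theorem block_sum : ∃ T₀ : ℝ, 100 ≤ T₀ ∧ ∀ T : ℝ, T₀ ≤ T → 1 / (28 * Real.log T) ≤ ∑ p ∈ Bl T, 1 / (p : ℝ) := by
  obtain ⟨T₀, hT₀, h⟩ := block
  refine ⟨T₀, hT₀, fun T hT => ?_⟩
  have h1 := h T hT
  have hT0 : 0 < T := by linarith
  have lT : 0 < Real.log T := Real.log_pos (by linarith)
  calc 1 / (28 * Real.log T) = T / (20 * Real.log T) * (1 / (7 * T / 5)) := by
        field_simp
        norm_num
    _ ≤ (Bl T).card * (1 / (7 * T / 5)) := by gcongr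
    _ = ∑ p ∈ Bl T, 1 / (7 * T / 5) := by rw [sum_const, nsmul_eq_mul]
    _ ≤ _ := by
        apply sum_le_sum
        intro p hp
        rw [mem_Bl] at hp
        apply one_div_le_one_div_of_le
        · linarith [hp.2.2.1]
        · exact hp.2.2.2.le

/-- sums over long ranges -/
theorem range_sum : ∃ a₀ : ℝ, 1 ≤ a₀ ∧ ∀ a b : ℝ, a₀ ≤ a → a ≤ b → ∀ R : Finset ℕ,
    (∀ p : ℕ, p.Prime → p % 4 = 3 → a ≤ Real.log p → Real.log p < b → p ∈ R) →
      (2 * (b - a) - 1) / (28 * b) ≤ ∑ p ∈ R, 1 / (p : ℝ) := by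
  obtain ⟨T₀, hT₀, h⟩ := block_sum
  refine ⟨max 1 (Real.log T₀), le_max_left _ _, fun a b ha hab R hR => ?_⟩
  have ha1 : 1 ≤ a := (le_max_left _ _).trans ha
  have haT : Real.log T₀ ≤ a := (le_max_right _ _).trans ha
  obtain ⟨lam, hlam⟩ : ∃ lam, lam = Real.log (7 / 5) := ⟨_, rfl⟩
  have hlam0 : 0 < lam := by rw [hlam]; exact Real.log_pos (by norm_num)
  have hlam1 : lam ≤ 1 / 2 := by
    rw [hlam]
    have := Real.log_le_sub_one_of_pos (show (0 : ℝ) < 7 / 5 by norm_num)
    linarith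
  -- induction
  have key : ∀ i : ℕ, a + i * lam ≤ b → (i : ℝ) * (1 / (28 * b)) ≤
      ∑ p ∈ R.filter (fun p : ℕ => Real.log (p : ℝ) < a + i * lam ∧ p.Prime ∧ p % 4 = 3 ∧ a ≤ Real.log (p : ℝ)), 1 / (p : ℝ) := by
    intro i
    induction i with
    | zero =>
      intro _
      simp only [Nat.cast_zero, zero_mul]
      exact sum_nonneg fun _ _ => by positivity
    | succ i ih =>
      intro hi
      have hi' : a + i * lam ≤ b := by
        push_cast at hi
        nlinarith
      have h1 := ih hi'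
      obtain ⟨T, hT⟩ : ∃ T, T = Real.exp (a + i * lam) := ⟨_, rfl⟩
      have hil : 0 ≤ (i : ℝ) * lam := by positivity
      have hTT : T₀ ≤ T := by
        rw [hT, ← Real.log_le_iff_le_exp (by linarith)]
        linarith
      have hlT : Real.log T = a + i * lam := by rw [hT, Real.log_exp]
      have h2 := h T hTT
      rw [hlT] at h2
      have h3 : 1 / (28 * b) ≤ 1 / (28 * (a + i * lam)) := by
        apply one_div_le_one_div_of_le
        · nlinarith
        · linarith
      have hdisj : Disjoint (R.filter (fun p : ℕ => Real.log (p : ℝ) < a + i * lam ∧ p.Prime ∧ p % 4 = 3 ∧ a ≤ Real.log (p : ℝ)))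
          (Bl T) := by
        rw [Finset.disjoint_left]
        intro p h4 h5
        rw [mem_filter] at h4
        rw [mem_Bl] at h5
        have h6 : Real.log T ≤ Real.log p := Real.log_le_log (by linarith) h5.2.2.1
        rw [hlT] at h6
        linarith [h4.2.1]
      have hsub : (R.filter (fun p : ℕ => Real.log (p : ℝ) < a + i * lam ∧ p.Prime ∧ p % 4 = 3 ∧ a ≤ Real.log (p : ℝ))) ∪ Bl T ⊆
          R.filter (fun p : ℕ => Real.log (p : ℝ) < a + ((i + 1 : ℕ) : ℝ) * lam ∧ p.Prime ∧ p % 4 = 3 ∧ a ≤ Real.log (p : ℝ)) := by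
        intro p hp
        rw [mem_union] at hp
        rw [mem_filter]
        rcases hp with hp | hp
        · rw [mem_filter] at hp
          refine ⟨hp.1, ?_, hp.2.2⟩
          push_cast
          linarith [hp.2.1]
        · rw [mem_Bl] at hp
          obtain ⟨k1, k2, k3, k4⟩ := hp
          have hp0 : (0 : ℝ) < p := by exact_mod_cast k1.pos
          have h6 : Real.log T ≤ Real.log p := Real.log_le_log (by linarith) k3
          rw [hlT] at h6
          have h7 : Real.log p < a + ((i + 1 : ℕ) : ℝ) * lam := by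
            have h8 := Real.log_lt_log hp0 k4
            have h9 : Real.log (7 * T / 5) = lam + (a + i * lam) := by
              rw [← hlT, hlam, ← Real.log_mul (by norm_num) (by linarith)]
              congr 1
              ring
            rw [h9] at h8
            push_cast
            linarith
          exact ⟨hR p k1 k2 (by linarith) (by linarith), h7, k1, k2, by linarith⟩
      have h4 := sum_le_sum_of_subset_of_nonneg (f := fun p : ℕ => 1 / (p : ℝ)) hsub (fun _ _ _ => by positivity)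
      rw [sum_union hdisj] at h4
      push_cast
      push_cast at h4
      linarith
  obtain ⟨I, hI⟩ : ∃ I : ℕ, I = ⌊(b - a) / lam⌋₊ := ⟨_, rfl⟩
  have hba : 0 ≤ (b - a) / lam := div_nonneg (by linarith) hlam0.le
  have hI1 : (I : ℝ) ≤ (b - a) / lam := by rw [hI]; exact Nat.floor_le hba
  have hI2 : (b - a) / lam - 1 ≤ I := by
    have := Nat.lt_floor_add_one ((b - a) / lam)
    rw [← hI] at this
    linarith
  have h1 := key I (by
    rw [le_div_iff₀ hlam0] at hI1
    linarith)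
  have h2 : 2 * (b - a) - 1 ≤ I := by
    refine le_trans ?_ hI2
    have : 2 * (b - a) ≤ (b - a) / lam := by
      rw [le_div_iff₀ hlam0]
      nlinarith
    linarith
  have h3 : ∑ p ∈ R.filter (fun p : ℕ => Real.log (p : ℝ) < a + I * lam ∧ p.Prime ∧ p % 4 = 3 ∧ a ≤ Real.log (p : ℝ)), 1 / (p : ℝ) ≤
      ∑ p ∈ R, 1 / (p : ℝ) := sum_le_sum_of_subset_of_nonneg (filter_subset _ _) fun _ _ _ => by positivity
  refine le_trans ?_ (h1.trans h3)
  rw [mul_one_div]
  apply div_le_div_of_nonneg_right h2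
  nlinarith

end Pool.Agent.K9h54.LC
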