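import Mathlib
import Pool.Agent.Erdos456.Mertens

set_option autoImplicit false

/-!
# Residues mod 4 of prime pairs in short windows: Rankin's trick
-/

namespace Pool.Agent.K9h54.LC

open Finset

theorem exp_lin {t : ℝ} (h0 : 0 ≤ t) (h1 : t ≤ 1) : Real.exp t - 1 ≤ 3 * t := by
  have h := convexOn_exp.2 (Set.mem_univ (0 : ℝ)) (Set.mem_univ (1 : ℝ))
    (show 0 ≤ 1 - t by linarith) h0 (by ring)
  simp only [smul_eq_mul] at h
  rw [mul_zero, zero_add, mul_one, Real.exp_zero] at h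
  have := Real.exp_one_lt_d9
  nlinarith

theorem rankin (Q : Finset ℕ) (ℓ D K : ℝ) (hQ : ∀ p ∈ Q, 2 ≤ p) (hz : ∀ p ∈ Q, Real.log p ≤ ℓ) (hℓ : 0 < ℓ)
    (g : ℕ → ℝ) (hg : ∀ p ∈ Q, 0 ≤ g p ∧ g p ≤ 2 / p) (hM : ∑ p ∈ Q, Real.log p / p ≤ K * ℓ) :
    ∑ A ∈ Q.powerset.filter (fun A : Finset ℕ => D < ∑ p ∈ A, Real.log (p : ℝ)), ∏ p ∈ A, g p ≤
      Real.exp (6 * K - D / ℓ) * ∏ p ∈ Q, (1 + g p) := by
  classical
  have h1 : ∑ A ∈ Q.powerset.filter (fun A : Finset ℕ => D < ∑ p ∈ A, Real.log (p : ℝ)), ∏ p ∈ A, g p ≤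
      ∑ A ∈ Q.powerset, Real.exp (-D / ℓ) * ∏ p ∈ A, (g p * Real.exp (Real.log p / ℓ)) := by
    rw [sum_filter]
    apply sum_le_sum
    intro A hA
    rw [mem_powerset] at hA
    have k0 : 0 ≤ ∏ p ∈ A, g p := prod_nonneg fun p hp => (hg p (hA hp)).1
    have k1 : Real.exp (-D / ℓ) * ∏ p ∈ A, (g p * Real.exp (Real.log p / ℓ)) =
        Real.exp (((∑ p ∈ A, Real.log (p : ℝ)) - D) / ℓ) * ∏ p ∈ A, g p := by
      rw [prod_mul_distrib, ← Real.exp_sum, ← sum_div]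
      rw [show ((∑ p ∈ A, Real.log (p : ℝ)) - D) / ℓ = -D / ℓ + (∑ p ∈ A, Real.log (p : ℝ)) / ℓ by ring, Real.exp_add]
      ring
    rw [k1]
    split_ifs with h
    · have k2 : (1 : ℝ) ≤ Real.exp (((∑ p ∈ A, Real.log (p : ℝ)) - D) / ℓ) := by
        rw [Real.one_le_exp_iff]
        apply div_nonneg _ hℓ.le
        linarith
      nlinarith
    · positivity
  refine h1.trans ?_
  rw [← mul_sum, ← prod_one_add]
  have h2 : ∏ p ∈ Q, (1 + g p * Real.exp (Real.log p / ℓ)) ≤ ∏ p ∈ Q, ((1 + g p) * Real.exp (6 / ℓ * (Real.log p / p))) := by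
    apply prod_le_prod
    · intro p hp
      have := (hg p hp).1
      positivity
    · intro p hp
      obtain ⟨g0, g1⟩ := hg p hp
      have hp2 : (2 : ℝ) ≤ p := by exact_mod_cast hQ p hp
      have hlp : 0 ≤ Real.log p := Real.log_nonneg (by linarith)
      have t0 : 0 ≤ Real.log p / ℓ := by positivity
      have t1 : Real.log p / ℓ ≤ 1 := (div_le_one hℓ).2 (hz p hp)
      have k1 := exp_lin t0 t1
      have k2 : 1 ≤ Real.exp (Real.log p / ℓ) := Real.one_le_exp_iff.2 t0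
      have k3 : g p * (Real.exp (Real.log p / ℓ) - 1) ≤ 6 / ℓ * (Real.log p / p) := by
        calc g p * (Real.exp (Real.log p / ℓ) - 1) ≤ 2 / p * (3 * (Real.log p / ℓ)) := by
              apply mul_le_mul g1 k1 (by linarith) (by positivity)
          _ = _ := by
              field_simp
              ring
      have k4 := Real.add_one_le_exp (6 / ℓ * (Real.log p / p))
      have k5 : 1 + g p * Real.exp (Real.log p / ℓ) ≤ (1 + g p) * (1 + g p * (Real.exp (Real.log p / ℓ) - 1)) := by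
        have : 0 ≤ g p * (g p * (Real.exp (Real.log p / ℓ) - 1)) := by
          have : 0 ≤ Real.exp (Real.log p / ℓ) - 1 := by linarith
          positivity
        nlinarith
      refine k5.trans ?_
      apply mul_le_mul_of_nonneg_left _ (by linarith)
      linarith
  calc Real.exp (-D / ℓ) * ∏ p ∈ Q, (1 + g p * Real.exp (Real.log p / ℓ))
      ≤ Real.exp (-D / ℓ) * ∏ p ∈ Q, ((1 + g p) * Real.exp (6 / ℓ * (Real.log p / p))) :=
        mul_le_mul_of_nonneg_left h2 (Real.exp_pos _).le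
    _ = Real.exp (-D / ℓ) * Real.exp (6 / ℓ * ∑ p ∈ Q, (Real.log p / p)) * ∏ p ∈ Q, (1 + g p) := by
        rw [prod_mul_distrib, ← Real.exp_sum, mul_sum]
        ring
    _ ≤ Real.exp (6 * K - D / ℓ) * ∏ p ∈ Q, (1 + g p) := by
        rw [← Real.exp_add]
        have k0 : 0 ≤ ∏ p ∈ Q, (1 + g p) := prod_nonneg fun p hp => by linarith [(hg p hp).1]
        apply mul_le_mul_of_nonneg_right _ k0
        apply Real.exp_le_exp.2
        have k1 : 6 / ℓ * ∑ p ∈ Q, (Real.log p / p) ≤ 6 / ℓ * (K * ℓ) := by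
          apply mul_le_mul_of_nonneg_left hM (by positivity)
        have k2 : 6 / ℓ * (K * ℓ) = 6 * K := by field_simp
        have k3 : -D / ℓ = - (D / ℓ) := by ring
        rw [k3]
        linarith

/-- most of the mass lies on small products -/
theorem half_mass : ∃ ℓ₀ : ℝ, 1 ≤ ℓ₀ ∧ ∀ ℓ D : ℝ, ℓ₀ ≤ ℓ → 16 * ℓ ≤ D → ∀ Q : Finset ℕ,
    (∀ p ∈ Q, p.Prime ∧ Real.log p ≤ ℓ) → ∀ g : ℕ → ℝ, (∀ p ∈ Q, 0 ≤ g p ∧ g p ≤ 2 / p) →
      1 / 2 * ∏ p ∈ Q, (1 + g p) ≤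
        ∑ A ∈ Q.powerset.filter (fun A : Finset ℕ => ∑ p ∈ A, Real.log (p : ℝ) ≤ D), ∏ p ∈ A, g p := by
  classical
  obtain ⟨C, hC⟩ := Pool.Agent.Erdos456.Mert.mertens_log
  refine ⟨max 1 C, le_max_left _ _, fun ℓ D hℓ hD Q hQ g hg => ?_⟩
  have hℓ1 : 1 ≤ ℓ := (le_max_left _ _).trans hℓ
  have hℓC : C ≤ ℓ := (le_max_right _ _).trans hℓ
  have hM : ∑ p ∈ Q, Real.log p / p ≤ 2 * ℓ := by
    set N := ⌊Real.exp ℓ⌋₊ with hN
    have hN1 : 1 ≤ N := Nat.le_floor (by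
      rw [Nat.cast_one]
      exact Real.one_le_exp_iff.2 (by linarith))
    have h1 := (abs_le.1 (hC N hN1)).2
    have h2 : ∑ p ∈ Q, Real.log p / p ≤ ∑ p ∈ (Icc 1 N).filter Nat.Prime, Real.log p / p := by
      apply sum_le_sum_of_subset_of_nonneg
      · intro p hp
        obtain ⟨k1, k2⟩ := hQ p hp
        rw [mem_filter, mem_Icc]
        refine ⟨⟨k1.one_le, Nat.le_floor ?_⟩, k1⟩
        rw [← Real.log_le_iff_le_exp (by exact_mod_cast k1.pos)]
        exact k2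
      · intro p _ _
        have := Real.log_natCast_nonneg p
        positivity
    have h3 : Real.log N ≤ ℓ := by
      rw [Real.log_le_iff_le_exp (by exact_mod_cast hN1)]
      exact Nat.floor_le (Real.exp_pos _).le
    linarith
  have h := rankin Q ℓ D 2 (fun p hp => (hQ p hp).1.two_le) (fun p hp => (hQ p hp).2) (by linarith) g hg hM
  have h1 : Real.exp (6 * 2 - D / ℓ) ≤ 1 / 2 := by
    have k1 : 16 ≤ D / ℓ := by rw [le_div_iff₀ (by linarith)]; exact hD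
    calc Real.exp (6 * 2 - D / ℓ) ≤ Real.exp (-1) := Real.exp_le_exp.2 (by linarith)
      _ ≤ 1 / 2 := by
          rw [Real.exp_neg, ← one_div]
          apply one_div_le_one_div_of_le (by norm_num)
          have := Real.exp_one_gt_d9
          linarith
  have h2 : ∏ p ∈ Q, (1 + g p) = ∑ A ∈ Q.powerset, ∏ p ∈ A, g p := prod_one_add Q
  have h3 := sum_filter_add_sum_filter_not Q.powerset (fun A : Finset ℕ => ∑ p ∈ A, Real.log (p : ℝ) ≤ D) (fun A => ∏ p ∈ A, g p)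
  have h4 : 0 ≤ ∏ p ∈ Q, (1 + g p) := prod_nonneg fun p hp => by linarith [(hg p hp).1]
  have h5 : ∑ A ∈ Q.powerset.filter (fun A : Finset ℕ => ¬ ∑ p ∈ A, Real.log (p : ℝ) ≤ D), ∏ p ∈ A, g p =
      ∑ A ∈ Q.powerset.filter (fun A : Finset ℕ => D < ∑ p ∈ A, Real.log (p : ℝ)), ∏ p ∈ A, g p := by
    apply sum_congr _ fun _ _ => rfl
    apply filter_congr
    intro A _
    rw [not_le]
  rw [h5, ← h2] at h3
  nlinarith

end Pool.Agent.K9h54.LC
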