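import Pool.Agent.K9h54.MP.Row
import Pool.Agent.K9h54.LC.Var2

set_option autoImplicit false

/-!
# Residues mod 4 of prime pairs in short windows: the columns of the matrix
-/

namespace Pool.Agent.K9h54.LC

open Finset Filter Topology
open Pool.Agent.H373R2.T7 (lamz Vz pz Vz_pos mem_pz singZ)
open Pool.Agent.W93.GB (sh)
open Pool.Agent.K9h54.MP

open scoped ArithmeticFunction.vonMangoldt

/-- one column of the matrix -/
theorem col2 (E U : ℕ) : ∀ᶠ l : ℝ in atTop, APl l → ∀ z : ℕ, 3 ≤ z → (z : ℝ) ≤ Real.log (NN l) ^ E →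
    ∀ (P : Finset ℕ), (∀ p ∈ P, p.Prime ∧ 5 ≤ p) → (∀ p ∈ P, p ≤ z) →
      ((6 * (2 * ∏ p ∈ P, p) : ℕ) : ℝ) ≤ Real.exp (l / 300) → ∀ X Y u₀ : ℕ, 18 * X + 6 * Y + 2 ≤ NN l →
        (∏ p ∈ P, p) ∣ u₀ → ∀ a ∈ Icc 1 X, ¬ Bad l z U X Y u₀ (2 * ∏ p ∈ P, p) a →
          ∀ c ∈ KL (CC P Y) P a,
          |∑ u ∈ (Ioc X (2 * X)).filter (fun u => u ≡ u₀ [MOD 2 * ∏ p ∈ P, p]),
            Λ (6 * (u + c) - 1) * Λ (6 * (u + c) - 1 + (6 * a + 2)) -
            (3 * X : ℝ) / (((∏ p ∈ P, p : ℕ) : ℝ) * ∏ p ∈ P, (1 - 1 / (p : ℝ))) *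
              (singZ (sh (6 * a + 2)) z / PI P (6 * a + 2))| ≤
            3 * (NN l : ℝ) / (((6 * (2 * ∏ p ∈ P, p) : ℕ) : ℝ) * Real.log (NN l) ^ U) := by
  filter_upwards [sieve_main E U] with l h1 hAP z hz3 hzE P hP hPz hQE X Y u₀ hX hu₀ a ha hbad c hc
  rw [mem_Icc] at ha
  obtain ⟨q, hq⟩ : ∃ q, q = ∏ p ∈ P, p := ⟨_, rfl⟩
  rw [← hq] at hQE hu₀ hbad ⊢
  obtain ⟨h, hh⟩ : ∃ h, h = 6 * a + 2 := ⟨_, rfl⟩
  rw [← hh]
  have hq0 : 0 < q := by
    rw [hq]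
    exact prod_pos fun p hp => (hP p hp).1.pos
  have hqr : (0 : ℝ) < q := by exact_mod_cast hq0
  set B : ℝ := ∏ p ∈ P, (1 - 1 / (p : ℝ)) with hB
  have hB0 : 0 < B := by
    rw [hB]
    apply prod_pos
    intro p hp
    have h5 : (5 : ℝ) ≤ p := by exact_mod_cast (hP p hp).2
    rw [sub_pos, div_lt_one (by linarith)]
    linarith
  have hφq : ((Nat.totient q : ℕ) : ℝ) = q * B := by
    rw [hq, tot_prod P fun p hp => (hP p hp).1, hB]
    push_cast
    rw [← prod_mul_distrib]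
    apply prod_congr rfl
    intro p hp
    have h5 : (5 : ℝ) ≤ p := by exact_mod_cast (hP p hp).2
    field_simp
  have hcop6 : Nat.Coprime 6 q := by
    rw [hq, Nat.coprime_prod_right_iff]
    intro p hp
    exact cop6 (hP p hp).1 (hP p hp).2
  have hcop12 : Nat.Coprime 12 q := by
    have : (12 : ℕ) = 2 * 6 := by norm_num
    rw [this, Nat.coprime_mul_iff_left]
    exact ⟨hcop6.coprime_dvd_left (by norm_num), hcop6⟩
  have hφQ : ((Nat.totient (6 * (2 * q)) : ℕ) : ℝ) = 4 * (q * B) := by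
    have e : 6 * (2 * q) = 12 * q := by ring
    rw [e, Nat.totient_mul hcop12, Nat.cast_mul, hφq]
    have : Nat.totient 12 = 4 := by decide
    rw [this]
    norm_num
  set W : ℝ := (Vz z)⁻¹ * ∏ p ∈ (pz z).filter (fun p => ¬ p ∣ 6 * (2 * q)), (1 - gh h p) with hW
  have hWeq : W * (1 / 2 * PI P h) = singZ (sh h) z := by
    have e1 : (pz z).filter (fun p => ¬ p ∣ 6 * (2 * q)) = (pz z).filter (fun p => ¬ p ∣ 6 * q) := by
      apply filter_congr
      intro p hp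
      have hpp := (mem_pz.1 hp).2
      have e : 6 * (2 * q) = 2 * (6 * q) := by ring
      rw [e, hpp.dvd_mul]
      constructor
      · intro h1 h2
        exact h1 (Or.inr h2)
      · intro h1 h2
        rcases h2 with h2 | h2
        · exact h1 (h2.trans ⟨3 * q, by ring⟩)
        · exact h1 h2
    rw [hW, e1, hq, hh]
    exact W_eq P hP z hz3 hPz a
  have hPI := PI_pos P hP h
  unfold KL CC at hc
  rw [mem_filter, mem_filter] at hc
  obtain ⟨⟨hcY, hcC⟩, hcK⟩ := hc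
  have hc1 := mem_Icc.1 hcY
  obtain ⟨s, hs⟩ : ∃ s, s = 6 * (u₀ + c) - 1 := ⟨_, rfl⟩
  have hpu : ∀ p ∈ P, p ∣ 6 * u₀ := by
    intro p hp
    have hpq : p ∣ q := by rw [hq]; exact dvd_prod_of_mem _ hp
    exact (hpq.trans hu₀).mul_left 6
  have hs6 : Nat.Coprime s 6 := by
    have k1 : s = 6 * (u₀ + c - 1) + 5 := by omega
    rw [k1, Nat.coprime_comm, Nat.coprime_mul_left_add_right]
    norm_num
  have hsc : s.Coprime (6 * (2 * q)) := by
    rw [Nat.coprime_mul_iff_right, Nat.coprime_mul_iff_right]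
    refine ⟨hs6, hs6.coprime_dvd_right (by norm_num), ?_⟩
    rw [hq, Nat.coprime_prod_right_iff]
    intro p hp
    rw [Nat.coprime_comm, (hP p hp).1.coprime_iff_not_dvd]
    intro hd
    apply hcC p hp
    have k1 : s = 6 * u₀ + (6 * c - 1) := by omega
    rw [k1] at hd
    exact (Nat.dvd_add_right (hpu p hp)).1 hd
  have hsh6 : Nat.Coprime (s + h) 6 := by
    have k1 : s + h = 6 * (u₀ + c + a) + 1 := by omega
    rw [k1, Nat.coprime_comm, Nat.coprime_mul_left_add_right]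
    norm_num
  have hshc : (s + h).Coprime (6 * (2 * q)) := by
    rw [Nat.coprime_mul_iff_right, Nat.coprime_mul_iff_right]
    refine ⟨hsh6, hsh6.coprime_dvd_right (by norm_num), ?_⟩
    rw [hq, Nat.coprime_prod_right_iff]
    intro p hp
    rw [Nat.coprime_comm, (hP p hp).1.coprime_iff_not_dvd]
    intro hd
    apply hcK p hp
    have k1 : s + h = 6 * u₀ + (6 * c + 6 * a + 1) := by omega
    rw [k1] at hd
    exact (Nat.dvd_add_right (hpu p hp)).1 hd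
  -- splitting
  have e1 := col_sum (fun m => Λ m * Λ (m + h)) (X := X) (u₀ := u₀) (q := 2 * q) hc1.1
  rw [e1, ← hs]
  obtain ⟨M₁, hM₁⟩ : ∃ M₁, M₁ = 6 * X + 6 * c - 1 := ⟨_, rfl⟩
  obtain ⟨M₂, hM₂⟩ : ∃ M₂, M₂ = 12 * X + 6 * c - 1 := ⟨_, rfl⟩
  rw [← hM₁, ← hM₂]
  have e2 : ∀ f : ℕ → ℝ, ∑ m ∈ (Ioc M₁ M₂).filter (fun m => m ≡ s [MOD 6 * (2 * q)]), f m =
      ∑ m ∈ (Icc 1 M₂).filter (fun m => m ≡ s [MOD 6 * (2 * q)]), f m -
        ∑ m ∈ (Icc 1 M₁).filter (fun m => m ≡ s [MOD 6 * (2 * q)]), f m := by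
    intro f
    rw [eq_sub_iff_add_eq, add_comm, ← sum_union]
    · apply sum_congr _ fun _ _ => rfl
      rw [← filter_union]
      congr 1
      ext m
      rw [mem_union, mem_Icc, mem_Ioc, mem_Icc]
      omega
    · apply disjoint_filter_filter
      rw [Finset.disjoint_left]
      intro m k1 k2
      rw [mem_Icc] at k1
      rw [mem_Ioc] at k2
      omega
  have f1 := h1 hAP z (by omega) hzE (6 * (2 * q)) s h M₁ (by omega) hQE hsc hshc (by omega)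
  have f2 := h1 hAP z (by omega) hzE (6 * (2 * q)) s h M₂ (by omega) hQE hsc hshc (by omega)
  rw [← hW] at f1 f2
  have f3 : |∑ m ∈ (Ioc M₁ M₂).filter (fun m => m ≡ s [MOD 6 * (2 * q)]), Λ m * GR z (m + h)| ≤
      (NN l : ℝ) / ((6 * (2 * q) : ℕ) * Real.log (NN l) ^ U) := by
    by_contra hcon
    rw [not_le] at hcon
    apply hbad
    refine ⟨c, hcY, ?_⟩
    rw [← hM₁, ← hM₂, ← hs, ← hh]
    exact hcon
  have f4 : ∑ m ∈ (Ioc M₁ M₂).filter (fun m => m ≡ s [MOD 6 * (2 * q)]), Λ m * Λ (m + h) =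
      ∑ m ∈ (Ioc M₁ M₂).filter (fun m => m ≡ s [MOD 6 * (2 * q)]), Λ m * GR z (m + h) +
      (∑ m ∈ (Icc 1 M₂).filter (fun m => m ≡ s [MOD 6 * (2 * q)]), Λ m * lamz z (m + h) -
        ∑ m ∈ (Icc 1 M₁).filter (fun m => m ≡ s [MOD 6 * (2 * q)]), Λ m * lamz z (m + h)) := by
    rw [← e2 (fun m => Λ m * lamz z (m + h)), ← sum_add_distrib]
    apply sum_congr rfl
    intro m _
    unfold GR
    ring
  have f5 : (M₂ : ℝ) / (Nat.totient (6 * (2 * q)) : ℝ) * W - (M₁ : ℝ) / (Nat.totient (6 * (2 * q)) : ℝ) * W =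
      (3 * X : ℝ) / (q * B) * (singZ (sh h) z / PI P h) := by
    have k1 : (M₂ : ℝ) = M₁ + 6 * X := by
      have : M₂ = M₁ + 6 * X := by omega
      rw [this]
      push_cast
      ring
    rw [k1, hφQ, ← hWeq]
    field_simp
    ring
  rw [f4, ← f5]
  rw [abs_le] at f1 f2 f3 ⊢
  have k3 : 3 * (NN l : ℝ) / ((6 * (2 * q) : ℕ) * Real.log (NN l) ^ U) =
      3 * ((NN l : ℝ) / ((6 * (2 * q) : ℕ) * Real.log (NN l) ^ U)) := by ring
  rw [k3]
  constructor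
  · linarith [f1.1, f1.2, f2.1, f2.2, f3.1, f3.2]
  · linarith [f1.1, f1.2, f2.1, f2.2, f3.1, f3.2]

end Pool.Agent.K9h54.LC
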