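import Pool.Agent.K9h54.LC.Rk
import Pool.Agent.Helper601.Selberg2
import Pool.Agent.H373R2.T7.Cnt

set_option autoImplicit false

/-!
# Residues mod 4 of prime pairs in short windows: the upper bound sieve
-/

namespace Pool.Agent.K9h54.LC

open Finset Nat ArithmeticFunction BoundingSieve
open Pool.Agent.Helper601 (selS siftedSum_le_selberg')

/-- the density `1 / n` -/
noncomputable def nuI : ArithmeticFunction ℝ := ⟨fun n => (n : ℝ)⁻¹, by simp⟩

theorem nuI_apply (n : ℕ) : nuI n = (n : ℝ)⁻¹ := rfl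

theorem nuI_mult : nuI.IsMultiplicative := by
  refine ⟨by rw [nuI_apply, Nat.cast_one, inv_one], ?_⟩
  intro m n _
  rw [nuI_apply, nuI_apply, nuI_apply, Nat.cast_mul, mul_inv]

theorem prod_sqf (Q : Finset ℕ) (hQ : ∀ p ∈ Q, p.Prime) : Squarefree (∏ p ∈ Q, p) := by
  refine Finset.squarefree_prod_of_pairwise_isCoprime ?_ fun p hp => (hQ p hp).prime.squarefree
  intro p hp p' hp' hne
  exact Nat.coprime_iff_isRelPrime.1 ((Nat.coprime_primes (hQ p hp) (hQ p' hp')).2 hne)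

/-- the sieve -/
noncomputable def sv (Q : Finset ℕ) (hQ : ∀ p ∈ Q, p.Prime) (d r Y : ℕ) : BoundingSieve where
  support := ((Icc 1 Y).filter (fun c => c ≡ r [MOD d])).image (fun c => 6 * c - 1)
  prodPrimes := ∏ p ∈ Q, p
  prodPrimes_squarefree := prod_sqf Q hQ
  weights := fun _ => 1
  weights_nonneg := fun _ => zero_le_one
  totalMass := (Y : ℝ) / d
  nu := nuI
  nu_mult := nuI_mult
  nu_pos_of_prime := fun p hp _ => by
    rw [nuI_apply]
    have : (0 : ℝ) < p := by exact_mod_cast hp.pos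
    positivity
  nu_lt_one_of_prime := fun p hp _ => by
    rw [nuI_apply]
    have : (1 : ℝ) < p := by exact_mod_cast hp.one_lt
    exact inv_lt_one_of_one_lt₀ this

theorem inj6 (S : Finset ℕ) (hS : ∀ c ∈ S, 1 ≤ c) : Set.InjOn (fun c : ℕ => 6 * c - 1) S := by
  intro c hc c' hc' h
  have h1 := hS c hc
  have h2 := hS c' hc'
  simp only at h
  omega

theorem sv_rem (Q : Finset ℕ) (hQ : ∀ p ∈ Q, p.Prime ∧ 5 ≤ p) (d r Y : ℕ) (hd : 0 < d) (hdQ : ∀ p ∈ Q, ¬ p ∣ d) (e : ℕ)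
    (he : e ∣ ∏ p ∈ Q, p) : |(sv Q (fun p hp => (hQ p hp).1) d r Y).rem e| ≤ 1 := by
  have hq0 : (∏ p ∈ Q, p) ≠ 0 := by
    rw [prod_ne_zero_iff]
    exact fun p hp => (hQ p hp).1.ne_zero
  have he0 : 0 < e := Nat.pos_of_ne_zero (ne_zero_of_dvd_ne_zero hq0 he)
  have hc6 : Nat.Coprime 6 e := by
    apply Nat.Coprime.coprime_dvd_right he
    rw [Nat.coprime_prod_right_iff]
    intro p hp
    rw [Nat.coprime_comm, (hQ p hp).1.coprime_iff_not_dvd]
    intro h
    have h5 := (hQ p hp).2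
    have h6 := Nat.le_of_dvd (by norm_num) h
    have hpp := (hQ p hp).1
    interval_cases p
    · omega
    · exact absurd hpp (by norm_num)
  have hcd : Nat.Coprime d e := by
    apply Nat.Coprime.coprime_dvd_right he
    rw [Nat.coprime_prod_right_iff]
    intro p hp
    rw [Nat.coprime_comm, (hQ p hp).1.coprime_iff_not_dvd]
    exact hdQ p hp
  obtain ⟨v, hv⟩ : ∃ v : ℕ, 6 * v ≡ 1 [MOD e] := by
    obtain ⟨k, hk1, hk2⟩ := Nat.chineseRemainder hc6 0 1
    obtain ⟨u, hu⟩ := Nat.modEq_zero_iff_dvd.1 hk1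
    exact ⟨u, by rw [← hu]; exact hk2⟩
  obtain ⟨s, hs1, hs2⟩ := Nat.chineseRemainder hcd r v
  have h1 : (sv Q (fun p hp => (hQ p hp).1) d r Y).multSum e =
      (((Icc 1 Y).filter (fun c => c ≡ s [MOD (d * e)])).card : ℝ) := by
    unfold BoundingSieve.multSum sv
    simp only
    rw [sum_image (by
      apply inj6
      intro c hc
      exact (mem_Icc.1 (mem_filter.1 hc).1).1), ← sum_filter, sum_const, nsmul_eq_mul, mul_one, filter_filter]
    congr 2
    apply filter_congr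
    intro c hc
    rw [mem_Icc] at hc
    rw [← Nat.modEq_and_modEq_iff_modEq_mul hcd]
    have k1 : e ∣ 6 * c - 1 ↔ c ≡ v [MOD e] := by
      constructor
      · intro h
        have k2 : 6 * c - 1 + 1 ≡ 0 + 1 [MOD e] := (Nat.modEq_zero_iff_dvd.2 h).add_right 1
        rw [Nat.sub_add_cancel (by omega), zero_add] at k2
        exact Nat.ModEq.cancel_left_of_coprime (by rw [Nat.gcd_comm]; exact hc6) (k2.trans hv.symm)
      · intro h
        have k2 : 6 * c - 1 + 1 ≡ 0 + 1 [MOD e] := by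
          rw [Nat.sub_add_cancel (by omega), zero_add]
          exact (h.mul_left 6).trans hv
        exact Nat.modEq_zero_iff_dvd.1 (Nat.ModEq.add_right_cancel' 1 k2)
    rw [k1]
    constructor
    · rintro ⟨k2, k3⟩
      exact ⟨k2.trans hs1.symm, k3.trans hs2.symm⟩
    · rintro ⟨k2, k3⟩
      exact ⟨k2.trans hs1, k3.trans hs2⟩
  unfold BoundingSieve.rem
  rw [h1]
  have h2 := Pool.Agent.H373R2.T7.count_class Y (d * e) s (Nat.mul_pos hd he0)
  have h3 : (sv Q (fun p hp => (hQ p hp).1) d r Y).nu e * (sv Q (fun p hp => (hQ p hp).1) d r Y).totalMass =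
      (Y : ℝ) / ((d * e : ℕ) : ℝ) := by
    unfold sv
    simp only
    rw [nuI_apply]
    push_cast
    have : (0 : ℝ) < d := by exact_mod_cast hd
    have : (0 : ℝ) < e := by exact_mod_cast he0
    field_simp
  rw [h3]
  exact h2

theorem sv_sifted (Q : Finset ℕ) (hQ : ∀ p ∈ Q, p.Prime ∧ 5 ≤ p) (d r Y : ℕ) :
    (sv Q (fun p hp => (hQ p hp).1) d r Y).siftedSum =
      (((Icc 1 Y).filter (fun c => c ≡ r [MOD d] ∧ ∀ p ∈ Q, ¬ p ∣ 6 * c - 1)).card : ℝ) := by
  unfold BoundingSieve.siftedSum sv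
  simp only
  rw [sum_image (by
    apply inj6
    intro c hc
    exact (mem_Icc.1 (mem_filter.1 hc).1).1), ← sum_filter, sum_const, nsmul_eq_mul, mul_one, filter_filter]
  congr 2
  apply filter_congr
  intro c _
  rw [Nat.coprime_prod_left_iff]
  have : (∀ p ∈ Q, Nat.Coprime p (6 * c - 1)) ↔ ∀ p ∈ Q, ¬ p ∣ 6 * c - 1 := by
    refine forall₂_congr fun p hp => ?_
    rw [(hQ p hp).1.coprime_iff_not_dvd]
  rw [this]

theorem primeFactors_prod' (A : Finset ℕ) (hA : ∀ p ∈ A, p.Prime) : (∏ p ∈ A, p).primeFactors = A := by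
  exact Nat.primeFactors_prod hA

theorem sv_selS (Q : Finset ℕ) (hQ : ∀ p ∈ Q, p.Prime ∧ 5 ≤ p) (d r Y : ℕ) (R : ℝ) :
    ∑ A ∈ Q.powerset.filter (fun A => ((∏ p ∈ A, p : ℕ) : ℝ) ≤ R), ∏ p ∈ A, (1 / ((p : ℝ) - 1)) ≤
      selS (sv Q (fun p hp => (hQ p hp).1) d r Y) R := by
  classical
  unfold selS
  have hinj : Set.InjOn (fun A : Finset ℕ => ∏ p ∈ A, p) (Q.powerset.filter (fun A => ((∏ p ∈ A, p : ℕ) : ℝ) ≤ R)) := by
    intro A hA B hB h
    simp only [coe_filter, mem_powerset, Set.mem_setOf_eq] at hA hB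
    simp only at h
    rw [← primeFactors_prod' A fun p hp => (hQ p (hA.1 hp)).1, ← primeFactors_prod' B fun p hp => (hQ p (hB.1 hp)).1, h]
  have h1 : ∀ A ∈ Q.powerset.filter (fun A => ((∏ p ∈ A, p : ℕ) : ℝ) ≤ R),
      (sv Q (fun p hp => (hQ p hp).1) d r Y).selbergTerms (∏ p ∈ A, p) = ∏ p ∈ A, (1 / ((p : ℝ) - 1)) := by
    intro A hA
    rw [mem_filter, mem_powerset] at hA
    rw [selbergTerms_apply, primeFactors_prod' A fun p hp => (hQ p (hA.1 hp)).1]
    show nuI _ * ∏ p ∈ A, (1 - nuI p)⁻¹ = _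
    rw [nuI_apply]
    push_cast
    rw [← prod_inv_distrib, ← prod_mul_distrib]
    apply prod_congr rfl
    intro p hp
    have hp5 : (5 : ℝ) ≤ p := by exact_mod_cast (hQ p (hA.1 hp)).2
    rw [nuI_apply]
    have : (p : ℝ) - 1 ≠ 0 := by linarith
    have : (p : ℝ) ≠ 0 := by linarith
    field_simp
  rw [← sum_congr rfl h1, ← sum_image (f := fun l => (sv Q (fun p hp => (hQ p hp).1) d r Y).selbergTerms l) hinj]
  apply sum_le_sum_of_subset_of_nonneg
  · intro l hl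
    rw [mem_image] at hl
    obtain ⟨A, hA, rfl⟩ := hl
    rw [mem_filter, mem_powerset] at hA
    rw [mem_filter, mem_divisors]
    refine ⟨⟨prod_dvd_prod_of_subset _ _ _ hA.1, ?_⟩, hA.2⟩
    show ∏ p ∈ Q, p ≠ 0
    rw [prod_ne_zero_iff]
    exact fun p hp => (hQ p hp).1.ne_zero
  · intro l hl _
    exact (selbergTerms_pos (dvd_of_mem_divisors (mem_filter.1 hl).1)).le

/-- a lower bound for the product -/
theorem prod_lower (Q : Finset ℕ) (L : ℕ) (hL : 1 ≤ L) (hQ : ∀ p ∈ Q, 2 ≤ p ∧ p ≤ L) :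
    1 / (L : ℝ) ≤ ∏ p ∈ Q, (1 - 1 / (p : ℝ)) := by
  have h1 : ∏ n ∈ Icc 2 L, (1 - 1 / (n : ℝ)) = 1 / (L : ℝ) := by
    induction L, hL using Nat.le_induction with
    | base => simp
    | succ n hn ih =>
      have h2 : Icc 2 (n + 1) = insert (n + 1) (Icc 2 n) := by
        ext m
        rw [mem_insert, mem_Icc, mem_Icc]
        omega
      rw [h2, prod_insert (by rw [mem_Icc]; omega)]
      by_cases hn2 : ∀ p ∈ Q, 2 ≤ p ∧ p ≤ n
      · rw [ih hn2]
        have : (0 : ℝ) < n := by exact_mod_cast hn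
        push_cast
        field_simp
        ring
      · have ih' : ∏ m ∈ Icc 2 n, (1 - 1 / (m : ℝ)) = 1 / (n : ℝ) := by
          clear ih hn2 hQ h2
          induction n, hn using Nat.le_induction with
          | base => simp
          | succ k hk ihk =>
            have h3 : Icc 2 (k + 1) = insert (k + 1) (Icc 2 k) := by
              ext m
              rw [mem_insert, mem_Icc, mem_Icc]
              omega
            rw [h3, prod_insert (by rw [mem_Icc]; omega), ihk]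
            have : (0 : ℝ) < k := by exact_mod_cast hk
            push_cast
            field_simp
            ring
        rw [ih']
        have : (0 : ℝ) < n := by exact_mod_cast hn
        push_cast
        field_simp
        ring
  rw [← h1]
  have hsub : Q ⊆ Icc 2 L := fun p hp => mem_Icc.2 (hQ p hp)
  have h2 : ∀ n ∈ Icc 2 L, 0 ≤ 1 - 1 / (n : ℝ) ∧ 1 - 1 / (n : ℝ) ≤ 1 := by
    intro n hn
    rw [mem_Icc] at hn
    have : (2 : ℝ) ≤ n := by exact_mod_cast hn.1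
    have h3 : 1 / (n : ℝ) ≤ 1 := by rw [div_le_one (by linarith)]; linarith
    have h4 : 0 < 1 / (n : ℝ) := by positivity
    constructor <;> linarith
  rw [← prod_sdiff hsub]
  have h5 : ∏ n ∈ Icc 2 L \ Q, (1 - 1 / (n : ℝ)) ≤ 1 := prod_le_one
    (fun n hn => (h2 n (mem_sdiff.1 hn).1).1) fun n hn => (h2 n (mem_sdiff.1 hn).1).2
  have h6 : 0 ≤ ∏ n ∈ Q, (1 - 1 / (n : ℝ)) := prod_nonneg fun n hn => (h2 n (hsub hn)).1
  nlinarith

/-- the upper bound sieve -/
theorem sieve_ub : ∃ L₀ : ℕ, 2 ≤ L₀ ∧ ∀ L : ℕ, L₀ ≤ L → ∀ Q : Finset ℕ, (∀ p ∈ Q, p.Prime ∧ 5 ≤ p ∧ p ≤ L) →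
    ∀ d r Y : ℕ, 0 < d → (∀ p ∈ Q, ¬ p ∣ d) → L ^ 70 * d ≤ Y →
      (((Icc 1 Y).filter (fun c => c ≡ r [MOD d] ∧ ∀ p ∈ Q, ¬ p ∣ 6 * c - 1)).card : ℝ) ≤
        3 * ((Y : ℝ) / d) * ∏ p ∈ Q, (1 - 1 / (p : ℝ)) := by
  obtain ⟨ℓ₀, hℓ₀, h0⟩ := half_mass
  refine ⟨max 2 ⌈Real.exp ℓ₀⌉₊, le_max_left _ _, fun L hL Q hQ d r Y hd hdQ hY => ?_⟩
  have hL2 : 2 ≤ L := (le_max_left _ _).trans hL
  have hL2r : (2 : ℝ) ≤ L := by exact_mod_cast hL2
  have hLe : Real.exp ℓ₀ ≤ L := (Nat.le_ceil _).trans (by exact_mod_cast (le_max_right _ _).trans hL)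
  have hℓ : ℓ₀ ≤ Real.log L := by
    rw [Real.le_log_iff_exp_le (by linarith)]
    exact hLe
  have hQ' : ∀ p ∈ Q, p.Prime ∧ 5 ≤ p := fun p hp => ⟨(hQ p hp).1, (hQ p hp).2.1⟩
  obtain ⟨R, hR⟩ : ∃ R : ℝ, R = (L : ℝ) ^ 16 := ⟨_, rfl⟩
  have hR1 : 1 ≤ R := by rw [hR]; exact one_le_pow₀ (by linarith)
  have h1 := siftedSum_le_selberg' (sv Q (fun p hp => (hQ' p hp).1) d r Y) R hR1 1 zero_le_one
    (fun e he _ => sv_rem Q hQ' d r Y hd hdQ e he)
  rw [sv_sifted Q hQ' d r Y] at h1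
  have h2 := sv_selS Q hQ' d r Y R
  have h3 := h0 (Real.log L) (16 * Real.log L) hℓ le_rfl Q (fun p hp => ⟨(hQ p hp).1, by
    apply Real.log_le_log
    · exact_mod_cast (hQ p hp).1.pos
    · exact_mod_cast (hQ p hp).2.2⟩) (fun p => 1 / ((p : ℝ) - 1)) (fun p hp => by
      have h5 : (5 : ℝ) ≤ p := by exact_mod_cast (hQ p hp).2.1
      constructor
      · apply div_nonneg zero_le_one
        linarith
      · rw [div_le_div_iff₀ (by linarith) (by linarith)]
        linarith)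
  have h4 : ∑ A ∈ Q.powerset.filter (fun A : Finset ℕ => ∑ p ∈ A, Real.log (p : ℝ) ≤ 16 * Real.log L), ∏ p ∈ A, (1 / ((p : ℝ) - 1)) =
      ∑ A ∈ Q.powerset.filter (fun A => ((∏ p ∈ A, p : ℕ) : ℝ) ≤ R), ∏ p ∈ A, (1 / ((p : ℝ) - 1)) := by
    apply sum_congr _ fun _ _ => rfl
    apply filter_congr
    intro A hA
    rw [mem_powerset] at hA
    have k1 : ∑ p ∈ A, Real.log (p : ℝ) = Real.log ((∏ p ∈ A, p : ℕ) : ℝ) := by
      push_cast
      rw [Real.log_prod]
      intro p hp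
      exact_mod_cast (hQ p (hA hp)).1.ne_zero
    have k2 : (0 : ℝ) < ((∏ p ∈ A, p : ℕ) : ℝ) := by
      exact_mod_cast prod_pos fun p hp => (hQ p (hA hp)).1.pos
    rw [k1, hR, Real.log_le_iff_le_exp k2, show (16 : ℝ) * Real.log L = ((16 : ℕ) : ℝ) * Real.log L by norm_num,
      Real.exp_nat_mul, Real.exp_log (by linarith)]
  rw [h4] at h3
  have hB0 : 0 < ∏ p ∈ Q, (1 - 1 / (p : ℝ)) := prod_pos fun p hp => by
    have h5 : (5 : ℝ) ≤ p := by exact_mod_cast (hQ p hp).2.1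
    rw [sub_pos, div_lt_one (by linarith)]
    linarith
  have h5 : ∏ p ∈ Q, (1 + 1 / ((p : ℝ) - 1)) = (∏ p ∈ Q, (1 - 1 / (p : ℝ)))⁻¹ := by
    rw [← prod_inv_distrib]
    apply prod_congr rfl
    intro p hp
    have h5 : (5 : ℝ) ≤ p := by exact_mod_cast (hQ p hp).2.1
    have : (p : ℝ) - 1 ≠ 0 := by linarith
    have : (p : ℝ) ≠ 0 := by linarith
    field_simp
    ring
  rw [h5] at h3
  set B := ∏ p ∈ Q, (1 - 1 / (p : ℝ)) with hB
  set S := selS (sv Q (fun p hp => (hQ' p hp).1) d r Y) R with hS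
  have hS1 : 1 / 2 * B⁻¹ ≤ S := h3.trans h2
  have hdr : (0 : ℝ) < d := by exact_mod_cast hd
  have p1 : (Y : ℝ) / d / S ≤ 2 * ((Y : ℝ) / d) * B := by
    have hS0 : 0 < S := lt_of_lt_of_le (by positivity) hS1
    rw [div_le_iff₀ hS0]
    have k1 : 1 ≤ 2 * B * S := by
      have := mul_le_mul_of_nonneg_left hS1 (by positivity : 0 ≤ 2 * B)
      have e : 2 * B * (1 / 2 * B⁻¹) = 1 := by field_simp
      linarith
    have k2 : 0 ≤ (Y : ℝ) / d := by positivity
    nlinarith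
  have p2 : 1 * (∑ e ∈ (divisors (sv Q (fun p hp => (hQ' p hp).1) d r Y).prodPrimes).filter (fun e : ℕ => (e : ℝ) ≤ R),
      ((sv Q (fun p hp => (hQ' p hp).1) d r Y).nu e)⁻¹) ^ 2 ≤ (Y : ℝ) / d * B := by
    have k1 : ∑ e ∈ (divisors (sv Q (fun p hp => (hQ' p hp).1) d r Y).prodPrimes).filter (fun e : ℕ => (e : ℝ) ≤ R),
      ((sv Q (fun p hp => (hQ' p hp).1) d r Y).nu e)⁻¹ ≤ R * (R + 1) := by
      calc ∑ e ∈ (divisors (sv Q (fun p hp => (hQ' p hp).1) d r Y).prodPrimes).filter (fun e : ℕ => (e : ℝ) ≤ R),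
            ((sv Q (fun p hp => (hQ' p hp).1) d r Y).nu e)⁻¹ ≤
            ∑ e ∈ range (⌊R⌋₊ + 1), R := by
            have k2 : (divisors (sv Q (fun p hp => (hQ' p hp).1) d r Y).prodPrimes).filter (fun e : ℕ => (e : ℝ) ≤ R) ⊆
                range (⌊R⌋₊ + 1) := by
              intro e he
              rw [mem_filter] at he
              rw [mem_range, Nat.lt_succ_iff]
              exact Nat.le_floor he.2
            refine le_trans (sum_le_sum ?_) (sum_le_sum_of_subset_of_nonneg k2 ?_)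
            · intro e he
              show (nuI e)⁻¹ ≤ R
              rw [nuI_apply, inv_inv]
              exact (mem_filter.1 he).2
            · intro _ _ _
              linarith
        _ = (⌊R⌋₊ + 1) * R := by rw [sum_const, card_range, nsmul_eq_mul]; push_cast; ring
        _ ≤ R * (R + 1) := by
            have := Nat.floor_le (by linarith : 0 ≤ R)
            nlinarith
    have k0 : 0 ≤ ∑ e ∈ (divisors (sv Q (fun p hp => (hQ' p hp).1) d r Y).prodPrimes).filter (fun e : ℕ => (e : ℝ) ≤ R),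
      ((sv Q (fun p hp => (hQ' p hp).1) d r Y).nu e)⁻¹ := by
      apply sum_nonneg
      intro e _
      show 0 ≤ (nuI e)⁻¹
      rw [nuI_apply, inv_inv]
      exact Nat.cast_nonneg _
    rw [one_mul]
    calc (∑ e ∈ (divisors (sv Q (fun p hp => (hQ' p hp).1) d r Y).prodPrimes).filter (fun e : ℕ => (e : ℝ) ≤ R),
      ((sv Q (fun p hp => (hQ' p hp).1) d r Y).nu e)⁻¹) ^ 2 ≤ (R * (R + 1)) ^ 2 := by gcongr
      _ ≤ (R * (R * L)) ^ 2 := by
          have : R + 1 ≤ R * L := by nlinarith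
          gcongr
      _ = (L : ℝ) ^ 66 := by rw [hR]; ring
      _ ≤ (L : ℝ) ^ 69 := pow_le_pow_right₀ (by linarith) (by norm_num)
      _ = (L : ℝ) ^ 70 * (1 / L) := by
          field_simp
      _ ≤ (Y : ℝ) / d * B := by
          have k3 : (L : ℝ) ^ 70 ≤ (Y : ℝ) / d := by
            rw [le_div_iff₀ hdr]
            exact_mod_cast hY
          have k4 : 1 / (L : ℝ) ≤ B := prod_lower Q L (by omega) fun p hp => ⟨(hQ p hp).1.two_le, (hQ p hp).2.2⟩
          gcongr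
  have e0 : (sv Q (fun p hp => (hQ' p hp).1) d r Y).totalMass = (Y : ℝ) / d := rfl
  rw [e0] at h1
  linarith

end Pool.Agent.K9h54.LC
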