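import Pool.Agent.K9h54.LC.Row2
import Pool.Agent.K9h54.MP.Fin
import Pool.Agent.K9h54.LC.Bias

set_option autoImplicit false

/-!
# Residues mod 4 of prime pairs in short windows: from weighted sums to the number of the pairs
-/

namespace Pool.Agent.K9h54.LC

open Finset Filter Topology
open Pool.Agent.K9h54.MP (pp_inj)

open scoped ArithmeticFunction.vonMangoldt

/-- the number of the prime pairs in a window in the columns of a given parity -/
def prc (Y a u e : ℕ) : ℕ := ((Icc 1 Y).filter (fun c => c % 2 = e ∧ (6 * (u + c) - 1).Prime ∧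
  (6 * (u + c) - 1 + (6 * a + 2)).Prime)).card

theorem prc_le (Y a u e : ℕ) : prc Y a u e ≤ Y := by
  unfold prc
  refine (card_filter_le _ _).trans ?_
  rw [Nat.card_Icc]
  omega

/-- the sum over the matrix and the number of the prime pairs in the windows -/
theorem tot2 (P : Finset ℕ) (hP : ∀ p ∈ P, p.Prime) (X Y N a e : ℕ) (hX : 2 ≤ X) (hPX : ∀ p ∈ P, p ≤ X)
    (ha : a ≤ X) (hN : 18 * X + 6 * Y + 2 ≤ N) (U : Finset ℕ)
    (hU : ∀ u ∈ U, X < u ∧ u ≤ 2 * X ∧ ∀ p ∈ P, p ∣ 6 * u) :
    Real.log X ^ 2 * ∑ u ∈ U, (prc Y a u e : ℝ) ≤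
      ∑ u ∈ U, ∑ c ∈ (KL (CC P Y) P a).filter (fun c => c % 2 = e),
        Λ (6 * (u + c) - 1) * Λ (6 * (u + c) - 1 + (6 * a + 2)) ∧
    ∑ u ∈ U, ∑ c ∈ (KL (CC P Y) P a).filter (fun c => c % 2 = e),
        Λ (6 * (u + c) - 1) * Λ (6 * (u + c) - 1 + (6 * a + 2)) ≤
      Real.log N ^ 2 * ∑ u ∈ U, (prc Y a u e : ℝ) + 4 * Y * √(N : ℝ) * Real.log N ^ 2 := by
  classical
  obtain ⟨K, hK⟩ : ∃ K, K = (KL (CC P Y) P a).filter (fun c => c % 2 = e) := ⟨_, rfl⟩
  rw [← hK]
  have hKY : K ⊆ (Icc 1 Y).filter (fun c => c % 2 = e) := by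
    rw [hK]
    apply filter_subset_filter
    exact (filter_subset _ _).trans (filter_subset _ _)
  have hXr : (2 : ℝ) ≤ X := by exact_mod_cast hX
  have hlX : 0 ≤ Real.log X := Real.log_natCast_nonneg _
  have hN1 : 1 ≤ N := by omega
  have hlN : 0 ≤ Real.log N := Real.log_natCast_nonneg _
  constructor
  · rw [mul_sum]
    apply sum_le_sum
    intro u hu
    obtain ⟨hu1, hu2, hu3⟩ := hU u hu
    unfold prc
    set S := (Icc 1 Y).filter (fun c => c % 2 = e ∧ (6 * (u + c) - 1).Prime ∧ (6 * (u + c) - 1 + (6 * a + 2)).Prime) with hS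
    have hSK : S ⊆ K := by
      intro c hc
      rw [hS, mem_filter] at hc
      obtain ⟨hc1, hce, hc2, hc3⟩ := hc
      have hc1' := mem_Icc.1 hc1
      rw [hK]
      unfold KL CC
      rw [mem_filter, mem_filter, mem_filter]
      refine ⟨⟨⟨hc1, ?_⟩, ?_⟩, hce⟩
      · intro p hp hd
        have k1 : 6 * (u + c) - 1 = 6 * u + (6 * c - 1) := by omega
        have k2 : p ∣ 6 * (u + c) - 1 := by
          rw [k1]
          exact Nat.dvd_add (hu3 p hp) hd
        have k3 := (Nat.prime_dvd_prime_iff_eq (hP p hp) hc2).1 k2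
        have k4 := hPX p hp
        omega
      · intro p hp hd
        have k1 : 6 * (u + c) - 1 + (6 * a + 2) = 6 * u + (6 * c + 6 * a + 1) := by omega
        have k2 : p ∣ 6 * (u + c) - 1 + (6 * a + 2) := by
          rw [k1]
          exact Nat.dvd_add (hu3 p hp) hd
        have k3 := (Nat.prime_dvd_prime_iff_eq (hP p hp) hc3).1 k2
        have k4 := hPX p hp
        omega
    calc Real.log X ^ 2 * (S.card : ℝ) = ∑ c ∈ S, Real.log X ^ 2 := by rw [sum_const, nsmul_eq_mul, mul_comm]
      _ ≤ ∑ c ∈ S, Λ (6 * (u + c) - 1) * Λ (6 * (u + c) - 1 + (6 * a + 2)) := by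
          apply sum_le_sum
          intro c hc
          rw [hS, mem_filter] at hc
          obtain ⟨hc1, hce, hc2, hc3⟩ := hc
          rw [ArithmeticFunction.vonMangoldt_apply_prime hc2, ArithmeticFunction.vonMangoldt_apply_prime hc3, sq]
          have k1 : Real.log X ≤ Real.log ((6 * (u + c) - 1 : ℕ) : ℝ) := by
            apply Real.log_le_log (by linarith)
            have : X ≤ 6 * (u + c) - 1 := by omega
            exact_mod_cast this
          have k2 : Real.log X ≤ Real.log ((6 * (u + c) - 1 + (6 * a + 2) : ℕ) : ℝ) := by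
            apply Real.log_le_log (by linarith)
            have : X ≤ 6 * (u + c) - 1 + (6 * a + 2) := by omega
            exact_mod_cast this
          exact mul_le_mul k1 k2 hlX (hlX.trans k1)
      _ ≤ _ := by
          apply sum_le_sum_of_subset_of_nonneg hSK
          intro _ _ _
          exact mul_nonneg ArithmeticFunction.vonMangoldt_nonneg ArithmeticFunction.vonMangoldt_nonneg
  · have hle : ∀ n : ℕ, 1 ≤ n → n ≤ N → Λ n ≤ Real.log N := by
      intro n hn1 hn2
      exact ArithmeticFunction.vonMangoldt_le_log.trans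
        (Real.log_le_log (by exact_mod_cast hn1) (by exact_mod_cast hn2))
    have hpt : ∀ u ∈ U, ∀ c ∈ (Icc 1 Y).filter (fun c => c % 2 = e), Λ (6 * (u + c) - 1) * Λ (6 * (u + c) - 1 + (6 * a + 2)) ≤
        (if c % 2 = e ∧ (6 * (u + c) - 1).Prime ∧ (6 * (u + c) - 1 + (6 * a + 2)).Prime then Real.log N ^ 2 else 0) +
        (Real.log N * (if (6 * (u + c) - 1).Prime then 0 else Λ (6 * (u + c) - 1)) +
          Real.log N * (if (6 * (u + c) - 1 + (6 * a + 2)).Prime then 0 else Λ (6 * (u + c) - 1 + (6 * a + 2)))) := by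
      intro u hu c hc
      obtain ⟨hu1, hu2, -⟩ := hU u hu
      rw [mem_filter, mem_Icc] at hc
      obtain ⟨hc, hce⟩ := hc
      have a1 := hle (6 * (u + c) - 1) (by omega) (by omega)
      have a2 := hle (6 * (u + c) - 1 + (6 * a + 2)) (by omega) (by omega)
      have a3 : (0 : ℝ) ≤ Λ (6 * (u + c) - 1) := ArithmeticFunction.vonMangoldt_nonneg
      have a4 : (0 : ℝ) ≤ Λ (6 * (u + c) - 1 + (6 * a + 2)) := ArithmeticFunction.vonMangoldt_nonneg
      by_cases c1 : (6 * (u + c) - 1).Prime
      · by_cases c2 : (6 * (u + c) - 1 + (6 * a + 2)).Prime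
        · rw [if_pos ⟨hce, c1, c2⟩, if_pos c1, if_pos c2]
          nlinarith
        · rw [if_neg (fun h => c2 h.2.2), if_pos c1, if_neg c2]
          nlinarith
      · rw [if_neg (fun h => c1 h.2.1), if_neg c1]
        have : 0 ≤ Real.log N * (if (6 * (u + c) - 1 + (6 * a + 2)).Prime then 0 else Λ (6 * (u + c) - 1 + (6 * a + 2))) := by
          apply mul_nonneg hlN
          split_ifs
          · exact le_rfl
          · exact a4
        nlinarith
    have hcol : ∀ c ∈ (Icc 1 Y).filter (fun c => c % 2 = e), ∑ u ∈ U, ((Real.log N * (if (6 * (u + c) - 1).Prime then 0 else Λ (6 * (u + c) - 1)) +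
          Real.log N * (if (6 * (u + c) - 1 + (6 * a + 2)).Prime then 0 else Λ (6 * (u + c) - 1 + (6 * a + 2))))) ≤
          4 * √(N : ℝ) * Real.log N ^ 2 := by
      intro c hc
      rw [mem_filter, mem_Icc] at hc
      obtain ⟨hc, -⟩ := hc
      rw [sum_add_distrib, ← mul_sum, ← mul_sum]
      have k1 := pp_inj U (fun u => 6 * (u + c) - 1) N hN1 (by
        intro u _ u' _ h
        simp only at h
        omega) (by
        intro u hu
        obtain ⟨hu1, hu2, -⟩ := hU u hu
        omega)
      have k2 := pp_inj U (fun u => 6 * (u + c) - 1 + (6 * a + 2)) N hN1 (by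
        intro u _ u' _ h
        simp only at h
        omega) (by
        intro u hu
        obtain ⟨hu1, hu2, -⟩ := hU u hu
        omega)
      have k3 := mul_le_mul_of_nonneg_left k1 hlN
      have k4 := mul_le_mul_of_nonneg_left k2 hlN
      have e : Real.log N * (2 * √(N : ℝ) * Real.log N) + Real.log N * (2 * √(N : ℝ) * Real.log N) =
          4 * √(N : ℝ) * Real.log N ^ 2 := by ring
      linarith
    calc ∑ u ∈ U, ∑ c ∈ K, Λ (6 * (u + c) - 1) * Λ (6 * (u + c) - 1 + (6 * a + 2))
        ≤ ∑ u ∈ U, ∑ c ∈ (Icc 1 Y).filter (fun c => c % 2 = e), Λ (6 * (u + c) - 1) * Λ (6 * (u + c) - 1 + (6 * a + 2)) := by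
          apply sum_le_sum
          intro u _
          apply sum_le_sum_of_subset_of_nonneg hKY
          intro _ _ _
          exact mul_nonneg ArithmeticFunction.vonMangoldt_nonneg ArithmeticFunction.vonMangoldt_nonneg
      _ ≤ ∑ u ∈ U, ∑ c ∈ (Icc 1 Y).filter (fun c => c % 2 = e), ((if c % 2 = e ∧ (6 * (u + c) - 1).Prime ∧ (6 * (u + c) - 1 + (6 * a + 2)).Prime then Real.log N ^ 2 else 0) +
        (Real.log N * (if (6 * (u + c) - 1).Prime then 0 else Λ (6 * (u + c) - 1)) +
          Real.log N * (if (6 * (u + c) - 1 + (6 * a + 2)).Prime then 0 else Λ (6 * (u + c) - 1 + (6 * a + 2))))) :=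
          sum_le_sum fun u hu => sum_le_sum fun c hc => hpt u hu c hc
      _ = ∑ u ∈ U, ∑ c ∈ (Icc 1 Y).filter (fun c => c % 2 = e), (if c % 2 = e ∧ (6 * (u + c) - 1).Prime ∧ (6 * (u + c) - 1 + (6 * a + 2)).Prime then Real.log N ^ 2 else 0) +
          ∑ c ∈ (Icc 1 Y).filter (fun c => c % 2 = e), ∑ u ∈ U, ((Real.log N * (if (6 * (u + c) - 1).Prime then 0 else Λ (6 * (u + c) - 1)) +
          Real.log N * (if (6 * (u + c) - 1 + (6 * a + 2)).Prime then 0 else Λ (6 * (u + c) - 1 + (6 * a + 2))))) := by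
          simp only [sum_add_distrib]
          rw [sum_comm (s := U) (t := (Icc 1 Y).filter (fun c => c % 2 = e)) (f := fun u c => Real.log N * (if (6 * (u + c) - 1).Prime then 0 else Λ (6 * (u + c) - 1))),
            sum_comm (s := U) (t := (Icc 1 Y).filter (fun c => c % 2 = e)) (f := fun u c => Real.log N * (if (6 * (u + c) - 1 + (6 * a + 2)).Prime then 0 else Λ (6 * (u + c) - 1 + (6 * a + 2))))]
      _ ≤ Real.log N ^ 2 * ∑ u ∈ U, (prc Y a u e : ℝ) + ∑ c ∈ Icc 1 Y, 4 * √(N : ℝ) * Real.log N ^ 2 := by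
          apply add_le_add
          · rw [mul_sum]
            apply sum_le_sum
            intro u _
            unfold prc
            rw [← sum_filter, sum_const, nsmul_eq_mul, mul_comm]
            apply mul_le_mul_of_nonneg_left _ (by positivity)
            have : ((Icc 1 Y).filter (fun c => c % 2 = e)).filter (fun c => c % 2 = e ∧ (6 * (u + c) - 1).Prime ∧
                (6 * (u + c) - 1 + (6 * a + 2)).Prime) ⊆ (Icc 1 Y).filter (fun c => c % 2 = e ∧ (6 * (u + c) - 1).Prime ∧
                (6 * (u + c) - 1 + (6 * a + 2)).Prime) := filter_subset_filter _ (filter_subset _ _)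
            exact_mod_cast card_le_card this
          · refine (sum_le_sum hcol).trans ?_
            apply sum_le_sum_of_subset_of_nonneg (filter_subset _ _)
            intro _ _ _
            positivity
      _ = _ := by
          rw [sum_const, Nat.card_Icc, Nat.add_sub_cancel, nsmul_eq_mul]
          ring

end Pool.Agent.K9h54.LC
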