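import Pool.Agent.K9h54.LC.Sv
import Pool.Agent.K9h54.MP.Conc

set_option autoImplicit false

/-!
# Residues mod 4 of prime pairs in short windows: the second moment over the distances
-/

namespace Pool.Agent.K9h54.LC

open Finset
open Pool.Agent.K9h54.MP (crt_sum)

/-- `p` kills the column `c` at the distance `a` -/
noncomputable def al (p c a : ℕ) : ℝ := if p ∣ 6 * c + 6 * a + 1 then 1 else 0

theorem dvd_mod1 {p q a c : ℕ} (h : p ∣ q) : p ∣ 6 * c + 6 * (a % q) + 1 ↔ p ∣ 6 * c + 6 * a + 1 := by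
  have h1 : 6 * c + 6 * (a % q) + 1 ≡ 6 * c + 6 * a + 1 [MOD p] := by
    have h2 : a % q ≡ a [MOD p] := (Nat.mod_modEq a q).of_dvd h
    exact ((h2.mul_left 6).add_left (6 * c)).add_right 1
  exact h1.dvd_iff dvd_rfl

theorem cop6 {p : ℕ} (hp : p.Prime) (h5 : 5 ≤ p) : Nat.Coprime 6 p := by
  rw [Nat.coprime_comm, hp.coprime_iff_not_dvd]
  intro h
  have := Nat.le_of_dvd (by norm_num) h
  interval_cases p
  · omega
  · exact absurd hp (by norm_num)

/-- the residue at which the column dies -/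
theorem res_ex {p : ℕ} (hp : p.Prime) (h5 : 5 ≤ p) (c : ℕ) : ∃ u, u < p ∧ ∀ j, p ∣ 6 * c + 6 * j + 1 ↔ j ≡ u [MOD p] := by
  have hcop := cop6 hp h5
  obtain ⟨v, hv⟩ : ∃ v : ℕ, 6 * v ≡ 1 [MOD p] := by
    obtain ⟨k, hk1, hk2⟩ := Nat.chineseRemainder hcop 0 1
    obtain ⟨u, hu⟩ := Nat.modEq_zero_iff_dvd.1 hk1
    exact ⟨u, by rw [← hu]; exact hk2⟩
  obtain ⟨u, hu⟩ : ∃ u, u = v * (6 * c * (p - 1) + (p - 1)) := ⟨_, rfl⟩
  have hu1 : 6 * u ≡ 6 * c * (p - 1) + (p - 1) [MOD p] := by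
    rw [hu, ← mul_assoc]
    have := hv.mul_right (6 * c * (p - 1) + (p - 1))
    rwa [one_mul] at this
  have h1 : 6 * c + 6 * u + 1 ≡ 0 [MOD p] := by
    have h2 := (hu1.add_left (6 * c)).add_right 1
    refine h2.trans ?_
    have h3 : 6 * c + (6 * c * (p - 1) + (p - 1)) + 1 = p * (6 * c + 1) := by
      obtain ⟨k, hk⟩ : ∃ k, p = k + 1 := ⟨p - 1, by omega⟩
      rw [hk, Nat.add_sub_cancel]
      ring
    rw [h3]
    exact (Nat.modEq_zero_iff_dvd.2 (dvd_mul_right p _))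
  have key : ∀ j, p ∣ 6 * c + 6 * j + 1 ↔ j ≡ u [MOD p] := by
    intro j
    constructor
    · intro h
      have h2 : 6 * c + 6 * j + 1 ≡ 6 * c + 6 * u + 1 [MOD p] :=
        (Nat.modEq_zero_iff_dvd.2 h).trans h1.symm
      have h3 : 6 * j ≡ 6 * u [MOD p] := by
        have h4 := Nat.ModEq.add_right_cancel' 1 h2
        exact Nat.ModEq.add_left_cancel' (6 * c) h4
      exact Nat.ModEq.cancel_left_of_coprime (by rw [Nat.gcd_comm]; exact hcop) h3
    · intro h
      have h2 : 6 * c + 6 * j + 1 ≡ 6 * c + 6 * u + 1 [MOD p] := ((h.mul_left 6).add_left (6 * c)).add_right 1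
      exact Nat.modEq_zero_iff_dvd.1 (h2.trans h1)
  refine ⟨u % p, Nat.mod_lt _ hp.pos, fun j => ?_⟩
  rw [key j]
  exact ⟨fun h => h.trans (Nat.mod_modEq u p).symm, fun h => h.trans (Nat.mod_modEq u p)⟩

theorem al_sum {p : ℕ} (hp : p.Prime) (h5 : 5 ≤ p) (c : ℕ) : ∑ j ∈ range p, al p c j = 1 := by
  obtain ⟨u, hu, h⟩ := res_ex hp h5 c
  unfold al
  rw [← sum_filter, sum_const, nsmul_eq_mul, mul_one]
  have h1 : (range p).filter (fun j => p ∣ 6 * c + 6 * j + 1) = {u} := by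
    ext j
    rw [mem_filter, mem_range, mem_singleton, h]
    constructor
    · rintro ⟨h1, h2⟩
      exact Nat.ModEq.eq_of_lt_of_lt h2 h1 hu
    · rintro rfl
      exact ⟨hu, Nat.ModEq.refl _⟩
  rw [h1, card_singleton, Nat.cast_one]

theorem al_pair {p : ℕ} (hp : p.Prime) (h5 : 5 ≤ p) (c c' : ℕ) :
    ∑ j ∈ range p, al p c j * al p c' j = if c ≡ c' [MOD p] then 1 else 0 := by
  have hcop := cop6 hp h5
  split_ifs with hc
  · rw [← al_sum hp h5 c]
    apply sum_congr rfl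
    intro j _
    have h1 : p ∣ 6 * c' + 6 * j + 1 ↔ p ∣ 6 * c + 6 * j + 1 := by
      have h2 : 6 * c' + 6 * j + 1 ≡ 6 * c + 6 * j + 1 [MOD p] := ((hc.symm.mul_left 6).add_right (6 * j)).add_right 1
      exact h2.dvd_iff dvd_rfl
    unfold al
    by_cases h : p ∣ 6 * c + 6 * j + 1
    · rw [if_pos h, if_pos (h1.2 h), mul_one]
    · rw [if_neg h, zero_mul]
  · apply sum_eq_zero
    intro j _
    unfold al
    by_cases h : p ∣ 6 * c + 6 * j + 1
    · by_cases h' : p ∣ 6 * c' + 6 * j + 1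
      · exfalso
        apply hc
        have h2 : 6 * c + 6 * j + 1 ≡ 6 * c' + 6 * j + 1 [MOD p] :=
          (Nat.modEq_zero_iff_dvd.2 h).trans (Nat.modEq_zero_iff_dvd.2 h').symm
        have h3 := Nat.ModEq.add_right_cancel' (6 * j) (Nat.ModEq.add_right_cancel' 1 h2)
        exact Nat.ModEq.cancel_left_of_coprime (by rw [Nat.gcd_comm]; exact hcop) h3
      · rw [if_neg h', mul_zero]
    · rw [if_neg h, zero_mul]

/-- the Chinese remainder theorem for sums of products -/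
theorem crt_prod (P : Finset ℕ) : (∀ p ∈ P, p.Prime) → ∀ f : ℕ → ℕ → ℝ, (∀ p ∈ P, ∀ a, f p (a % p) = f p a) →
    ∑ a ∈ range (∏ p ∈ P, p), ∏ p ∈ P, f p a = ∏ p ∈ P, ∑ j ∈ range p, f p j := by
  classical
  induction P using Finset.induction_on with
  | empty =>
    intro _ f _
    simp
  | insert p P hp ih =>
    intro hP f hf
    have hpp := hP p (mem_insert_self _ _)
    have hP' : ∀ p ∈ P, p.Prime := fun p' h => hP p' (mem_insert_of_mem h)
    obtain ⟨q, hq⟩ : ∃ q, q = ∏ p ∈ P, p := ⟨_, rfl⟩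
    have hq0 : 0 < q := by
      rw [hq]
      exact prod_pos fun p' h => (hP' p' h).pos
    have hcop : p.Coprime q := by
      rw [hq, Nat.coprime_prod_right_iff]
      intro p' hp'
      rw [Nat.coprime_primes hpp (hP' p' hp')]
      rintro rfl
      exact hp hp'
    rw [prod_insert hp, prod_insert hp, ← hq]
    have e1 : ∑ a ∈ range (p * q), ∏ p' ∈ insert p P, f p' a =
        ∑ a ∈ range (p * q), f p (a % p) * ∏ p' ∈ P, f p' (a % q) := by
      apply sum_congr rfl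
      intro a _
      rw [prod_insert hp, hf p (mem_insert_self _ _)]
      congr 1
      apply prod_congr rfl
      intro p' hp'
      have hd : p' ∣ q := by rw [hq]; exact dvd_prod_of_mem _ hp'
      rw [← hf p' (mem_insert_of_mem hp') a, ← hf p' (mem_insert_of_mem hp') (a % q), Nat.mod_mod_of_dvd _ hd]
    rw [e1, crt_sum hpp.pos hq0 hcop (fun j i => f p j * ∏ p' ∈ P, f p' i), sum_mul]
    apply sum_congr rfl
    intro j _
    rw [← mul_sum, hq, ih hP' f fun p' h => hf p' (mem_insert_of_mem h)]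

/-- the surviving columns -/
def KL (C P : Finset ℕ) (a : ℕ) : Finset ℕ := C.filter (fun c => ∀ p ∈ P, ¬ p ∣ 6 * c + 6 * a + 1)

theorem KL_mod (C P : Finset ℕ) (a q : ℕ) (h : ∀ p ∈ P, p ∣ q) : KL C P (a % q) = KL C P a := by
  unfold KL
  apply filter_congr
  intro c _
  refine forall₂_congr fun p hp => ?_
  rw [dvd_mod1 (h p hp)]

theorem KL_ind (C P : Finset ℕ) (a : ℕ) (x : ℕ → ℝ) :
    ∑ c ∈ KL C P a, x c = ∑ c ∈ C, x c * ∏ p ∈ P, (1 - al p c a) := by
  unfold KL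
  rw [sum_filter]
  apply sum_congr rfl
  intro c _
  split_ifs with h
  · have : ∏ p ∈ P, (1 - al p c a) = 1 := by
      apply prod_eq_one
      intro p hp
      unfold al
      rw [if_neg (h p hp), sub_zero]
    rw [this, mul_one]
  · push Not at h
    obtain ⟨p, hp, hd⟩ := h
    have : ∏ p ∈ P, (1 - al p c a) = 0 := by
      apply prod_eq_zero hp
      unfold al
      rw [if_pos hd, sub_self]
    rw [this, mul_zero]

theorem al_mod (p c a : ℕ) : al p c (a % p) = al p c a := by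
  unfold al
  by_cases h : p ∣ 6 * c + 6 * a + 1
  · rw [if_pos h, if_pos ((dvd_mod1 dvd_rfl).2 h)]
  · rw [if_neg h, if_neg (fun h' => h ((dvd_mod1 dvd_rfl).1 h'))]

/-- the local correlation -/
noncomputable def rh (P : Finset ℕ) (c c' : ℕ) : ℝ := ∏ p ∈ P, (1 + if c ≡ c' [MOD p] then 1 / ((p : ℝ) - 2) else 0)

theorem one_le_rh (P : Finset ℕ) (hP : ∀ p ∈ P, 5 ≤ p) (c c' : ℕ) : 1 ≤ rh P c c' := by
  unfold rh
  have h : ∏ p ∈ P, (1 : ℝ) ≤ ∏ p ∈ P, (1 + if c ≡ c' [MOD p] then 1 / ((p : ℝ) - 2) else 0) := by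
    apply prod_le_prod
    · intro _ _
      exact zero_le_one
    · intro p hp
      have h5 : (5 : ℝ) ≤ p := by exact_mod_cast hP p hp
      split_ifs
      · have : 0 ≤ 1 / ((p : ℝ) - 2) := by
          apply div_nonneg zero_le_one
          linarith
        linarith
      · simp
  rwa [prod_const_one] at h

theorem var_bound (P : Finset ℕ) (hP : ∀ p ∈ P, p.Prime ∧ 5 ≤ p) (C : Finset ℕ) (x : ℕ → ℝ)
    (hx : ∀ c ∈ C, |x c| ≤ 1) :
    ∑ a ∈ range (∏ p ∈ P, p), (∑ c ∈ KL C P a, x c - (∏ p ∈ P, (1 - 1 / (p : ℝ))) * ∑ c ∈ C, x c) ^ 2 ≤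
      ((∏ p ∈ P, p : ℕ) : ℝ) * (∏ p ∈ P, (1 - 1 / (p : ℝ))) ^ 2 * ∑ c ∈ C, ∑ c' ∈ C, (rh P c c' - 1) := by
  classical
  obtain ⟨q, hq⟩ : ∃ q, q = ∏ p ∈ P, p := ⟨_, rfl⟩
  obtain ⟨B, hB⟩ : ∃ B : ℝ, B = ∏ p ∈ P, (1 - 1 / (p : ℝ)) := ⟨_, rfl⟩
  obtain ⟨G, hG⟩ : ∃ G : ℝ, G = ∏ p ∈ P, (1 - 2 / (p : ℝ)) := ⟨_, rfl⟩
  rw [← hq, ← hB]
  have hqr : (0 : ℝ) < q := by
    rw [hq]
    exact_mod_cast prod_pos fun p hp => (hP p hp).1.pos
  have hp5 : ∀ p ∈ P, (5 : ℝ) ≤ p := fun p hp => by exact_mod_cast (hP p hp).2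
  have hG0 : 0 ≤ G := by
    rw [hG]
    apply prod_nonneg
    intro p hp
    have := hp5 p hp
    rw [sub_nonneg, div_le_one (by linarith)]
    linarith
  have hGB : G ≤ B ^ 2 := by
    rw [hG, hB, ← prod_pow]
    apply prod_le_prod
    · intro p hp
      have := hp5 p hp
      rw [sub_nonneg, div_le_one (by linarith)]
      linarith
    · intro p hp
      have := hp5 p hp
      have : 0 ≤ (1 / (p : ℝ)) ^ 2 := by positivity
      have e : (1 - 1 / (p : ℝ)) ^ 2 = 1 - 2 / p + (1 / (p : ℝ)) ^ 2 := by ring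
      rw [e]
      linarith
  have hE : ∀ c : ℕ, ∑ a ∈ range q, ∏ p ∈ P, (1 - al p c a) = q * B := by
    intro c
    rw [hq, crt_prod P (fun p hp => (hP p hp).1) (fun p a => 1 - al p c a) (fun p _ a => by simp only [al_mod]), hB]
    push_cast
    rw [← prod_mul_distrib]
    apply prod_congr rfl
    intro p hp
    have := hp5 p hp
    rw [sum_sub_distrib, al_sum (hP p hp).1 (hP p hp).2, sum_const, card_range, nsmul_eq_mul]
    field_simp
  have hEE : ∀ c c' : ℕ, ∑ a ∈ range q, (∏ p ∈ P, (1 - al p c a)) * (∏ p ∈ P, (1 - al p c' a)) = q * G * rh P c c' := by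
    intro c c'
    have e1 : ∀ a, (∏ p ∈ P, (1 - al p c a)) * (∏ p ∈ P, (1 - al p c' a)) = ∏ p ∈ P, ((1 - al p c a) * (1 - al p c' a)) :=
      fun a => prod_mul_distrib.symm
    simp only [e1]
    rw [hq, crt_prod P (fun p hp => (hP p hp).1) (fun p a => (1 - al p c a) * (1 - al p c' a))
      (fun p _ a => by simp only [al_mod]), hG]
    unfold rh
    push_cast
    rw [← prod_mul_distrib, ← prod_mul_distrib]
    apply prod_congr rfl
    intro p hp
    have h5 := hp5 p hp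
    have e2 : ∀ j, (1 - al p c j) * (1 - al p c' j) = 1 - al p c j - al p c' j + al p c j * al p c' j := fun j => by ring
    simp only [e2]
    rw [sum_add_distrib, sum_sub_distrib, sum_sub_distrib, al_sum (hP p hp).1 (hP p hp).2,
      al_sum (hP p hp).1 (hP p hp).2, al_pair (hP p hp).1 (hP p hp).2, sum_const, card_range, nsmul_eq_mul]
    have k1 : (p : ℝ) - 2 ≠ 0 := by linarith
    have k2 : (p : ℝ) ≠ 0 := by linarith
    split_ifs
    · field_simp
      ring
    · field_simp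
      ring
  obtain ⟨X1, hX1⟩ : ∃ X1 : ℝ, X1 = ∑ c ∈ C, x c := ⟨_, rfl⟩
  rw [← hX1]
  have hF1 : ∑ a ∈ range q, ∑ c ∈ KL C P a, x c = q * B * X1 := by
    calc ∑ a ∈ range q, ∑ c ∈ KL C P a, x c = ∑ a ∈ range q, ∑ c ∈ C, x c * ∏ p ∈ P, (1 - al p c a) :=
          sum_congr rfl fun a _ => KL_ind C P a x
      _ = ∑ c ∈ C, x c * (q * B) := by
          rw [sum_comm]
          apply sum_congr rfl
          intro c _
          rw [← mul_sum, hE]
      _ = _ := by rw [← sum_mul, hX1]; ring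
  have hF2 : ∑ a ∈ range q, (∑ c ∈ KL C P a, x c) ^ 2 = q * G * ∑ c ∈ C, ∑ c' ∈ C, x c * x c' * rh P c c' := by
    calc ∑ a ∈ range q, (∑ c ∈ KL C P a, x c) ^ 2 = ∑ a ∈ range q, ∑ c ∈ C, ∑ c' ∈ C,
          x c * x c' * ((∏ p ∈ P, (1 - al p c a)) * (∏ p ∈ P, (1 - al p c' a))) := by
          apply sum_congr rfl
          intro a _
          rw [KL_ind, sq, sum_mul_sum]
          apply sum_congr rfl
          intro c _
          apply sum_congr rfl
          intro c' _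
          ring
      _ = ∑ c ∈ C, ∑ c' ∈ C, x c * x c' * (q * G * rh P c c') := by
          rw [sum_comm]
          apply sum_congr rfl
          intro c _
          rw [sum_comm]
          apply sum_congr rfl
          intro c' _
          rw [← mul_sum, hEE]
      _ = _ := by
          rw [mul_sum]
          apply sum_congr rfl
          intro c _
          rw [mul_sum]
          apply sum_congr rfl
          intro c' _
          ring
  have hXX : X1 ^ 2 = ∑ c ∈ C, ∑ c' ∈ C, x c * x c' := by rw [hX1, sq, sum_mul_sum]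
  have e3 : ∑ a ∈ range q, (∑ c ∈ KL C P a, x c - B * X1) ^ 2 =
      q * G * ∑ c ∈ C, ∑ c' ∈ C, x c * x c' * (rh P c c' - 1) + q * (G - B ^ 2) * X1 ^ 2 := by
    have e4 : ∀ a, (∑ c ∈ KL C P a, x c - B * X1) ^ 2 = (∑ c ∈ KL C P a, x c) ^ 2 -
        2 * (B * X1) * ∑ c ∈ KL C P a, x c + (B * X1) ^ 2 := fun a => by ring
    simp only [e4]
    rw [sum_add_distrib, sum_sub_distrib, ← mul_sum, hF1, hF2, sum_const, card_range, nsmul_eq_mul]
    have e5 : ∑ c ∈ C, ∑ c' ∈ C, x c * x c' * (rh P c c' - 1) =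
        ∑ c ∈ C, ∑ c' ∈ C, x c * x c' * rh P c c' - X1 ^ 2 := by
      rw [hXX, ← sum_sub_distrib]
      apply sum_congr rfl
      intro c _
      rw [← sum_sub_distrib]
      apply sum_congr rfl
      intro c' _
      ring
    rw [e5]
    ring
  rw [e3]
  have h1 : ∑ c ∈ C, ∑ c' ∈ C, x c * x c' * (rh P c c' - 1) ≤ ∑ c ∈ C, ∑ c' ∈ C, (rh P c c' - 1) := by
    apply sum_le_sum
    intro c hc
    apply sum_le_sum
    intro c' hc'
    have k1 := one_le_rh P (fun p hp => (hP p hp).2) c c'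
    have k2 : x c * x c' ≤ 1 := by
      calc x c * x c' ≤ |x c * x c'| := le_abs_self _
        _ = |x c| * |x c'| := abs_mul _ _
        _ ≤ 1 * 1 := mul_le_mul (hx c hc) (hx c' hc') (abs_nonneg _) zero_le_one
        _ = 1 := one_mul 1
    nlinarith
  have h0 : 0 ≤ ∑ c ∈ C, ∑ c' ∈ C, (rh P c c' - 1) := by
    apply sum_nonneg
    intro c _
    apply sum_nonneg
    intro c' _
    linarith [one_le_rh P (fun p hp => (hP p hp).2) c c']
  have h2 : q * (G - B ^ 2) * X1 ^ 2 ≤ 0 := by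
    apply mul_nonpos_of_nonpos_of_nonneg _ (sq_nonneg _)
    apply mul_nonpos_of_nonneg_of_nonpos hqr.le
    linarith
  calc q * G * ∑ c ∈ C, ∑ c' ∈ C, x c * x c' * (rh P c c' - 1) + q * (G - B ^ 2) * X1 ^ 2
      ≤ q * G * ∑ c ∈ C, ∑ c' ∈ C, (rh P c c' - 1) := by
        have := mul_le_mul_of_nonneg_left h1 (by positivity : 0 ≤ (q : ℝ) * G)
        linarith
    _ ≤ q * B ^ 2 * ∑ c ∈ C, ∑ c' ∈ C, (rh P c c' - 1) := by
        gcongr

end Pool.Agent.K9h54.LC
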